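import Pool.Agent.MP_2a5a28_nt.H70.Defs

attribute [-instance] IdemSemiring.toCanonicallyOrderedAdd instNonemptyProd instCharZeroOfIsSemireal
  IdemSemiring.toMulLeftMono IsOrderedMonoid.toMulLeftMono AddQuantale.instAddLeftMono
  Quantale.instMulLeftMono Fintype.decidableForallFintype NumberField.to_charZero RKHS.instFunLike
  RCLike.charZero_rclike instCoeTCOfCoe MonTypeEquivalenceMon.monMonoid
  DistribMulActionSemiHomClass.toAddMonoidHomClass CanonicallyOrderedAdd.toMulLeftMono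
  AddQuantale.instAddRightMono IdemSemiring.toSemiring Unique.instInhabited
  covariant_swap_mul_of_covariant_mul CompletePartialOrder.toPartialOrder instCoeTOfCoeDep
  Quantale.instMulRightMono Nontrivial.to_nonempty GeneralizedCoheytingAlgebra.toLattice
  ringChar.charP instCoeHTCOfCoeHeadOfCoeOTC LinearOrderedCommMonoidWithZero.toPosMulStrictMono
  IsStrictOrderedRing.toCharZero instCoeHTCTOfCoeTailOfCoeHTC BialgHomClass.toMonoidHomClass
  bot_nonempty IsStrictOrderedRing.noZeroDivisors AlgHomClass.toRingHomClass Zero.instNonempty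
  Group.IsPerfect.subsingleton_of_isMulCommutative CanonicallyOrderedMul.toMulLeftMono
  Finset.decidableDforallFinset Array.instDecidableForallForallMemOfDecidablePred
  TestFunctionClass.toDFunLike ContDiffMapSupportedInClass.toDFunLike NeZero.of_gt' One.instNonempty
  BooleanRing.toRing continuousSub_of_discreteTopology Multiset.decidableDforallMultiset
  instInhabitedOfMonad instNonemptyOfMonad Torsor.nonempty AddTorsor.nonempty
  SemilatticeSup.toPartialOrder Vector.instDecidableForallForallMemOfDecidablePred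
  ConnectedSpace.toNonempty Option.decidableForallMem CategoryTheory.IsConnected.is_nonempty
  MulCharClass.toMonoidHomClass Int.decidableLTLE GeneralizedHeytingAlgebra.toLattice
  Invertible.toNeZero top_nonempty CommRing.toRing OmegaCompletePartialOrder.toPartialOrder
  littleWedderburn Subtype.finite supSet_to_nonempty CStarAlgebra.instOrderClosedTopology
  Int.decidableLTLT Int.decidableLELE IrreducibleSpace.toNonempty infSet_to_nonempty
  NonUnitalRingHomClass.toAddMonoidHomClass MulDistribMulActionSemiHomClass.toMonoidHomClass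
  CommMonTypeEquivalenceCommMon.commMonCommMonoid Int.decidableLELT
  ConditionallyCompletePartialOrderInf.toPartialOrder
  ConditionallyCompleteLinearOrderBot.toConditionallyCompleteLinearOrder
  ChainCompletePartialOrder.toPartialOrder

/-! The determinant: zero lemma, valuation bound, averaging, core inequality. -/

set_option autoImplicit false
set_option linter.unusedSectionVars false

namespace Pool.Agent.MP_2a5a28_nt.H70

open Finset UniqueFactorizationMonoid

theorem rows_zero {K : Type*} [Field K] [CharZero K] (η : K) (hη : η ≠ 1) (k : ℕ) (E : Finset ℕ)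
    (hE : 2 * k ≤ E.card + 1) (χ : ℕ → K) (hχ : ∀ t ∈ E, χ t ≠ 0) (A B : Polynomial K)
    (hA : A.natDegree < k) (hB : B.natDegree < k)
    (h0 : ∀ t ∈ E, A.eval (t : K) + B.eval (t : K) * χ t = 0)
    (h1 : ∀ t ∈ E, A.eval ((t : K) + 1) + B.eval ((t : K) + 1) * (χ t * η) = 0) :
    A = 0 ∧ B = 0 := by
  classical
  have hz : ∀ P : Polynomial K, P.natDegree < E.card → (∀ t ∈ E, P.eval (t : K) = 0) → P = 0 :=
    fun P hP h => P.eq_zero_of_natDegree_lt_card_of_eval_eq_zero' (E.image Nat.cast)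
      (by simpa only [mem_image, forall_exists_index, and_imp, forall_apply_eq_imp_iff₂] using h) (by rwa [card_image_of_injective _ Nat.cast_injective])
  have hP : Polynomial.C η * (A * Polynomial.taylor 1 B) - Polynomial.taylor 1 A * B = 0 := by
    refine hz _ ?_ fun t ht => ?_
    · have a1 := Polynomial.natDegree_mul_le (p := A) (q := Polynomial.taylor 1 B)
      have a2 := Polynomial.natDegree_mul_le (p := Polynomial.taylor 1 A) (q := B)
      have a3 := Polynomial.natDegree_C_mul_le η (A * Polynomial.taylor 1 B)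
      rw [Polynomial.natDegree_taylor] at a1 a2
      exact (Polynomial.natDegree_sub_le _ _).trans_lt (max_lt (by omega) (by omega))
    · simp only [Polynomial.eval_sub, Polynomial.eval_mul, Polynomial.eval_C,
        Polynomial.taylor_eval]
      linear_combination η * B.eval ((t : K) + 1) * h0 t ht - B.eval (t : K) * h1 t ht
  have hl := congrArg Polynomial.leadingCoeff (sub_eq_zero.1 hP)
  simp only [Polynomial.leadingCoeff_mul, Polynomial.leadingCoeff_C,
    Polynomial.leadingCoeff_taylor] at hl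
  have : (η - 1) * (A.leadingCoeff * B.leadingCoeff) = 0 := by linear_combination hl
  rcases mul_eq_zero.1 ((mul_eq_zero.1 this).resolve_left (sub_ne_zero.2 hη)) with h | h
  · rw [Polynomial.leadingCoeff_eq_zero] at h
    subst h
    exact ⟨rfl, hz _ (by omega) fun t ht => by simpa [hχ t ht] using h0 t ht⟩
  · rw [Polynomial.leadingCoeff_eq_zero] at h
    subst h
    exact ⟨hz _ (by omega) fun t ht => by simpa using h0 t ht, rfl⟩

theorem rows_poly {K : Type*} [Field K] [CharZero K] {k : ℕ} (hk : 0 < k) (x : Fin k → K) :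
    ∃ A : Polynomial K, A.natDegree < k ∧
      (∀ n : ℕ, A.eval (n : K) = ∑ j, x j * (n.choose j : K)) ∧ (A = 0 → x = 0) := by
  have he : ∀ n : ℕ, (∑ j : Fin k, Polynomial.C (x j / (j : ℕ).factorial) *
      descPochhammer K j).eval (n : K) = ∑ j, x j * (n.choose j : K) := by
    intro n
    rw [Polynomial.eval_finsetSum]
    refine sum_congr rfl fun j _ => ?_
    have : ((j : ℕ).factorial : K) ≠ 0 := by exact_mod_cast (j : ℕ).factorial_ne_zero
    rw [Polynomial.eval_mul, Polynomial.eval_C, descPochhammer_eval_eq_descFactorial,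
      Nat.descFactorial_eq_factorial_mul_choose]
    push_cast
    field_simp
  refine ⟨_, ?_, he, fun h => ?_⟩
  · refine lt_of_le_of_lt (Polynomial.natDegree_sum_le_of_forall_le _ _ (n := k - 1)
      fun j _ => (Polynomial.natDegree_C_mul_le _ _).trans ?_) (by omega)
    rw [descPochhammer_natDegree]
    have := j.2
    omega
  · have : ∀ n (hn : n < k), x ⟨n, hn⟩ = 0 := by
      intro n
      induction n using Nat.strong_induction_on with
      | _ n ih =>
        intro hn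
        have h2 := he n
        rw [h, Polynomial.eval_zero, sum_eq_single ⟨n, hn⟩ (fun j _ hj => by
          rcases lt_or_gt_of_ne (show (j : ℕ) ≠ n from fun e => hj (Fin.ext e)) with h' | h'
          · rw [show x j = 0 from ih j h' j.2, zero_mul]
          · simp [Nat.choose_eq_zero_of_lt h']) (by simp only [mem_univ, not_true_eq_false, Nat.choose_self, Nat.cast_one, mul_one, IsEmpty.forall_iff])] at h2
        simpa using h2.symm
    exact funext fun j => this j j.2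

theorem rows_step {K : Type*} [Field K] [CharZero K] (η : K) (hη : η ≠ 1) (k : ℕ) (E : Finset ℕ)
    (hE : E.card ≤ 2 * k) (χ : ℕ → K) (hχ : ∀ t ∈ E, χ t ≠ 0) (s : Finset ℕ)
    (hs : s.card < E.card) (v : ℕ → Fin k × Bool → K) :
    ∃ t ∈ E, ∃ sh ≤ 1, (fun c : Fin k × Bool => ((t + sh).choose c.1 : K) *
      (if c.2 then χ t * η ^ sh else 1)) ∉ Submodule.span K (v '' s) := by
  by_contra! hc
  obtain ⟨k', hk'⟩ : ∃ k', k' = (E.card + 1) / 2 := ⟨_, rfl⟩
  have hk : k' ≤ k := by omega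
  have hdep : ¬LinearIndependent K fun (c : Fin k' × Bool) (t : s) =>
      v t (c.1.castLE hk, c.2) := fun h => by
    have := h.fintype_card_le_finrank
    simp only [Fintype.card_prod, Fintype.card_fin, Fintype.card_bool, Module.finrank_fintype_fun_eq_card, Fintype.card_coe] at this
    omega
  obtain ⟨x, hx, i, hi⟩ := Fintype.not_linearIndependent_iff.1 hdep
  have hφ : ∀ w ∈ Submodule.span K (v '' s), ∑ c, x c * w (c.1.castLE hk, c.2) = 0 := by
    intro w hw
    induction hw using Submodule.span_induction with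
    | mem w hw =>
      obtain ⟨t, ht, rfl⟩ := hw
      simpa only [Finset.sum_apply, Pi.smul_apply, smul_eq_mul, Pi.zero_apply] using congrFun hx ⟨t, ht⟩
    | zero => simp only [Pi.zero_apply, mul_zero, sum_const_zero]
    | add a b _ _ ha hb => simp only [Pi.add_apply, mul_add, sum_add_distrib, ha, hb, add_zero]
    | smul r a _ ha =>
      simp only [Pi.smul_apply, smul_eq_mul, mul_left_comm _ r, ← mul_sum, ha, mul_zero]
  obtain ⟨A, a1, a2, a3⟩ := rows_poly (k := k') (by omega) fun j => x (j, false)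
  obtain ⟨B, b1, b2, b3⟩ := rows_poly (k := k') (by omega) fun j => x (j, true)
  have key : ∀ t ∈ E, ∀ sh ≤ 1, A.eval ((t + sh : ℕ) : K) +
      B.eval ((t + sh : ℕ) : K) * (χ t * η ^ sh) = 0 := by
    intro t ht sh hsh
    have := hφ _ (hc t ht sh hsh)
    rw [a2, b2, ← this, Fintype.sum_prod_type, sum_mul, ← sum_add_distrib]
    refine sum_congr rfl fun j _ => ?_
    simp only [mul_assoc, Fintype.univ_bool, Fin.val_castLE, mul_ite, mul_one, mem_singleton, Bool.true_eq_false, not_false_eq_true, sum_insert, ↓ reduceIte, sum_singleton, Bool.false_eq_true, add_comm]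
  obtain ⟨hA, hB⟩ := rows_zero η hη k' E (by omega) χ hχ A B a1 b1
    (fun t ht => by simpa only [add_zero, pow_zero, mul_one] using key t ht 0 zero_le_one) fun t ht => by simpa only [Nat.cast_add, Nat.cast_one, pow_one] using key t ht 1 le_rfl
  obtain ⟨j, b⟩ := i
  cases b
  · exact hi (congrFun (a3 hA) j)
  · exact hi (congrFun (b3 hB) j)

theorem rows {K : Type*} [Field K] [CharZero K] (η : K) (hη : η ≠ 1) (k : ℕ) (E : Finset ℕ)
    (hE : E.card = 2 * k) (χ : ℕ → K) (hχ : ∀ t ∈ E, χ t ≠ 0) (c : ℕ → ℝ) :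
    ∃ t0 sh : Fin k × Bool → ℕ, (∀ i, t0 i ∈ E ∧ sh i ≤ 1) ∧ ∑ i, c (t0 i) ≤ ∑ t ∈ E, c t ∧
      (mat k (fun i => t0 i + sh i) (fun i => χ (t0 i) * η ^ sh i)).det ≠ 0 := by
  have key : ∀ s : Finset ℕ, s ⊆ E → ∃ p q : ℕ → ℕ, (∀ t ∈ s, p t ∈ s ∧ q t ≤ 1 ∧ c (p t) ≤ c t) ∧
      LinearIndepOn K (fun (t : ℕ) (c : Fin k × Bool) => ((p t + q t).choose c.1 : K) *
        (if c.2 then χ (p t) * η ^ q t else 1)) s := by
    intro s
    induction s using Finset.induction_on_max_value c with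
    | empty => exact fun _ => ⟨id, id, by simp, by simp⟩
    | insert a s ha hmax ih =>
      intro hs
      obtain ⟨p, q, h1, h2⟩ := ih ((subset_insert _ _).trans hs)
      obtain ⟨t, ht, sh, hsh, hn⟩ := rows_step η hη k (insert a s) (hE ▸ card_le_card hs) χ
        (fun t ht => hχ t (hs ht)) s (by rw [card_insert_of_notMem ha]; omega)
        fun (t : ℕ) (c : Fin k × Bool) => ((p t + q t).choose c.1 : K) *
          (if c.2 then χ (p t) * η ^ q t else 1)
      have hne : ∀ x ∈ s, x ≠ a := fun x hx e => ha (e ▸ hx)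
      refine ⟨Function.update p a t, Function.update q a sh, fun x hx => ?_, ?_⟩
      · rcases mem_insert.1 hx with rfl | hx
        · simp only [Function.update_self]
          refine ⟨ht, hsh, ?_⟩
          rcases mem_insert.1 ht with rfl | ht
          exacts [le_rfl, hmax t ht]
        · simp only [Function.update_of_ne (hne x hx)]
          exact ⟨mem_insert_of_mem (h1 x hx).1, (h1 x hx).2⟩
      · have he : Set.EqOn (fun (t : ℕ) (c : Fin k × Bool) => ((p t + q t).choose c.1 : K) *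
            (if c.2 then χ (p t) * η ^ q t else 1)) (fun (x : ℕ) (c : Fin k × Bool) =>
            ((Function.update p a t x + Function.update q a sh x).choose c.1 : K) *
            (if c.2 then χ (Function.update p a t x) * η ^ Function.update q a sh x else 1)) s :=
          fun x hx => by simp only [Function.update_of_ne (hne x hx)]
        rw [coe_insert, linearIndepOn_insert (by simpa using ha), ← he.image_eq]
        exact ⟨h2.congr he, by simpa only [Function.update_self] using hn⟩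
  obtain ⟨p, q, h1, h2⟩ := key E subset_rfl
  let e : Fin k × Bool ≃ E := Fintype.equivOfCardEq (by simp only [Fintype.card_prod, Fintype.card_fin, Fintype.card_bool, Fintype.card_coe, hE, mul_comm])
  refine ⟨fun i => p (e i), fun i => q (e i), fun i => ⟨(h1 _ (e i).2).1, (h1 _ (e i).2).2.1⟩,
    ?_, ?_⟩
  · rw [← sum_coe_sort E, ← e.sum_comp]
    exact sum_le_sum fun i _ => (h1 _ (e i).2).2.2
  · exact ((Matrix.isUnit_iff_isUnit_det _).1 (Matrix.linearIndependent_rows_iff_isUnit.1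
      (h2.comp e e.injective))).ne_zero

theorem det_leib {K n : Type*} [Field K] [Fintype n] [DecidableEq n] (ν : AbsoluteValue K ℝ)
    (A : Matrix n n K) (β : n → ℝ) (h : ∀ c i, ν (A c i) ≤ β c) :
    ν A.det ≤ (Fintype.card n).factorial * ∏ c, β c := by
  rw [← Matrix.det_transpose, Matrix.det_apply]
  refine (ν.sum_le _ _).trans ?_
  rw [← Fintype.card_perm, ← nsmul_eq_mul, ← Finset.card_univ]
  refine Finset.sum_le_card_nsmul _ _ _ fun σ _ => ?_
  rw [ν.map_units_int_smul, map_prod]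
  exact Finset.prod_le_prod (fun _ _ => ν.nonneg _) fun c _ => h _ _

theorem det_sq (S : Finset ℕ) : S.card ^ 2 ≤ 2 * ∑ x ∈ S, x + S.card := by
  induction S using Finset.induction_on_max with
  | empty => simp
  | insert a S ha ih =>
    have h1 : a ∉ S := fun h => lt_irrefl _ (ha a h)
    have h2 : S.card ≤ a := by
      simpa using Finset.card_le_card (show S ⊆ range a from fun x hx => mem_range.2 (ha x hx))
    rw [card_insert_of_notMem h1, sum_insert h1]
    linarith only [ih, h2]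

theorem det_sq' {α : Type*} (S : Finset α) (g : α → ℕ) (hg : Set.InjOn g S) :
    S.card ^ 2 ≤ 2 * ∑ x ∈ S, g x + S.card := by
  classical
  have := det_sq (S.image g)
  rwa [card_image_of_injOn hg, sum_image hg] at this

theorem det_gap {k : ℕ} (S : Finset (Fin k)) (m : Fin k → ℕ) (hm : Set.InjOn m S)
    (hk : ∀ j ∈ S, k ≤ m j) : S.card ^ 2 ≤ ∑ j ∈ S, (m j - j) := by
  have h1 := det_sq' S (fun j => m j - k) fun i hi j hj h => hm hi hj (by
    have := hk i hi; have := hk j hj; simp only at h; omega)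
  have h2 := det_sq' S (fun j => k - 1 - j) fun i _ j _ h => Fin.ext (by
    have := i.2; have := j.2; simp only at h; omega)
  have h3 : ∑ j ∈ S, (m j - j) = ∑ j ∈ S, (m j - k) + ∑ j ∈ S, (k - 1 - j) + S.card := by
    rw [card_eq_sum_ones, ← sum_add_distrib, ← sum_add_distrib]
    exact sum_congr rfl fun j hj => by have := hk j hj; have := j.2; omega
  omega

theorem det_exp {K : Type*} [Field K] (η : K) (T t j : ℕ) (ht : t ≤ T) :
    (t.choose j : K) * η ^ t =
      ∑ m ∈ range (T + 1), η ^ j * (m.choose j : K) * (η - 1) ^ (m - j) * (t.choose m : K) := by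
  have key : ∀ m, j ≤ m → η ^ j * (m.choose j : K) * (η - 1) ^ (m - j) * (t.choose m : K) =
      (t.choose j : K) * η ^ j * ((η - 1) ^ (m - j) * ((t - j).choose (m - j) : K)) := by
    intro m hm
    have : (t.choose m : K) * (m.choose j : K) = t.choose j * (t - j).choose (m - j) := by
      exact_mod_cast congrArg (Nat.cast : ℕ → K) (Nat.choose_mul (n := t) hm)
    linear_combination η ^ j * (η - 1) ^ (m - j) * this
  rcases lt_or_ge t j with h | h
  · rw [Nat.choose_eq_zero_of_lt h]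
    refine (by simp : _ = (0 : K)).trans (sum_eq_zero fun m _ => ?_).symm
    rcases lt_or_ge m j with h' | h'
    · simp only [Nat.choose_eq_zero_of_lt h', Nat.cast_zero, mul_zero, zero_mul]
    · simp only [Nat.choose_eq_zero_of_lt (h.trans_le h'), Nat.cast_zero, mul_zero]
  obtain ⟨n, rfl⟩ := Nat.exists_eq_add_of_le h
  rw [← sum_subset (s₁ := Ico j (j + n + 1)) (fun m hm => by simp only [mem_Ico, Order.lt_add_one_iff, mem_range] at hm ⊢; omega)
    (fun m _ hm => by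
      rcases lt_or_ge m j with h' | h'
      · simp only [Nat.choose_eq_zero_of_lt h', Nat.cast_zero, mul_zero, zero_mul]
      · simp only [Nat.choose_eq_zero_of_lt (show j + n < m by simp only [mem_Ico, Order.lt_add_one_iff, not_and, not_le] at hm; omega), Nat.cast_zero, mul_zero]),
    sum_Ico_eq_sum_range, show j + n + 1 - j = n + 1 by omega,
    sum_congr rfl fun i _ => key (j + i) (Nat.le_add_right _ _), ← mul_sum, pow_add, mul_assoc]
  have := add_pow (η - 1) 1 n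
  simp only [sub_add_cancel, one_pow, mul_one] at this
  simp only [Nat.add_sub_cancel_left, this]

/-- Coefficients of the column expansion. -/
def det_a {K : Type*} [Field K] (η c0 : K) {k : ℕ} (c : Fin k × Bool) : Option ℕ → K
  | none => if c.2 then c0 else 0
  | some m => if c.2 then c0 * (η ^ (c.1 : ℕ) * (m.choose c.1 : K) * (η - 1) ^ (m - c.1))
      else if m = c.1 then 1 else 0

/-- Vectors of the column expansion. -/
def det_w {K : Type*} [Field K] (η : K) {k : ℕ} (t : Fin k × Bool → ℕ) (e : Fin k × Bool → K)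
    (c : Fin k × Bool) : Option ℕ → Fin k × Bool → K
  | none => fun i => η ^ t i * e i * ((t i).choose c.1 : K)
  | some m => fun i => ((t i).choose m : K)

theorem det_term {K : Type*} [Field K] (ν : AbsoluteValue K ℝ) (hν : ∀ n : ℕ, ν n ≤ n)
    (k T : ℕ) (hk : 2 * k ≤ T + 1) (t : Fin k × Bool → ℕ) (ht : ∀ i, t i ≤ T) (η c0 : K)
    (e : Fin k × Bool → K) (ρ ε Γ X : ℝ) (hρ : ν (η - 1) ≤ ρ) (hρ1 : ρ ≤ 1) (hε : 0 ≤ ε)
    (he : ∀ i, ν (e i) ≤ ε) (hΓ : ν c0 ≤ Γ) (hX : ∀ J ≤ k, ε ^ J * ρ ^ ((k - J) ^ 2) ≤ X)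
    (f : Fin k × Bool → Option ℕ) (hf : ∀ c m, f c = some m → m ≤ T) :
    ν (Matrix.det (Matrix.of fun c i => det_a η c0 c (f c) * det_w η t e c (f c) i)) ≤
      (2 * k).factorial * ((Γ * 16 ^ T) ^ k * X) := by
  have hρ0 : 0 ≤ ρ := (ν.nonneg _).trans hρ
  have hΓ0 : 0 ≤ Γ := (ν.nonneg _).trans hΓ
  have hX0 : 0 ≤ X := le_trans (by positivity) (hX 0 k.zero_le)
  by_cases h0 : Matrix.det (Matrix.of fun c i => det_a η c0 c (f c) * det_w η t e c (f c) i) = 0
  · rw [h0, map_zero]; positivity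
  have h1 : (∏ c, det_a η c0 c (f c)) *
      Matrix.det (Matrix.of fun c i => det_w η t e c (f c) i) ≠ 0 := by
    rwa [← Matrix.det_mul_column]
  rw [mul_ne_zero_iff, prod_ne_zero_iff] at h1
  obtain ⟨ha, hw⟩ := h1
  have hinj : ∀ c c' m, f c = some m → f c' = some m → c = c' := by
    intro c c' m hc hc'
    by_contra hne
    exact hw (Matrix.det_zero_of_row_eq hne (by ext i; simp only [det_w, Matrix.of_apply, hc, hc']))
  have hfa : ∀ j : Fin k, f (j, false) = some j := by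
    intro j
    have := ha (j, false) (mem_univ _)
    rcases hj : f (j, false) with _ | m <;> simp_all [det_a]
  have hη : ν η ≤ 2 := by
    have := ν.add_le (η - 1) 1
    rw [sub_add_cancel, ν.map_one] at this
    linarith only [hρ, hρ1, this]
  have hch : ∀ a b : ℕ, a ≤ T → ν (a.choose b : K) ≤ 2 ^ T := fun a b hab =>
    (hν _).trans (by exact_mod_cast (Nat.choose_le_two_pow a b).trans (Nat.pow_le_pow_right two_pos hab))
  have hpw : ∀ a : ℕ, a ≤ T → ν η ^ a ≤ 2 ^ T := fun a hab =>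
    (pow_le_pow_left₀ (ν.nonneg _) hη a).trans (pow_le_pow_right₀ one_le_two hab)
  set S : Finset (Fin k) := univ.filter fun j => (f (j, true)).isSome with hS
  set m : Fin k → ℕ := fun j => (f (j, true)).getD 0 with hm
  have hSm : ∀ j ∈ S, f (j, true) = some (m j) := by
    intro j hj
    obtain ⟨a, h⟩ := Option.isSome_iff_exists.1 (mem_filter.1 hj).2
    simp [hm, h]
  have hgap := det_gap S m
    (fun i hi j hj h => congrArg Prod.fst (hinj _ _ _ (hSm i hi) (h ▸ hSm j hj)))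
    (fun j hj => by
      by_contra hlt
      simpa using congrArg Prod.snd (hinj _ _ _ (hSm j hj) (hfa ⟨m j, not_le.1 hlt⟩)))
  have h8 : (8 : ℝ) ^ T = 2 ^ T * 2 ^ T * 2 ^ T := by rw [← mul_pow, ← mul_pow]; norm_num
  refine (det_leib ν _ (fun c => if c.2 then Γ * 8 ^ T * (if c.1 ∈ S then ρ ^ (m c.1 - c.1) else ε)
    else 2 ^ T) ?_).trans ?_
  · rintro ⟨j, b⟩ i
    have hj : (j : ℕ) ≤ T := by have := j.2; omega
    cases b
    · simpa only [det_a, det_w, Matrix.of_apply, hfa, Option.pure_def, Option.bind_eq_bind, Option.bind_some, Bool.false_eq_true, ↓ reduceIte, one_mul, ge_iff_le] using hch _ _ (ht i)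
    by_cases hjS : j ∈ S
    · have e1 := hSm j hjS
      simp only [Matrix.of_apply, e1, det_a, det_w, if_true, hjS, map_mul, map_pow, h8]
      have := hch _ j (hf _ _ e1)
      have := hch _ (m j) (ht i)
      have := hpw _ hj
      calc _ ≤ Γ * (2 ^ T * 2 ^ T * ρ ^ (m j - j)) * 2 ^ T := by gcongr
        _ = _ := by ring
    · have e1 : f (j, true) = none := by simpa only [hS, mem_filter, mem_univ, true_and, Bool.not_eq_true, Option.isSome_eq_false_iff, Option.isNone_iff_eq_none] using hjS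
      simp only [Matrix.of_apply, e1, det_a, det_w, if_true, hjS, if_false, map_mul, map_pow, h8]
      have := hch _ j (ht i)
      have := hpw _ (ht i)
      have := he i
      have h2 : (1 : ℝ) ≤ 2 ^ T := one_le_pow₀ one_le_two
      calc _ ≤ Γ * (2 ^ T * ε * 2 ^ T) * 1 := by rw [mul_one]; gcongr
        _ ≤ Γ * (2 ^ T * ε * 2 ^ T) * 2 ^ T := by gcongr
        _ = _ := by ring
  · rw [show Fintype.card (Fin k × Bool) = 2 * k by simp only [Fintype.card_prod, Fintype.card_fin, Fintype.card_bool, mul_comm]]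
    gcongr
    have hc : S.card + Sᶜ.card = k := by simp only [card_add_card_compl, Fintype.card_fin]
    have h16 : (Γ * 16 ^ T) ^ k = (Γ * 8 ^ T) ^ k * (2 ^ T) ^ k := by
      rw [← mul_pow, mul_assoc, ← mul_pow]; norm_num
    have hp : ∏ j : Fin k, (if j ∈ S then ρ ^ (m j - j) else ε) ≤ X := by
      rw [← prod_mul_prod_compl S, prod_congr rfl fun j hj => if_pos hj,
        prod_congr (s₁ := Sᶜ) rfl fun j hj => if_neg (mem_compl.1 hj), prod_const,
        prod_pow_eq_pow_sum, mul_comm]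
      refine le_trans ?_ (hX Sᶜ.card (by omega))
      rw [show k - Sᶜ.card = S.card by omega]
      exact mul_le_mul_of_nonneg_left (pow_le_pow_of_le_one hρ0 hρ1 hgap) (by positivity)
    simp only [Fintype.prod_prod_type, Fintype.prod_bool, if_true, Bool.false_eq_true, if_false,
      prod_mul_distrib, prod_const, card_univ, Fintype.card_fin, h16]
    calc _ = Γ ^ k * (8 ^ T) ^ k * (2 ^ T) ^ k *
        ∏ j : Fin k, (if j ∈ S then ρ ^ (m j - j) else ε) := by ring
      _ ≤ Γ ^ k * (8 ^ T) ^ k * (2 ^ T) ^ k * X := by gcongr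
      _ = _ := by rw [mul_pow]

theorem det_bound {K : Type*} [Field K] (ν : AbsoluteValue K ℝ) (hν : ∀ n : ℕ, ν n ≤ n)
    (k T : ℕ) (hk : 2 * k ≤ T + 1) (t : Fin k × Bool → ℕ) (ht : ∀ i, t i ≤ T) (η c0 : K)
    (e : Fin k × Bool → K) (ρ ε Γ X : ℝ) (hρ : ν (η - 1) ≤ ρ) (hρ1 : ρ ≤ 1)
    (he : ∀ i, ν (e i) ≤ ε) (hΓ : ν c0 ≤ Γ) (hX : ∀ J ≤ k, ε ^ J * ρ ^ ((k - J) ^ 2) ≤ X) :
    ν (mat k t (fun i => c0 * η ^ t i * (1 + e i))).det ≤ (Γ * 2 ^ (8 * (T + 1))) ^ k * X := by
  rcases Nat.eq_zero_or_pos k with rfl | hk0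
  · simpa only [Matrix.det_isEmpty, AbsoluteValue.map_one, pow_zero, one_mul, tsub_self, ne_eq, OfNat.ofNat_ne_zero, not_false_eq_true, zero_pow, mul_one] using hX 0 le_rfl
  have hε : 0 ≤ ε := (ν.nonneg _).trans (he (⟨0, hk0⟩, true))
  have hρ0 : 0 ≤ ρ := (ν.nonneg _).trans hρ
  have hΓ0 : 0 ≤ Γ := (ν.nonneg _).trans hΓ
  have hX0 : 0 ≤ X := le_trans (by positivity) (hX 0 k.zero_le)
  have hM : (mat k t (fun i => c0 * η ^ t i * (1 + e i))).transpose = fun c =>
      ∑ o ∈ insertNone (range (T + 1)), fun i => det_a η c0 c o * det_w η t e c o i := by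
    ext ⟨j, b⟩ i
    rw [Finset.sum_apply, sum_insertNone]
    cases b
    · have hj : (j : ℕ) < T + 1 := by have := j.2; omega
      simp only [Matrix.transpose_apply, mat, Bool.false_eq_true, ↓ reduceIte, mul_one, det_a, det_w, zero_mul, ite_mul, one_mul, sum_ite_eq', mem_range, hj, zero_add]
    · have := det_exp η T (t i) j (ht i)
      simp only [mat, det_a, det_w, Matrix.transpose_apply, if_true, mul_assoc, ← mul_sum] at this ⊢
      linear_combination c0 * this
  have hD : (mat k t (fun i => c0 * η ^ t i * (1 + e i))).det =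
      ∑ f ∈ Fintype.piFinset fun _ : Fin k × Bool => insertNone (range (T + 1)),
        Matrix.det (Matrix.of fun c i => det_a η c0 c (f c) * det_w η t e c (f c) i) := by
    rw [← Matrix.det_transpose, hM]
    exact (Matrix.detRowAlternating (R := K)).toMultilinearMap.map_sum_finset
      (fun c o i => det_a η c0 c o * det_w η t e c o i) _
  rw [hD]
  refine (ν.sum_le _ _).trans ((sum_le_card_nsmul _ _ _ fun f hf =>
    det_term ν hν k T hk t ht η c0 e ρ ε Γ X hρ hρ1 hε he hΓ hX f fun c m hc => ?_).trans ?_)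
  · have := Fintype.mem_piFinset.1 hf c
    rw [hc, some_mem_insertNone, mem_range] at this
    omega
  have h1 : T + 1 + 1 ≤ 2 ^ (T + 1) := Nat.lt_two_pow_self
  have h2 : (2 * k).factorial ≤ (2 ^ (T + 1)) ^ (2 * k) :=
    (Nat.factorial_le_pow _).trans (Nat.pow_le_pow_left (by omega) _)
  have h3 : ((T + 1 + 1) ^ (2 * k) * (2 * k).factorial * (16 ^ T) ^ k : ℕ) ≤
      (2 ^ (8 * (T + 1))) ^ k :=
    calc _ ≤ (2 ^ (T + 1)) ^ (2 * k) * (2 ^ (T + 1)) ^ (2 * k) * ((2 ^ 4) ^ (T + 1)) ^ k :=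
          Nat.mul_le_mul (Nat.mul_le_mul (Nat.pow_le_pow_left h1 _) h2)
            (Nat.pow_le_pow_left (Nat.pow_le_pow_right (by norm_num) T.le_succ) _)
      _ = _ := by simp only [← pow_mul, ← pow_add]; congr 1; ring
  rw [Fintype.card_piFinset, prod_const, card_insertNone, card_range, card_univ,
    show Fintype.card (Fin k × Bool) = 2 * k by simp only [Fintype.card_prod, Fintype.card_fin, Fintype.card_bool, mul_comm], nsmul_eq_mul]
  calc _ = (((T + 1 + 1) ^ (2 * k) * (2 * k).factorial * (16 ^ T) ^ k : ℕ) : ℝ) * (Γ ^ k * X) := by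
        push_cast; ring
    _ ≤ (((2 ^ (8 * (T + 1))) ^ k : ℕ) : ℝ) * (Γ ^ k * X) := by gcongr
    _ = _ := by push_cast; ring

theorem avg_cont (r h : ℝ) : Continuous fun x : ℝ => max (r - h * |x - round x|) 0 := by
  have e : (fun x : ℝ => |x - round x|) = fun x : ℝ => ‖(x : UnitAddCircle)‖ := by
    funext x; exact UnitAddCircle.norm_eq.symm
  have c : Continuous fun x : ℝ => |x - round x| := by
    rw [e]; exact continuous_norm.comp (AddCircle.continuous_mk' 1)
  exact (continuous_const.sub (continuous_const.mul c)).max continuous_const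

theorem avg_int (r h c : ℝ) (hh : 0 < h) (hr : 0 ≤ r) (hrh : r ≤ h / 2) :
    r ^ 2 / h ≤ ∫ w in (0 : ℝ)..1, max (r - h * |(w - c) - round (w - c)|) 0 := by
  set G : ℝ → ℝ := fun x => max (r - h * |x - round x|) 0 with hG
  have hc : Continuous G := avg_cont r h
  have hp : Function.Periodic G 1 := by
    intro x
    simp only [hG, round_add_one]
    push_cast
    rw [show x + 1 - ((round x : ℝ) + 1) = x - round x by ring]
  set a := r / h with ha
  have ha0 : 0 ≤ a := div_nonneg hr hh.le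
  have ha1 : a ≤ 1 / 2 := by rw [ha, div_le_iff₀ hh]; linarith only [hrh]
  have hra : r = h * a := by rw [ha]; field_simp
  have e1 : (∫ w in (0 : ℝ)..1, G (w - c)) = ∫ x in (-a)..(-a + 1), G x := by
    rw [intervalIntegral.integral_comp_sub_right G c, ← hp.intervalIntegral_add_eq (0 - c) (-a)]
    congr 1; ring
  change r ^ 2 / h ≤ ∫ w in (0 : ℝ)..1, G (w - c)
  rw [e1, ← intervalIntegral.integral_add_adjacent_intervals (b := 0) (hc.intervalIntegrable _ _)
    (hc.intervalIntegrable _ _), ← intervalIntegral.integral_add_adjacent_intervals (a := 0) (b := a)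
    (hc.intervalIntegrable _ _) (hc.intervalIntegrable _ _)]
  have hl : ∀ x : ℝ, r - h * |x| ≤ G x := by
    intro x
    have := round_le x 0
    simp only [Int.cast_zero, sub_zero] at this
    exact le_max_of_le_left (by nlinarith only [hh, this])
  have i1 : (∫ x in (-a)..0, (r + h * x)) ≤ ∫ x in (-a)..0, G x := by
    refine intervalIntegral.integral_mono_on (by linarith only [ha0])
      (Continuous.intervalIntegrable (by fun_prop) _ _) (hc.intervalIntegrable _ _) fun x hx => ?_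
    have := hl x
    rw [abs_of_nonpos hx.2] at this
    linarith only [this]
  have i2 : (∫ x in (0 : ℝ)..a, (r + -h * x)) ≤ ∫ x in (0 : ℝ)..a, G x := by
    refine intervalIntegral.integral_mono_on ha0
      (Continuous.intervalIntegrable (by fun_prop) _ _) (hc.intervalIntegrable _ _) fun x hx => ?_
    have := hl x
    rw [abs_of_nonneg hx.1] at this
    linarith only [this]
  have i3 : 0 ≤ ∫ x in a..(-a + 1), G x :=
    intervalIntegral.integral_nonneg (by linarith only [ha1]) fun x _ => le_max_right _ _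
  have j : ∀ s p q : ℝ, (∫ x in p..q, (r + s * x)) = r * (q - p) + s * ((q ^ 2 - p ^ 2) / 2) := by
    intro s p q
    rw [intervalIntegral.integral_add (Continuous.intervalIntegrable (by fun_prop) _ _)
      (Continuous.intervalIntegrable (by fun_prop) _ _), intervalIntegral.integral_const_mul,
      integral_id, intervalIntegral.integral_const, smul_eq_mul, mul_comm]
  rw [j] at i1 i2
  have e2 : r ^ 2 / h = h * a ^ 2 := by rw [hra]; field_simp
  rw [e2]
  rw [hra] at i1 i2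
  linarith only [i1, i2, i3]

theorem avg_sym (φ : ℝ → ℝ) (n : ℕ) :
    ∑ t ∈ range (2 * n + 1), φ |(t : ℝ) - n| = 2 * ∑ j ∈ range (n + 1), φ j - φ 0 := by
  induction n with
  | zero => simp; ring
  | succ n ih =>
    rw [show 2 * (n + 1) + 1 = (2 * n + 1) + 1 + 1 by ring, sum_range_succ, sum_range_succ',
      sum_range_succ (n := n + 1)]
    have e : ∑ t ∈ range (2 * n + 1), φ |((t + 1 : ℕ) : ℝ) - ((n + 1 : ℕ) : ℝ)| =
        ∑ t ∈ range (2 * n + 1), φ |(t : ℝ) - n| := by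
      refine sum_congr rfl fun t _ => ?_
      congr 2; push_cast; ring
    have h0 : (0 : ℝ) ≤ ((n + 1 : ℕ) : ℝ) := Nat.cast_nonneg _
    have e1 : |((0 : ℕ) : ℝ) - ((n + 1 : ℕ) : ℝ)| = ((n + 1 : ℕ) : ℝ) := by
      rw [Nat.cast_zero, zero_sub, abs_neg, abs_of_nonneg h0]
    have e2 : |((2 * n + 1 + 1 : ℕ) : ℝ) - ((n + 1 : ℕ) : ℝ)| = ((n + 1 : ℕ) : ℝ) := by
      rw [show ((2 * n + 1 + 1 : ℕ) : ℝ) - ((n + 1 : ℕ) : ℝ) = ((n + 1 : ℕ) : ℝ) by
        push_cast; ring, abs_of_nonneg h0]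
    rw [e, ih, e1, e2]
    ring

theorem avg_cube (L κ : ℝ) (hκ : 0 < κ) (n : ℕ) (hn : κ * n ≤ L) :
    L ^ 3 - (L - κ * n) ^ 3 ≤ 3 * κ * ∑ j ∈ range n, (L - κ * j) ^ 2 := by
  induction n with
  | zero => simp
  | succ n ih =>
    push_cast at hn
    have ih' := ih (by linarith only [hκ, hn])
    rw [sum_range_succ]
    push_cast
    have ha : κ ≤ L - κ * n := by linarith
    have : (L - κ * n) ^ 3 - (L - κ * (n + 1)) ^ 3 ≤ 3 * κ * (L - κ * n) ^ 2 := by
      have e : L - κ * (n + 1) = (L - κ * n) - κ := by ring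
      rw [e]
      generalize L - κ * n = a at ha
      linarith only [mul_nonneg (mul_pos hκ hκ).le (sub_nonneg.2 ha), mul_pos hκ (mul_pos hκ hκ)]
    linarith

theorem avg (h κ U τ : ℝ) (hκ : 0 < κ) (hU : 0 < U) (hUh : U ≤ h) (T0 : ℕ)
    (hT0 : T0 = ⌊U / (2 * κ)⌋₊) :
    ∃ w ∈ Set.Icc (0 : ℝ) 1, U ^ 3 / (12 * κ * h) - U ^ 2 / (4 * h) ≤
      ∑ t ∈ range (2 * T0 + 1), max (U / 2 - (h * |(w - ((t : ℝ) - T0) * τ) -
        round (w - ((t : ℝ) - T0) * τ)| + κ * |(t : ℝ) - T0|)) 0 := by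
  have hh : 0 < h := lt_of_lt_of_le hU hUh
  have h1 : κ * T0 ≤ U / 2 := by
    have : (T0 : ℝ) ≤ U / (2 * κ) := hT0 ▸ Nat.floor_le (by positivity)
    rw [le_div_iff₀ (by positivity)] at this
    linarith only [this]
  have h2 : U / 2 - κ * T0 ≤ κ := by
    have : U / (2 * κ) < T0 + 1 := hT0 ▸ Nat.lt_floor_add_one _
    rw [div_lt_iff₀ (by positivity)] at this
    linarith only [this]
  set g : ℕ → ℝ → ℝ := fun t w => max ((U / 2 - κ * |(t : ℝ) - T0|) -
    h * |(w - ((t : ℝ) - T0) * τ) - round (w - ((t : ℝ) - T0) * τ)|) 0 with hg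
  have hc : ∀ t, Continuous (g t) := fun t =>
    (avg_cont _ h).comp (continuous_id.sub continuous_const)
  have hF : Continuous fun w => ∑ t ∈ range (2 * T0 + 1), g t w :=
    continuous_finsetSum _ fun t _ => hc t
  obtain ⟨w, hw, hmax⟩ := isCompact_Icc.exists_isMaxOn (Set.nonempty_Icc.2 (zero_le_one' ℝ))
    hF.continuousOn
  refine ⟨w, hw, ?_⟩
  have e : ∑ t ∈ range (2 * T0 + 1), max (U / 2 - (h * |(w - ((t : ℝ) - T0) * τ) -
      round (w - ((t : ℝ) - T0) * τ)| + κ * |(t : ℝ) - T0|)) 0 =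
      ∑ t ∈ range (2 * T0 + 1), g t w := by
    refine sum_congr rfl fun t _ => ?_
    simp only [hg]
    congr 1; ring
  rw [e]
  have i1 : (∫ x in (0 : ℝ)..1, ∑ t ∈ range (2 * T0 + 1), g t x) ≤
      ∑ t ∈ range (2 * T0 + 1), g t w := by
    have := intervalIntegral.integral_mono_on (μ := MeasureTheory.volume) (zero_le_one' ℝ)
      (hF.intervalIntegrable _ _) (continuous_const.intervalIntegrable _ _)
      fun x hx => hmax hx
    simpa only [ge_iff_le, intervalIntegral.integral_const, sub_zero, smul_eq_mul, one_mul] using this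
  rw [intervalIntegral.integral_finsetSum fun t _ => (hc t).intervalIntegrable _ _] at i1
  have i2 : ∑ t ∈ range (2 * T0 + 1), (U / 2 - κ * |(t : ℝ) - T0|) ^ 2 / h ≤
      ∑ t ∈ range (2 * T0 + 1), ∫ x in (0 : ℝ)..1, g t x := by
    refine sum_le_sum fun t ht => avg_int _ h _ hh ?_ ?_
    · have ht' : (t : ℝ) ≤ 2 * T0 := by exact_mod_cast Nat.lt_succ_iff.1 (mem_range.1 ht)
      have : |(t : ℝ) - T0| ≤ T0 := abs_le.2 ⟨by linarith only [], by linarith only [ht']⟩
      nlinarith only [hκ, h1, this]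
    · nlinarith only [abs_nonneg ((t : ℝ) - T0), hκ, hUh]
  rw [avg_sym (fun x => (U / 2 - κ * x) ^ 2 / h) T0, ← sum_div, sum_range_succ] at i2
  have i3 := avg_cube (U / 2) κ hκ T0 h1
  have i4 : (U / 2 - κ * T0) ^ 3 ≤ 3 * κ * (U / 2 - κ * T0) ^ 2 := by
    have h0 : 0 ≤ U / 2 - κ * T0 := by linarith only [h1]
    generalize U / 2 - κ * T0 = a at h0 h2
    nlinarith only [hκ, h2]
  refine le_trans ?_ (i2.trans i1)
  generalize ∑ j ∈ range T0, (U / 2 - κ * (j : ℝ)) ^ 2 = A at i3 ⊢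
  generalize (U / 2 - κ * T0) ^ 2 = B at i4 ⊢
  have i5 : U ^ 3 / (12 * κ) ≤ 2 * (A + B) := by
    rw [div_le_iff₀ (by positivity)]
    linarith only [i3, i4]
  have e3 : U ^ 3 / (12 * κ * h) - U ^ 2 / (4 * h) = (U ^ 3 / (12 * κ) - U ^ 2 / 4) / h := by
    field_simp
  have e4 : 2 * ((A + B) / h) - (U / 2 - κ * 0) ^ 2 / h = (2 * (A + B) - U ^ 2 / 4) / h := by
    field_simp; ring
  rw [e3, e4]
  exact div_le_div_of_nonneg_right (by linarith only [i5]) hh.le

theorem core_pow {K : Type*} [Field K] (ν : AbsoluteValue K ℝ) (ψ : K) (ε : ℝ)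
    (h : ν (ψ - 1) ≤ ε) (hε : ε ≤ 1 / 2) (m : ℕ) : ν (ψ ^ m - 1) ≤ ε * 4 ^ m := by
  have h0 : 0 ≤ ε := (ν.nonneg _).trans h
  have h1 : ν ψ ≤ 2 := by
    have := ν.add_le (ψ - 1) 1
    rw [sub_add_cancel, map_one] at this
    linarith
  induction m with
  | zero => simpa only [pow_zero, sub_self, AbsoluteValue.map_zero, mul_one, ge_iff_le] using h0
  | succ m ih =>
    have e : ψ ^ (m + 1) - 1 = ψ * (ψ ^ m - 1) + (ψ - 1) := by ring
    have h4 : (1 : ℝ) ≤ 4 ^ m := one_le_pow₀ (by norm_num)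
    calc ν (ψ ^ (m + 1) - 1) ≤ ν ψ * ν (ψ ^ m - 1) + ν (ψ - 1) := by
          rw [e, ← map_mul]; exact ν.add_le _ _
      _ ≤ 2 * (ε * 4 ^ m) + ε := by gcongr
      _ ≤ ε * 4 ^ (m + 1) := by
          rw [pow_succ]; linarith only [mul_le_mul_of_nonneg_left h4 h0, h0]

theorem core_inv {K : Type*} [Field K] (ν : AbsoluteValue K ℝ) (ψ : K)
    (h : ν (ψ - 1) ≤ 1 / 2) : ν ψ⁻¹ ≤ 2 := by
  have h1 : 1 / 2 ≤ ν ψ := by
    have := ν.add_le (1 - ψ) ψ
    rw [sub_add_cancel, map_one, ν.map_sub] at this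
    linarith
  rw [map_inv₀, inv_le_comm₀ (by linarith only [h1]) (by norm_num)]
  linarith

theorem core_zpow {K : Type*} [Field K] (ν : AbsoluteValue K ℝ) (ψ : K) (hψ : ψ ≠ 0) (ε : ℝ)
    (h : ν (ψ - 1) ≤ ε) (hε : ε ≤ 1 / 2) (s : ℤ) (n : ℕ) (hs : s.natAbs ≤ n) :
    ν (ψ ^ s - 1) ≤ ε * 8 ^ n := by
  have h0 : 0 ≤ ε := (ν.nonneg _).trans h
  have h8 : (8 : ℝ) ^ s.natAbs ≤ 8 ^ n := pow_le_pow_right₀ (by norm_num) hs
  refine le_trans ?_ (mul_le_mul_of_nonneg_left h8 h0)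
  obtain ⟨m, rfl | rfl⟩ := Int.eq_nat_or_neg s
  · rw [zpow_natCast, Int.natAbs_natCast]
    refine (core_pow ν ψ ε h hε m).trans ?_
    gcongr; norm_num
  · rw [zpow_neg, zpow_natCast, Int.natAbs_neg, Int.natAbs_natCast]
    have e : (ψ ^ m)⁻¹ - 1 = -(ψ⁻¹ ^ m * (ψ ^ m - 1)) := by
      rw [inv_pow]; field_simp; ring
    rw [e, ν.map_neg, map_mul, map_pow]
    calc ν ψ⁻¹ ^ m * ν (ψ ^ m - 1) ≤ 2 ^ m * (ε * 4 ^ m) := by
          gcongr
          · exact core_inv ν ψ (h.trans hε)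
          · exact core_pow ν ψ ε h hε m
      _ = ε * 8 ^ m := by rw [show (8 : ℝ) = 2 * 4 by norm_num, mul_pow]; ring

theorem core_half {u : ℝ} (h : Real.log 2 ≤ u) : Real.exp (-u) ≤ 1 / 2 := by
  calc Real.exp (-u) ≤ Real.exp (-Real.log 2) := by gcongr
    _ = 1 / 2 := by rw [Real.exp_neg, Real.exp_log (by norm_num)]; norm_num

theorem core_place {K : Type*} [Field K] (ν : AbsoluteValue K ℝ) (hν : ∀ n : ℕ, ν n ≤ n)
    (k T T0 : ℕ) (hk : 2 * k ≤ T + 1) (hT0 : T0 ≤ T + 1) (t : Fin k × Bool → ℕ)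
    (ht : ∀ i, t i ≤ T) (s : Fin k × Bool → ℤ) (hs : ∀ i, (s i).natAbs ≤ T + 1) (ψ η Z : K)
    (hψ0 : ψ ≠ 0) (U g y r : ℝ) (hψ : ν (ψ - 1) ≤ Real.exp (-U)) (hη : ν (η - 1) ≤ Real.exp (-g))
    (hU2 : Real.log 2 ≤ U) (hg2 : Real.log 2 ≤ g) (hy : U ≤ y * g) (hZ : ν Z⁻¹ ≤ Real.exp r) :
    ν (mat k t (fun i => η⁻¹ ^ T0 * Z⁻¹ * η ^ t i * ψ ^ s i)).det ≤
      Real.exp (k * (r + 11 * (T + 1)) - U * (k - y / 4)) := by
  have l2 : 0 < Real.log 2 := Real.log_pos (by norm_num)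
  have hg : 0 < g := by linarith only [hg2, l2]
  have hU : 0 < U := by linarith only [hU2, l2]
  have hb := det_bound ν hν k T hk t ht η (η⁻¹ ^ T0 * Z⁻¹) (fun i => ψ ^ s i - 1)
    (Real.exp (-g)) (Real.exp (-U) * 8 ^ (T + 1)) (2 ^ (T + 1) * Real.exp r)
    ((8 ^ (T + 1)) ^ k * Real.exp (-(U * (k - y / 4)))) hη
    ((core_half hg2).trans (by norm_num))
    (fun i => core_zpow ν ψ hψ0 _ hψ (core_half hU2) _ _ (hs i)) ?_ ?_
  · simp only [add_sub_cancel] at hb
    refine hb.trans ?_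
    have e2 : (2 : ℝ) = Real.exp (Real.log 2) := (Real.exp_log (by norm_num)).symm
    have e : (2 ^ (T + 1) * Real.exp r * 2 ^ (8 * (T + 1))) ^ k * ((8 ^ (T + 1)) ^ k *
        Real.exp (-(U * (k - y / 4)))) =
        Real.exp (k * (r + 12 * (T + 1) * Real.log 2) - U * (k - y / 4)) := by
      have e3 : (2 : ℝ) ^ (T + 1) * Real.exp r * 2 ^ (8 * (T + 1)) * 8 ^ (T + 1) =
          Real.exp (r + 12 * (T + 1) * Real.log 2) := by
        rw [Real.exp_add, show (12 * (T + 1) : ℝ) = ((12 * (T + 1) : ℕ) : ℝ) by push_cast; ring,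
          Real.exp_nat_mul, ← e2, show (8 : ℝ) = 2 ^ 3 by norm_num, ← pow_mul]
        ring
      rw [← mul_assoc, ← mul_pow, e3, ← Real.exp_nat_mul, ← Real.exp_add]
      ring_nf
    rw [e]
    have l3 : Real.log 2 < 0.6931471808 := Real.log_two_lt_d9
    have : (12 : ℝ) * (T + 1) * Real.log 2 ≤ 11 * (T + 1) := by
      have : (0 : ℝ) ≤ T + 1 := by positivity
      linarith only [mul_le_mul_of_nonneg_left l3.le this]
    gcongr
  · rw [map_mul, map_pow]
    have h2 : ν η⁻¹ ^ T0 ≤ 2 ^ (T + 1) :=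
      (pow_le_pow_left₀ (ν.nonneg _) (core_inv ν η (hη.trans (core_half hg2))) _).trans
        (pow_le_pow_right₀ (by norm_num) hT0)
    gcongr
  · intro J hJ
    have h8 : ((8 : ℝ) ^ (T + 1)) ^ J ≤ (8 ^ (T + 1)) ^ k :=
      pow_le_pow_right₀ (one_le_pow₀ (by norm_num)) hJ
    have h9 : Real.exp (-U) ^ J * Real.exp (-g) ^ ((k - J) ^ 2) ≤
        Real.exp (-(U * (k - y / 4))) := by
      rw [← Real.exp_nat_mul, ← Real.exp_nat_mul, ← Real.exp_add]
      refine Real.exp_le_exp.2 ?_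
      push_cast [Nat.cast_sub hJ]
      obtain ⟨x, hx⟩ : ∃ x : ℝ, x = k - J := ⟨_, rfl⟩
      have e : (k : ℝ) = x + J := by linarith only [hx]
      rw [← hx, e]
      have h1 : 0 ≤ (2 * g * x - U) ^ 2 := sq_nonneg _
      have h2 : U * U ≤ U * (y * g) := by gcongr
      have h3 : 0 ≤ g * (4 * (x ^ 2 * g) - 4 * (U * x) + U * y) := by linarith only [h1, h2]
      have h4 := nonneg_of_mul_nonneg_right h3 hg
      linarith only [h4]
    calc _ = (8 ^ (T + 1)) ^ J * (Real.exp (-U) ^ J * Real.exp (-g) ^ ((k - J) ^ 2)) := by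
          rw [mul_pow]; ring
      _ ≤ _ := by gcongr

theorem core_num (U y δ h κ τ r S d k T : ℝ) (hδ : 0 < δ) (hδ1 : δ ≤ 1) (hlo : δ * h ≤ U)
    (hhi : U ≤ h) (hτ0 : 0 ≤ τ) (hτ : τ ≤ δ ^ 3 / 120) (hκ1 : 1 ≤ κ) (hS : 0 ≤ S) (hd : 0 ≤ d)
    (hκ : 120 * (11 * S + 4 * d) ≤ δ ^ 2 * κ) (hr : 0 ≤ r) (hh1 : 180 * κ ≤ δ ^ 3 * h)
    (hh2 : 60 * (2 + S) * r ≤ δ ^ 3 * h) (hk0 : 0 ≤ k) (hk : 2 * k ≤ T) (hT : T ≤ U / κ + 1)
    (H : U ^ 3 / (12 * κ * h) - U ^ 2 / (4 * h) - U / 2 ≤ U * y / 4 +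
      k * (2 * (τ * h + κ + r) + S * (r + 11 * (T + 1)) + 4 * d * (T + 1))) :
    (1 - δ) * U ^ 2 / (3 * κ * h) < y := by
  have hδ3 : 0 < δ ^ 3 := by positivity
  have hh : 0 < h := by
    by_contra hc
    have : δ ^ 3 * h ≤ 0 := mul_nonpos_of_nonneg_of_nonpos hδ3.le (not_lt.1 hc)
    linarith only [hκ1, hh1, this]
  have hκ0 : 0 < κ := by linarith only [hκ1]
  have hU : 0 < U := lt_of_lt_of_le (by positivity) hlo
  obtain ⟨q, hq⟩ : ∃ q, q = U / κ := ⟨_, rfl⟩
  obtain ⟨μ, hμ⟩ : ∃ μ, μ = U / h := ⟨_, rfl⟩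
  have eq1 : U = q * κ := by rw [hq]; field_simp
  have eq2 : U = μ * h := by rw [hμ]; field_simp
  have hμ1 : δ ≤ μ := by rw [hμ, le_div_iff₀ hh]; exact hlo
  have hμ2 : μ ≤ 1 := by rw [hμ, div_le_one hh]; exact hhi
  have hμ0 : 0 < μ := by linarith only [hδ, hμ1]
  have hδ2 : δ ^ 3 ≤ δ * μ ^ 2 := by
    rw [pow_succ' δ 2]; gcongr
  have hq0 : 0 < q := by rw [hq]; positivity
  have hq2 : 180 ≤ δ * μ * q := by
    have h1 : 180 * κ ≤ δ * μ ^ 2 * h := hh1.trans (by gcongr)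
    have h2 : δ * μ ^ 2 * h = δ * μ * q * κ := by
      rw [mul_assoc (δ * μ), ← eq1, eq2]; ring
    rw [h2] at h1
    exact le_of_mul_le_mul_right h1 hκ0
  have hq3 : 2 ≤ q := by
    have h1 : δ * μ * q ≤ 1 * 1 * q := by gcongr
    linarith only [hq2, h1]
  have e1 : U ^ 3 / (12 * κ * h) = U * (q * μ / 12) := by rw [hq, hμ]; field_simp
  have e2 : U ^ 2 / (4 * h) = U * (μ / 4) := by rw [hμ]; field_simp
  have e3 : (1 - δ) * U ^ 2 / (3 * κ * h) = (1 - δ) * (q * μ) / 3 := by rw [hq, hμ]; field_simp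
  rw [e1, e2] at H
  rw [e3]
  rw [← hq] at hT
  have hkq : k ≤ q := by linarith only [hk, hT, hq3]
  have hTq : T + 1 ≤ 2 * q := by linarith only [hT, hq3]
  have hT0 : 0 ≤ T + 1 := by linarith only [hk0, hk]
  have a1 : q * (2 * (τ * h)) ≤ U * (δ * (q * μ) / 60) := by
    have : τ ≤ δ * μ ^ 2 / 120 := by linarith only [hτ, hδ2]
    calc q * (2 * (τ * h)) ≤ q * (2 * (δ * μ ^ 2 / 120 * h)) := by gcongr
      _ = _ := by rw [eq2]; ring
  have a2 : q * ((2 + S) * r) ≤ U * (δ * (q * μ) / 60) := by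
    have : (2 + S) * r ≤ δ * μ ^ 2 * h / 60 := by
      linarith only [mul_le_mul_of_nonneg_right hδ2 hh.le, hh2]
    calc q * ((2 + S) * r) ≤ q * (δ * μ ^ 2 * h / 60) := by gcongr
      _ = _ := by rw [eq2]; ring
  have a3 : q * ((11 * S + 4 * d) * (T + 1)) ≤ U * (δ * (q * μ) / 60) := by
    have h1 : 11 * S + 4 * d ≤ δ * μ * κ / 120 := by
      have : δ ^ 2 * κ ≤ δ * μ * κ := by rw [sq]; gcongr
      linarith only [hκ, this]
    calc q * ((11 * S + 4 * d) * (T + 1)) ≤ q * ((δ * μ * κ / 120) * (2 * q)) := by gcongr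
      _ = _ := by rw [eq1]; ring
  have a4 : 3 * U ≤ U * (δ * (q * μ) / 60) := by
    linarith only [mul_le_mul_of_nonneg_left hq2 hU.le]
  have a5 : k * (2 * (τ * h + κ + r) + S * (r + 11 * (T + 1)) + 4 * d * (T + 1)) ≤
      q * (2 * (τ * h + κ + r) + S * (r + 11 * (T + 1)) + 4 * d * (T + 1)) := by
    gcongr
  have a6 : U * (μ / 4) ≤ U / 2 := by linarith only [mul_le_mul_of_nonneg_left hμ2 hU.le, hU]
  have a0 : q * (2 * (τ * h + κ + r) + S * (r + 11 * (T + 1)) + 4 * d * (T + 1)) =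
      q * (2 * (τ * h)) + q * ((2 + S) * r) + q * ((11 * S + 4 * d) * (T + 1)) + 2 * U := by
    rw [eq1]; ring
  have a7 : U * (q * μ / 12) ≤ U * (y / 4 + δ * (q * μ) / 15) := by linarith only [H, eq1, a1, a2, a3, a4, a5, a6]
  have a8 := le_of_mul_le_mul_left a7 hU
  have a9 : 0 < δ * (q * μ) := by positivity
  linarith only [hq2, a8]

theorem core {K : Type*} [Field K] [CharZero K] {I : Type*} (S : Finset I)
    (ν : I → AbsoluteValue K ℝ) (hν : ∀ i ∈ S, ∀ n : ℕ, ν i n ≤ n) (HL : K → ℝ → Prop) (d : ℕ)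
    (hL : ∀ (k T : ℕ) (t : Fin k × Bool → ℕ) (P : Fin k × Bool → K) (x : Fin k × Bool → ℝ),
      2 * k ≤ T + 1 → (∀ i, t i ≤ T) → (∀ i, HL (P i) (x i)) → (mat k t P).det ≠ 0 →
      Real.exp (-(∑ i, x i) - 4 * d * (T + 1) * k) ≤ ∏ i ∈ S, ν i (mat k t P).det)
    (ψ η : K) (hψ0 : ψ ≠ 0) (hη0 : η ≠ 0) (hη1 : η ≠ 1) (U g : I → ℝ) (y δ h κ τ r : ℝ)
    (hψ : ∀ i ∈ S, ν i (ψ - 1) ≤ Real.exp (-U i)) (hη : ∀ i ∈ S, ν i (η - 1) ≤ Real.exp (-g i))
    (hU2 : ∀ i ∈ S, Real.log 2 ≤ U i) (hg2 : ∀ i ∈ S, Real.log 2 ≤ g i)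
    (hy : ∀ i ∈ S, U i ≤ y * g i) (hδ : 0 < δ) (hδ1 : δ ≤ 1) (hlo : δ * h ≤ ∑ i ∈ S, U i)
    (hhi : ∑ i ∈ S, U i ≤ h) (hτ : |τ| ≤ δ ^ 3 / 120) (hκ1 : 1 ≤ κ)
    (hκ : 120 * (11 * S.card + 4 * d) ≤ δ ^ 2 * κ) (hr : 0 ≤ r) (hh1 : 180 * κ ≤ δ ^ 3 * h)
    (hh2 : 60 * (2 + S.card) * r ≤ δ ^ 3 * h)
    (hZ : ∀ w ∈ Set.Icc (0 : ℝ) 1, ∃ Z : K, Z ≠ 0 ∧ (∀ i ∈ S, ν i Z⁻¹ ≤ Real.exp r) ∧
      ∀ s t : ℤ, HL (ψ ^ s * η ^ t / Z) (h * |s + t * τ - w| + κ * |(t : ℝ)| + r)) :
    (1 - δ) * (∑ i ∈ S, U i) ^ 2 / (3 * κ * h) < y := by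
  classical
  obtain ⟨Ut, hUt⟩ : ∃ Ut, Ut = ∑ i ∈ S, U i := ⟨_, rfl⟩
  rw [← hUt] at hlo hhi ⊢
  have hδ3 : 0 < δ ^ 3 := by positivity
  have hh : 0 < h := by
    by_contra hc
    have : δ ^ 3 * h ≤ 0 := mul_nonpos_of_nonneg_of_nonpos hδ3.le (not_lt.1 hc)
    linarith only [hκ1, hh1, this]
  have hκ0 : 0 < κ := by linarith only [hκ1]
  have hU : 0 < Ut := lt_of_lt_of_le (by positivity) hlo
  have hτ1 : |τ| ≤ 1 := by
    have : δ ^ 3 ≤ 1 := pow_le_one₀ hδ.le hδ1
    linarith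
  obtain ⟨T0, hT0⟩ : ∃ T0, T0 = ⌊Ut / (2 * κ)⌋₊ := ⟨_, rfl⟩
  obtain ⟨w, hw, hav⟩ := avg h κ Ut τ hκ0 hU hhi T0 hT0
  obtain ⟨Z, hZ0, hZ1, hZ2⟩ := hZ w hw
  obtain ⟨s, hs⟩ : ∃ s : ℕ → ℤ, s = fun t : ℕ => round (w - ((t : ℝ) - T0) * τ) := ⟨_, rfl⟩
  obtain ⟨c, hc⟩ : ∃ c : ℕ → ℝ, c = fun t : ℕ => h * |(w - ((t : ℝ) - T0) * τ) -
    round (w - ((t : ℝ) - T0) * τ)| + κ * |(t : ℝ) - T0| := ⟨_, rfl⟩
  have hc0 : ∀ t, 0 ≤ c t := fun t => by rw [hc]; positivity
  obtain ⟨E0, hE0⟩ : ∃ E0, E0 = (range (2 * T0 + 1)).filter fun t => c t ≤ Ut / 2 := ⟨_, rfl⟩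
  have hav2 : Ut ^ 3 / (12 * κ * h) - Ut ^ 2 / (4 * h) ≤ ∑ t ∈ E0, (Ut / 2 - c t) := by
    refine hav.trans (le_of_eq ?_)
    rw [hE0, Finset.sum_filter]
    refine Finset.sum_congr rfl fun t _ => ?_
    have : c t = h * |(w - ((t : ℝ) - T0) * τ) - round (w - ((t : ℝ) - T0) * τ)| +
      κ * |(t : ℝ) - T0| := by rw [hc]
    rw [← this]
    split_ifs with h1
    · exact max_eq_left (by linarith only [h1])
    · exact max_eq_right (by linarith only [h1])
  obtain ⟨k, E, hE, hEc, hav3⟩ : ∃ (k : ℕ) (E : Finset ℕ), E ⊆ E0 ∧ E.card = 2 * k ∧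
      ∑ t ∈ E0, (Ut / 2 - c t) - Ut / 2 ≤ ∑ t ∈ E, (Ut / 2 - c t) := by
    obtain ⟨k, hk | hk⟩ := Nat.even_or_odd' E0.card
    · exact ⟨k, E0, subset_rfl, hk, by linarith only [hU]⟩
    · obtain ⟨a, ha⟩ : E0.Nonempty := Finset.card_pos.1 (by omega)
      refine ⟨k, E0.erase a, Finset.erase_subset _ _, by rw [Finset.card_erase_of_mem ha]; omega, ?_⟩
      rw [← Finset.add_sum_erase _ _ ha]
      linarith only [hc0 a]
  have hEr : ∀ t ∈ E, t < 2 * T0 + 1 := fun t ht => by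
    have := hE ht
    rw [hE0] at this
    exact Finset.mem_range.1 (Finset.mem_filter.1 this).1
  have hk : 2 * k ≤ 2 * T0 + 1 := by
    rw [← hEc, ← Finset.card_range (2 * T0 + 1)]
    exact Finset.card_le_card fun t ht => Finset.mem_range.2 (hEr t ht)
  obtain ⟨t0, sh, h1, h2, h3⟩ := rows η hη1 k E hEc
    (fun t => η⁻¹ ^ T0 * Z⁻¹ * η ^ t * ψ ^ s t) (fun t _ => by positivity) c
  have eP : (fun i => η⁻¹ ^ T0 * Z⁻¹ * η ^ t0 i * ψ ^ s (t0 i) * η ^ sh i) =
      fun i => η⁻¹ ^ T0 * Z⁻¹ * η ^ (t0 i + sh i) * ψ ^ s (t0 i) := by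
    funext i; ring
  rw [eP] at h3
  have ht : ∀ i, t0 i + sh i ≤ 2 * T0 + 1 := fun i => by
    have := hEr _ (h1 i).1
    have := (h1 i).2
    omega
  have hsb : ∀ i, (s (t0 i)).natAbs ≤ 2 * T0 + 1 + 1 := fun i => by
    have a1 := abs_sub_round (w - ((t0 i : ℝ) - T0) * τ)
    have a2 : |((t0 i : ℝ) - T0)| ≤ T0 := by
      have : (t0 i : ℝ) ≤ 2 * T0 := by exact_mod_cast Nat.lt_succ_iff.1 (hEr _ (h1 i).1)
      rw [abs_le]; constructor <;> linarith only [this]
    have a3 : |((t0 i : ℝ) - T0) * τ| ≤ T0 := by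
      rw [abs_mul]
      exact (mul_le_of_le_one_right (abs_nonneg _) hτ1).trans a2
    have a4 : |(s (t0 i) : ℝ)| ≤ (2 * T0 + 1 + 1 : ℕ) := by
      rw [hs]; dsimp only
      push_cast
      rw [abs_le] at a1 a3 ⊢
      constructor <;> linarith only [hw.1, hw.2, a1, a3]
    have a5 : |s (t0 i)| ≤ (2 * T0 + 1 + 1 : ℕ) := by exact_mod_cast a4
    rw [Int.abs_eq_natAbs] at a5
    exact_mod_cast a5
  obtain ⟨x, hx⟩ : ∃ x : Fin k × Bool → ℝ, x = fun i => h * |(s (t0 i) : ℝ) +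
    (((t0 i + sh i : ℕ) - T0 : ℤ) : ℝ) * τ - w| + κ * |((((t0 i + sh i : ℕ) - T0 : ℤ)) : ℝ)| + r :=
    ⟨_, rfl⟩
  have hx1 : ∀ i, x i ≤ c (t0 i) + (|τ| * h + κ + r) := fun i => by
    have a1 : (sh i : ℝ) ≤ 1 := by exact_mod_cast (h1 i).2
    have a0 : (0 : ℝ) ≤ sh i := Nat.cast_nonneg _
    rw [hx, hc, hs]; dsimp only
    push_cast
    generalize (round (w - ((t0 i : ℝ) - T0) * τ) : ℝ) = ρ
    have a2 : |ρ + ((t0 i : ℝ) + sh i - T0) * τ - w| ≤ |w - ((t0 i : ℝ) - T0) * τ - ρ| + |τ| := by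
      have e : ρ + ((t0 i : ℝ) + sh i - T0) * τ - w =
          -(w - ((t0 i : ℝ) - T0) * τ - ρ) + sh i * τ := by ring
      rw [e]
      refine (abs_add_le _ _).trans ?_
      rw [abs_neg, abs_mul, abs_of_nonneg a0]
      linarith only [mul_le_of_le_one_left (abs_nonneg τ) a1]
    have a3 : |(t0 i : ℝ) + sh i - T0| ≤ |(t0 i : ℝ) - T0| + 1 := by
      have e : (t0 i : ℝ) + sh i - T0 = ((t0 i : ℝ) - T0) + sh i := by ring
      rw [e]
      refine (abs_add_le _ _).trans ?_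
      rw [abs_of_nonneg a0]
      linarith only [a1]
    linarith only [mul_le_mul_of_nonneg_left a2 hh.le, mul_le_mul_of_nonneg_left a3 hκ0.le]
  have hx2 : ∑ i, x i ≤ ∑ t ∈ E, c t + 2 * k * (|τ| * h + κ + r) := by
    refine (Finset.sum_le_sum fun i _ => hx1 i).trans ?_
    rw [Finset.sum_add_distrib, Finset.sum_const, Finset.card_univ, nsmul_eq_mul]
    have e5 : (Fintype.card (Fin k × Bool) : ℝ) = 2 * k := by simp only [Fintype.card_prod, Fintype.card_fin, Fintype.card_bool, Nat.cast_mul, Nat.cast_ofNat, mul_comm]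
    rw [e5]
    linarith only [h2]
  have hlow := hL k (2 * T0 + 1) _ _ x (by omega) ht (fun i => ?_) h3
  · have hup : ∏ i ∈ S, ν i (mat k (fun i => t0 i + sh i)
        fun i => η⁻¹ ^ T0 * Z⁻¹ * η ^ (t0 i + sh i) * ψ ^ s (t0 i)).det ≤
        ∏ i ∈ S, Real.exp (k * (r + 11 * ((2 * T0 + 1 : ℕ) + 1)) - U i * (k - y / 4)) :=
      Finset.prod_le_prod (fun i _ => (ν i).nonneg _) fun i hi =>
        core_place (ν i) (hν i hi) k (2 * T0 + 1) T0 (by omega) (by omega) _ ht _ hsb ψ η Z hψ0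
          _ _ y r (hψ i hi) (hη i hi) (hU2 i hi) (hg2 i hi) (hy i hi) (hZ1 i hi)
    have h5 := hlow.trans hup
    rw [← Real.exp_sum, Real.exp_le_exp, Finset.sum_sub_distrib, Finset.sum_const, ← Finset.sum_mul,
      ← hUt, nsmul_eq_mul] at h5
    have e6 : ∑ t ∈ E, (Ut / 2 - c t) = k * Ut - ∑ t ∈ E, c t := by
      rw [Finset.sum_sub_distrib, Finset.sum_const, hEc, nsmul_eq_mul]; push_cast; ring
    rw [e6] at hav3
    refine core_num Ut y δ h κ |τ| r S.card d k (2 * T0 + 1 : ℕ) hδ hδ1 hlo hhi (abs_nonneg τ) hτ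
      hκ1 (by positivity) (by positivity) hκ hr hh1 hh2 (by positivity) (by exact_mod_cast hk) ?_ ?_
    · have := Nat.floor_le (show 0 ≤ Ut / (2 * κ) by positivity)
      rw [← hT0] at this
      have e : Ut / κ = 2 * (Ut / (2 * κ)) := by field_simp
      push_cast
      linarith only [this, e]
    · generalize ((2 * T0 + 1 : ℕ) : ℝ) = T at h5 ⊢
      linarith only [hav2, hav3, hx2, h5]
  · have := hZ2 (s (t0 i)) ((t0 i + sh i : ℕ) - T0)
    have e : ψ ^ s (t0 i) * η ^ (((t0 i + sh i : ℕ) : ℤ) - T0) / Z =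
        η⁻¹ ^ T0 * Z⁻¹ * η ^ (t0 i + sh i) * ψ ^ s (t0 i) := by
      rw [zpow_sub₀ hη0, zpow_natCast, zpow_natCast, inv_pow]; field_simp
    rw [e] at this
    rw [hx]
    exact this

end Pool.Agent.MP_2a5a28_nt.H70
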