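import Mathlib

/-! Definitions for the upper bound `log H ≪ rad^(2/9+ε)`. -/

set_option autoImplicit false

namespace Pool.Agent.MP_2a5a28_nt.H70

open Finset UniqueFactorizationMonoid

/-- The interpolation matrix: row `i`, columns `(j,false)` = `C(t i, j)`, `(j,true)` = `C(t i, j) P i`. -/
def mat {K : Type*} [CommRing K] (k : ℕ) (t : Fin k × Bool → ℕ) (P : Fin k × Bool → K) :
    Matrix (Fin k × Bool) (Fin k × Bool) K :=
  fun i c => ((t i).choose c.1 : K) * (if c.2 then P i else 1)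

/-- A principal ideal domain with real embeddings and one fundamental unit. -/
structure Dat (O : Type*) [CommRing O] (V : Type*) [Fintype V] where
  σ : V → O →+* ℝ
  c : ℝ
  φ : Oˣ
  one_le_c : 1 ≤ c
  pos_card : 0 < Fintype.card V
  one_le_norm : ∀ a, a ≠ 0 → 1 ≤ ∏ w, |σ w a|
  two_le_norm : ∀ p, Prime p → 2 ≤ ∏ w, |σ w p|
  card_quot : ∀ m, m ≠ 0 → (Nat.card (O ⧸ Ideal.span {m}) : ℝ) = ∏ w, |σ w m|
  unit_gen : ∀ u : Oˣ, ∃ k : ℤ, u = φ ^ k ∨ u = -φ ^ k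
  φ_le : ∑ w, |Real.log (σ w φ)| ≤ 1
  bal : ∀ a, a ≠ 0 → ∃ u : Oˣ, ∑ w, |Real.log (σ w (u * a))| ≤ Real.log (∏ w, |σ w a|) + 1
  few : ∀ y : ℝ, ∃ M : ℕ, ∀ S : Finset O, (∀ a ∈ S, ∀ w, |σ w a| ≤ y) → S.card ≤ M
  many : ∀ T : ℝ, 1 ≤ T → ∃ S : Finset O, ∃ B : ℝ, 0 ≤ B ∧ B ^ Fintype.card V ≤ T ∧
    T ≤ c * S.card ∧ ∀ u ∈ S, u ≠ 0 ∧ ∀ w, |σ w u| ≤ B

variable {O : Type*} [CommRing O] {V : Type*} [Fintype V]

/-- The norm. -/
noncomputable def Dat.N (D : Dat O V) (a : O) : ℝ := ∏ w, |D.σ w a|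

/-- Height of the pair `(n : d)`. -/
noncomputable def Dat.Hm (D : Dat O V) (n d : O) : ℝ := ∏ w, max |D.σ w n| |D.σ w d|

/-- Height of a triple. -/
noncomputable def Dat.ht (D : Dat O V) (a b c : O) : ℝ :=
  ∏ w, max (max |D.σ w a| |D.σ w b|) |D.σ w c|

/-- `q` is a quotient of height at most `exp x`. -/
def Dat.HL (D : Dat O V) (K : Type*) [Field K] [Algebra O K] (q : K) (x : ℝ) : Prop :=
  ∃ n d : O, d ≠ 0 ∧ q = algebraMap O K n / algebraMap O K d ∧ D.Hm n d ≤ Real.exp x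

/-- Liouville's inequality for the family `ν i`, `i ∈ S`. -/
def Dat.Liou (D : Dat O V) (K : Type*) [Field K] [Algebra O K] {I : Type*} (S : Finset I)
    (ν : I → AbsoluteValue K ℝ) : Prop :=
  ∀ (n d : O) (M : V → ℝ), n ≠ 0 → d ≠ 0 → (∀ w, |D.σ w n| ≤ M w ∧ |D.σ w d| ≤ M w) →
    (∏ w, M w)⁻¹ ≤ ∏ i ∈ S, ν i (algebraMap O K n / algebraMap O K d)

/-- The logarithmic height of `α^μ`, extended to real exponent vectors. -/
noncomputable def Dat.F (D : Dat O V) {n : ℕ} (α : Fin n → O) (μ : Fin n → ℝ) : ℝ :=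
  ∑ j, max (-μ j) 0 * Real.log (D.N (α j)) + ∑ w, max (∑ j, μ j * Real.log (D.σ w (α j))) 0

/-- The power product `α^μ` in the fraction field. -/
noncomputable def pw (K : Type*) [Field K] [Algebra O K] {n : ℕ} (α : Fin n → O) (μ : Fin n → ℤ) :
    K := ∏ j, algebraMap O K (α j) ^ μ j

/-- The lattice point next to `x • b`. -/
noncomputable def fl {n : ℕ} (b : Fin n → ℤ) (x : ℝ) : Fin n → ℤ := fun j => ⌊x * (b j : ℝ)⌋

/-- Generators `α` (pairwise coprime, with size bounds `A`) and exponents `b` of `ψ`. -/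
structure Dat.Gen (D : Dat O V) (K : Type*) [Field K] [Algebra O K] {n : ℕ} (α : Fin n → O)
    (A : Fin n → ℝ) (b : Fin n → ℤ) (ψ : K) (h : ℝ) : Prop where
  ne : ∀ j, α j ≠ 0
  cop : Pairwise fun i j => IsCoprime (α i) (α j)
  one_le : ∀ j, 1 ≤ A j
  sz : ∀ j, ∑ w, |Real.log (D.σ w (α j))| ≤ A j
  eq : ψ = pw K α b ∨ ψ = -pw K α b
  up : D.F α (fun j => (b j : ℝ)) ≤ h
  lo : h / 2 ≤ D.F α (fun j => (b j : ℝ))

/-- Product of the norms of the primes dividing `a`. -/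
noncomputable def Dat.rad [IsDomain O] [IsPrincipalIdealRing O] [NormalizationMonoid O]
    [DecidableEq O] (D : Dat O V) (a : O) : ℝ := ∏ p ∈ primeFactors a, D.N p

end Pool.Agent.MP_2a5a28_nt.H70
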