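import Pool.Agent.MP_2a5a28_nt.H70.Main
import Pool.Agent.MP_2a5a28_nt.H37.Defs

attribute [-instance] AddQuantale.instAddLeftMono SemilinearMapClass.toAddHomClass
  DistribMulActionSemiHomClass.toAddMonoidHomClass RKHS.instFunLike
  IsArtinianRing.instDecompositionMonoid QuadraticAlgebra.instField AddQuantale.instAddRightMono
  IsDedekindDomain.isPrincipalIdealRing NonUnitalAlgSemiHomClass.toMulHomClass
  DivisionRing.isSimpleRing AlgHomClass.toRingHomClass NonUnitalAlgHomClass.toNonUnitalRingHomClass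
  NumberField.to_charZero Quantale.instMulRightMono MonTypeEquivalenceMon.monMonoid
  TestFunctionClass.toDFunLike ContDiffMapSupportedInClass.toDFunLike instIsFractionRing
  NeZero.of_gt' instCoeTCOfCoe instIsPrincipalIdealRingOfIsSemisimpleRing NormedAlgebra.toAlgebra
  CommGroupWithZero.toCommMonoidWithZero instCoeTOfCoeDep GroupConeClass.toSubmonoidClass
  Invertible.toNeZero CompletePartialOrder.toPartialOrder BialgHomClass.toMonoidHomClass
  IsStrictOrderedRing.noZeroDivisors IdemSemiring.toCanonicallyOrderedAdd instCoeOutOfCoeFun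
  Group.IsPerfect.subsingleton_of_isMulCommutative SetLike.GradeZero.instMonoid
  MulSemiringActionSemiHomClass.toRingHomClass
  ContinuousMonoidHom.instCoeOutOfMonoidHomClassOfContinuousMapClass IdemSemiring.toSemiring
  CommMonTypeEquivalenceCommMon.commMonCommMonoid CommGroupWithZero.instStrongNormalizedGCDMonoid
  AddMonoid.FG.to_moduleFinite_int littleWedderburn ValuationClass.toMonoidWithZeroHomClass
  instCoeOutOfCoeSort

/-! The rings of integers of the rationals and of the golden field. -/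

set_option autoImplicit false
set_option linter.unusedSectionVars false

namespace Pool.Agent.MP_2a5a28_nt.H70

open Finset UniqueFactorizationMonoid

noncomputable def int_D : Dat ℤ Unit where
  σ _ := Int.castRingHom ℝ
  c := 2
  φ := 1
  one_le_c := by norm_num
  pos_card := by simp
  one_le_norm a ha := by
    simp only [Finset.univ_unique, Finset.prod_singleton, eq_intCast]
    exact_mod_cast Int.one_le_abs ha
  two_le_norm p hp := by
    simp only [Finset.univ_unique, Finset.prod_singleton, eq_intCast]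
    have h2 := (Int.prime_iff_natAbs_prime.1 hp).two_le
    have h3 : (2 : ℤ) ≤ |p| := by rw [Int.abs_eq_natAbs]; omega
    exact_mod_cast h3
  card_quot m _ := by
    rw [Nat.card_congr (Int.quotientSpanEquivZMod m).toEquiv, Nat.card_zmod]
    simp only [Finset.univ_unique, Finset.prod_singleton, eq_intCast, Nat.cast_natAbs,
      Int.cast_abs]
  unit_gen u := ⟨0, by rw [zpow_zero]; exact Int.units_eq_one_or u⟩
  φ_le := by simp only [univ_unique, PUnit.default_eq_unit, Units.val_one, eq_intCast, Int.cast_one, Real.log_one, abs_zero, sum_const_zero, zero_le_one]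
  bal a ha := ⟨1, by
    simp only [Finset.univ_unique, Finset.prod_singleton, Finset.sum_singleton, eq_intCast,
      Units.val_one, one_mul, Real.log_abs]
    have h : (1 : ℝ) ≤ |(a : ℝ)| := by exact_mod_cast Int.one_le_abs ha
    have h' := Real.log_nonneg h
    rw [Real.log_abs] at h'
    rw [abs_of_nonneg h']
    linarith⟩
  few y := ⟨(Finset.Icc (-⌈y⌉) ⌈y⌉).card, fun S h => Finset.card_le_card fun a ha => by
    have h1 : |(a : ℝ)| ≤ ⌈y⌉ := (h a ha ()).trans (Int.le_ceil y)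
    exact Finset.mem_Icc.2 (abs_le.1 (by exact_mod_cast h1))⟩
  many T hT := by
    have h0 : 0 ≤ T := by linarith
    have h1 : 1 ≤ ⌊T⌋₊ := Nat.le_floor (by exact_mod_cast hT)
    refine ⟨Finset.Icc 1 (⌊T⌋₊ : ℤ), T, h0, by simp, ?_, fun u hu => ?_⟩
    · have h2 : (1 : ℝ) ≤ ⌊T⌋₊ := by exact_mod_cast h1
      have h3 := Nat.lt_floor_add_one T
      rw [Int.card_Icc, add_sub_cancel_right, Int.toNat_natCast]
      linarith only [h2, h3]
    · obtain ⟨h2, h3⟩ := Finset.mem_Icc.1 hu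
      refine ⟨by omega, fun _ => ?_⟩
      have h4 : (u : ℝ) ≤ ⌊T⌋₊ := by exact_mod_cast h3
      have h5 : (0 : ℝ) ≤ u := by exact_mod_cast zero_le_one.trans h2
      rw [eq_intCast, abs_of_nonneg h5]
      exact h4.trans (Nat.floor_le h0)

theorem int_rad (n : ℕ) (hn : n ≠ 0) :
    int_D.rad (-(n : ℤ)) = ((∏ p ∈ n.primeFactors, p : ℕ) : ℝ) := by
  have : primeFactors (-(n : ℤ)) = n.primeFactors.image (fun p : ℕ => (p : ℤ)) := by
    ext p
    rw [mem_primeFactors, mem_normalizedFactors_iff' (neg_ne_zero.2 (by exact_mod_cast hn)),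
      Finset.mem_image, dvd_neg]
    constructor
    · rintro ⟨h1, h2, h3⟩
      have h4 : 0 ≤ p := by rw [← h2, ← Int.abs_eq_normalize]; exact abs_nonneg p
      lift p to ℕ using h4
      exact ⟨p, Nat.mem_primeFactors.2 ⟨Nat.prime_iff_prime_int.2 h1.prime,
        by exact_mod_cast h3, hn⟩, rfl⟩
    · rintro ⟨q, hq, rfl⟩
      obtain ⟨h1, h2, -⟩ := Nat.mem_primeFactors.1 hq
      exact ⟨(Nat.prime_iff_prime_int.1 h1).irreducible, Int.normalize_coe_nat q,
        by exact_mod_cast h2⟩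
  rw [Dat.rad, this, Finset.prod_image fun _ _ _ _ h => by exact_mod_cast h]
  push_cast
  exact Finset.prod_congr rfl fun p _ => by simp [Dat.N, int_D]

theorem rational (ε : ℝ) (hε : 0 < ε) : ∃ C : ℝ, ∀ a b c : ℕ, 0 < a → 0 < b → a + b = c →
    Nat.Coprime a b →
    Real.log c ≤ C * ((∏ p ∈ (a * b * c).primeFactors, p : ℕ) : ℝ) ^ (2 / 9 + ε) := by
  obtain ⟨C, hC⟩ := int_D.main ℚ ε hε
  refine ⟨C, fun a b c ha hb hs hco => ?_⟩
  subst hs
  have hn : a * b * (a + b) ≠ 0 := by positivity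
  have e : (a : ℤ) * b * -((a + b : ℕ) : ℤ) = -((a * b * (a + b) : ℕ) : ℤ) := by
    push_cast; ring
  have hht : int_D.ht a b (-((a + b : ℕ) : ℤ)) = (a + b : ℕ) := by
    have h1 : (0 : ℝ) ≤ a := Nat.cast_nonneg _
    have h2 : (0 : ℝ) ≤ b := Nat.cast_nonneg _
    simp only [Dat.ht, int_D, Finset.univ_unique, Finset.prod_singleton, eq_intCast, Int.cast_neg,
      Int.cast_natCast, abs_neg, Nat.abs_cast]
    push_cast
    exact max_eq_right (max_le (by linarith only []) (by linarith only []))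
  have h := hC a b (-((a + b : ℕ) : ℤ)) (by push_cast; ring) (Nat.isCoprime_iff_coprime.2 hco)
    (by rw [e, neg_ne_zero]; exact_mod_cast hn)
  rwa [hht, e, int_rad _ hn] at h

namespace Gold

open Real

/-- The abstract ring `ℤ[ω]`, `ω² = 1 + ω`. -/
abbrev GQ : Type := QuadraticAlgebra ℤ 1 1

/-- The real embedding sending `ω` to `r`. -/
noncomputable def gemb (r : ℝ) (h : r ^ 2 = r + 1) : GQ →+* ℝ where
  toFun z := z.re + z.im * r
  map_one' := by simp [QuadraticAlgebra.re_one, QuadraticAlgebra.im_one]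
  map_mul' z w := by
    simp only [QuadraticAlgebra.re_mul, QuadraticAlgebra.im_mul]
    push_cast
    linear_combination (-(z.im : ℝ) * w.im) * h
  map_zero' := by simp
  map_add' z w := by
    simp only [QuadraticAlgebra.re_add, QuadraticAlgebra.im_add]
    push_cast
    ring

/-- The two embeddings. -/
noncomputable def gσ : Fin 2 → GQ →+* ℝ :=
  ![gemb goldenRatio goldenRatio_sq, gemb goldenConj goldenConj_sq]

theorem gσ_zero (z : GQ) : gσ 0 z = z.re + z.im * goldenRatio := rfl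

theorem gσ_one (z : GQ) : gσ 1 z = z.re + z.im * goldenConj := rfl

theorem coords_eq {x y x' y' : ℤ}
    (h : (x : ℝ) + y * goldenRatio = x' + y' * goldenRatio) : x = x' ∧ y = y' := by
  by_cases hy : y = y'
  · subst hy
    exact ⟨by exact_mod_cast add_right_cancel h, rfl⟩
  · exfalso
    have h1 : ((y - y' : ℤ) : ℝ) * goldenRatio = (x' - x : ℤ) := by push_cast; linarith
    exact (goldenRatio_irrational.intCast_mul (sub_ne_zero.2 hy)).ne_int _ h1

theorem gσ_inj : Function.Injective (gσ 0) := fun z w h => by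
  obtain ⟨h1, h2⟩ := coords_eq (show (z.re : ℝ) + z.im * goldenRatio = w.re + w.im * goldenRatio from h)
  exact QuadraticAlgebra.ext h1 h2

theorem gdomain : IsDomain GQ := gσ_inj.isDomain

theorem gnorm (z : GQ) : gσ 0 z * gσ 1 z = (z.norm : ℤ) := by
  rw [gσ_zero, gσ_one, QuadraticAlgebra.norm_def]
  push_cast
  linear_combination ((z.re : ℝ) * z.im) * goldenRatio_add_goldenConj +
    ((z.im : ℝ) * z.im) * goldenRatio_mul_goldenConj

theorem gnorm_ne {z : GQ} (hz : z ≠ 0) : z.norm ≠ 0 := by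
  have := gdomain
  intro h
  have h1 := QuadraticAlgebra.algebraMap_norm_eq_mul_star z
  rw [h, map_zero] at h1
  exact mul_ne_zero hz (star_ne_zero.2 hz) h1.symm

theorem exists_int_div (w n : ℤ) (hn : n ≠ 0) : ∃ q : ℤ, 2 * |w - q * n| ≤ |n| := by
  have hn' : (n : ℚ) ≠ 0 := by exact_mod_cast hn
  refine ⟨round ((w : ℚ) / n), ?_⟩
  have h1 := abs_sub_round ((w : ℚ) / n)
  have h2 : (w : ℚ) - round ((w : ℚ) / n) * n = ((w : ℚ) / n - round ((w : ℚ) / n)) * n := by
    field_simp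
  have h3 : 2 * |(w : ℚ) - round ((w : ℚ) / n) * n| ≤ |(n : ℚ)| := by
    rw [h2, abs_mul]
    nlinarith only [abs_nonneg (n : ℚ), h1]
  exact_mod_cast h3

theorem gdiv (a b : GQ) (hb : b ≠ 0) : ∃ q : GQ, |(a - q * b).norm| < |b.norm| := by
  have hn := gnorm_ne hb
  obtain ⟨q₁, h₁⟩ := exists_int_div (a * star b).re b.norm hn
  obtain ⟨q₂, h₂⟩ := exists_int_div (a * star b).im b.norm hn
  refine ⟨⟨q₁, q₂⟩, ?_⟩
  obtain ⟨s, hs⟩ : ∃ s, s = (a * star b).re - q₁ * b.norm := ⟨_, rfl⟩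
  obtain ⟨t, ht⟩ : ∃ t, t = (a * star b).im - q₂ * b.norm := ⟨_, rfl⟩
  have e : (a - ⟨q₁, q₂⟩ * b).norm * b.norm = s * s + s * t - t * t := by
    rw [hs, ht]
    simp only [QuadraticAlgebra.norm_def, QuadraticAlgebra.re_mul, QuadraticAlgebra.im_mul,
      QuadraticAlgebra.re_sub, QuadraticAlgebra.im_sub, QuadraticAlgebra.re_star,
      QuadraticAlgebra.im_star]
    ring
  rw [← hs] at h₁
  rw [← ht] at h₂
  have h0 : 0 < |b.norm| := abs_pos.2 hn
  have h3 : |s * s + s * t - t * t| ≤ |s| * |s| + |s| * |t| + |t| * |t| := by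
    simp only [← abs_mul]
    exact (abs_sub _ _).trans (add_le_add_left (abs_add_le _ _) _)
  have h4 : |(a - ⟨q₁, q₂⟩ * b).norm| * |b.norm| < |b.norm| * |b.norm| := by
    rw [← abs_mul, e]
    have := abs_nonneg s
    have := abs_nonneg t
    nlinarith
  exact lt_of_mul_lt_mul_right h4 h0.le

theorem gpid : IsPrincipalIdealRing GQ := by
  classical
  refine ⟨fun I => ?_⟩
  by_cases hI : I = ⊥
  · rw [hI]; exact bot_isPrincipal
  have hex : ∃ n : ℕ, ∃ b ∈ I, b ≠ 0 ∧ b.norm.natAbs = n := by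
    obtain ⟨b, hb, hb0⟩ := Submodule.exists_mem_ne_zero_of_ne_bot hI
    exact ⟨_, b, hb, hb0, rfl⟩
  obtain ⟨b, hb, hb0, hbn⟩ := Nat.find_spec hex
  refine ⟨b, le_antisymm (fun a ha => ?_) ((Ideal.span_singleton_le_iff_mem _).2 hb)⟩
  obtain ⟨q, hq⟩ := gdiv a b hb0
  have : a - q * b = 0 := by
    by_contra h0
    have := Nat.find_min' hex ⟨a - q * b, I.sub_mem ha (I.mul_mem_left q hb), h0, rfl⟩
    rw [← hbn] at this
    rw [Int.abs_eq_natAbs, Int.abs_eq_natAbs] at hq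
    omega
  exact Ideal.mem_span_singleton'.2 ⟨q, (sub_eq_zero.1 this).symm⟩

theorem gprod (z : GQ) : ∏ ν, |gσ ν z| = |((z.norm : ℤ) : ℝ)| := by
  rw [Fin.prod_univ_two, ← abs_mul, gnorm]

/-- The fundamental unit. -/
def gunit : GQˣ := ⟨⟨0, 1⟩, ⟨-1, 1⟩, by ext <;> simp [QuadraticAlgebra.re_one, QuadraticAlgebra.im_one],
  by ext <;> simp [QuadraticAlgebra.re_one, QuadraticAlgebra.im_one]⟩

theorem gσ_unit (ν : Fin 2) (k : ℤ) : gσ ν ((gunit ^ k : GQˣ) : GQ) = gσ ν (gunit : GQ) ^ k := by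
  have := congrArg Units.val (map_zpow (Units.map (gσ ν).toMonoidHom) gunit k)
  rw [Units.val_zpow_eq_zpow_val] at this
  exact this

theorem gabs0 (k : ℤ) : |gσ 0 ((gunit ^ k : GQˣ) : GQ)| = goldenRatio ^ k := by
  rw [gσ_unit, abs_zpow, gσ_zero]; simp [gunit, abs_of_pos goldenRatio_pos]

theorem gone_le {a : GQ} (ha : a ≠ 0) : 1 ≤ |gσ 0 a| * |gσ 1 a| := by
  rw [← abs_mul, gnorm]
  exact_mod_cast Int.one_le_abs (gnorm_ne ha)

theorem gnormal {a : GQ} (ha : a ≠ 0) : ∃ k : ℤ, 1 ≤ |gσ 0 ((gunit ^ k : GQˣ) * a)| ∧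
    |gσ 0 ((gunit ^ k : GQˣ) * a)| < goldenRatio := by
  have hA : 0 < |gσ 0 a| := by
    have := gone_le ha
    rcases (abs_nonneg (gσ 0 a)).eq_or_lt with h | h
    · rw [← h] at this; norm_num at this
    · exact h
  obtain ⟨k, h1, h2⟩ := exists_mem_Ico_zpow hA one_lt_goldenRatio
  have hp : 0 < goldenRatio ^ k := zpow_pos goldenRatio_pos k
  refine ⟨-k, ?_⟩
  rw [zpow_add₀ goldenRatio_ne_zero, zpow_one] at h2
  rw [map_mul, abs_mul, gabs0, zpow_neg, le_inv_mul_iff₀ hp, inv_mul_lt_iff₀ hp, mul_one]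
  exact ⟨h1, h2⟩

theorem gNunit (u : GQˣ) : |gσ 0 u| * |gσ 1 u| = 1 := by
  have h1 := gone_le u.ne_zero
  have h2 := gone_le u⁻¹.ne_zero
  have h3 : |gσ 0 u| * |gσ 1 u| * (|gσ 0 (u⁻¹ : GQˣ)| * |gσ 1 (u⁻¹ : GQˣ)|) = 1 := by
    rw [mul_mul_mul_comm, ← abs_mul, ← abs_mul, ← map_mul, ← map_mul, u.mul_inv]; simp
  nlinarith only [h1, h2, h3]

theorem gunit_gen (u : GQˣ) : ∃ k : ℤ, u = gunit ^ k ∨ u = -gunit ^ k := by
  obtain ⟨k, h1, h2⟩ := gnormal u.ne_zero
  have h3 := gNunit (gunit ^ k * u)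
  rw [Units.val_mul] at h3
  have h4 : |gσ 1 ((gunit ^ k : GQˣ) * u)| ≤ 1 := by
    nlinarith only [h1, h3]
  have key : ((gunit ^ k : GQˣ) : GQ) * u = 1 ∨ ((gunit ^ k : GQˣ) : GQ) * u = -1 := by
    generalize ((gunit ^ k : GQˣ) : GQ) * u = v at h1 h2 h4
    obtain ⟨x, y⟩ := v
    rw [gσ_zero] at h1 h2
    rw [gσ_one] at h4
    simp only at h1 h2 h4
    have hφ := goldenRatio_pos
    have hψ := goldenConj_neg
    obtain ⟨a1, a2⟩ := abs_lt.1 h2
    obtain ⟨b1, b2⟩ := abs_le.1 h4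
    rcases lt_trichotomy y 0 with hy | rfl | hy
    · exfalso
      have y1 : (y : ℝ) ≤ -1 := by exact_mod_cast (by omega : y ≤ -1)
      have x1 : (x : ℝ) < 1 := by nlinarith only [hψ, b2, y1]
      have x2 : (x : ℝ) ≤ 0 := by exact_mod_cast (by have : x < 1 := (by exact_mod_cast x1); omega : x ≤ 0)
      nlinarith only [h1, h2, a1, y1, x2]
    · simp only [Int.cast_zero, zero_mul, add_zero] at h1 h4
      have : |x| = 1 := by exact_mod_cast le_antisymm h4 h1
      rcases abs_eq (by norm_num : (0 : ℤ) ≤ 1) |>.1 this with rfl | rfl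
      · left; rfl
      · right; rfl
    · exfalso
      have y1 : (1 : ℝ) ≤ y := by exact_mod_cast (by omega : 1 ≤ y)
      have x1 : (-1 : ℝ) < x := by nlinarith only [hψ, b1, y1]
      have x2 : (0 : ℝ) ≤ x := by exact_mod_cast (by have : -1 < x := (by exact_mod_cast x1); omega : 0 ≤ x)
      nlinarith only [h1, h2, a2, y1, x2]
  refine ⟨-k, key.imp (fun h => ?_) fun h => ?_⟩
  · rw [zpow_neg, eq_inv_iff_mul_eq_one, mul_comm]
    exact Units.ext h
  · rw [zpow_neg, ← neg_eq_iff_eq_neg, eq_inv_iff_mul_eq_one, mul_comm, mul_neg, neg_eq_iff_eq_neg]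
    exact Units.ext h

theorem glog : 2 * Real.log goldenRatio ≤ 1 := by
  have h5 : √5 ≤ (2.3 : ℝ) := Real.sqrt_le_iff.2 ⟨by norm_num, by norm_num⟩
  have h1 : goldenRatio ^ 2 ≤ Real.exp 1 := by
    rw [goldenRatio_sq, goldenRatio]
    linarith [Real.exp_one_gt_d9]
  have h2 := Real.log_le_log (pow_pos goldenRatio_pos 2) h1
  rw [Real.log_exp, Real.log_pow] at h2
  exact_mod_cast h2

theorem glogs {a : GQ} (ha : a ≠ 0) (h1 : 1 ≤ |gσ 0 a|) (h2 : |gσ 0 a| ≤ goldenRatio) :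
    ∑ w, |Real.log (gσ w a)| ≤ Real.log (|gσ 0 a| * |gσ 1 a|) + 1 := by
  have h3 := gone_le ha
  have h4 : |gσ 1 a| ≠ 0 := fun h => by rw [h] at h3; norm_num at h3
  have h5 := Real.log_nonneg h3
  have h6 := Real.log_nonneg h1
  have h7 := Real.log_le_log (by linarith) h2
  have h8 := glog
  rw [Real.log_mul (by linarith) h4, Real.log_abs, Real.log_abs] at h5 ⊢
  rw [Real.log_abs] at h6 h7
  rw [Fin.sum_univ_two, abs_of_nonneg h6]
  have : |Real.log (gσ 1 a)| ≤ Real.log (gσ 1 a) + 1 := abs_le.2 ⟨by linarith, by linarith⟩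
  linarith

theorem gfew (s : ℝ) : ∃ M : ℕ, ∀ S : Finset GQ, (∀ a ∈ S, ∀ w, |gσ w a| ≤ s) → S.card ≤ M := by
  have h5 : (2 : ℝ) ≤ √5 := Real.le_sqrt_of_sq_le (by norm_num)
  refine ⟨(Finset.Icc (-⌈3 * s⌉) ⌈3 * s⌉ ×ˢ Finset.Icc (-⌈3 * s⌉) ⌈3 * s⌉).card, fun S h =>
    Finset.card_le_card_of_injOn (fun z => (z.re, z.im)) (fun z hz => ?_) fun z _ w _ e =>
      QuadraticAlgebra.ext (congrArg Prod.fst e) (congrArg Prod.snd e)⟩
  have k0 := h z hz 0
  have k1 := h z hz 1
  have e : gσ 0 z - gσ 1 z = z.im * √5 := by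
    rw [gσ_zero, gσ_one, ← goldenRatio_sub_goldenConj]; ring
  have k2 : |(z.im : ℝ)| ≤ s := by
    have : |gσ 0 z - gσ 1 z| ≤ s + s := (abs_sub _ _).trans (add_le_add k0 k1)
    rw [e, abs_mul, abs_of_pos (by linarith : (0 : ℝ) < √5)] at this
    nlinarith only [abs_nonneg (z.im : ℝ), h5, this]
  have k3 : |(z.re : ℝ)| ≤ 3 * s := by
    have e2 : (z.re : ℝ) = gσ 0 z - z.im * goldenRatio := by rw [gσ_zero]; ring
    rw [e2]
    refine (abs_sub _ _).trans ?_
    rw [abs_mul, abs_of_pos goldenRatio_pos]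
    nlinarith only [abs_nonneg (z.im : ℝ), goldenRatio_lt_two, k0, k2]
  have k4 : ∀ x : ℤ, |(x : ℝ)| ≤ 3 * s → x ∈ Finset.Icc (-⌈3 * s⌉) ⌈3 * s⌉ := fun x hx => by
    have : |x| ≤ ⌈3 * s⌉ := by exact_mod_cast hx.trans (Int.le_ceil _)
    exact Finset.mem_Icc.2 (abs_le.1 this)
  exact Finset.mem_coe.2 (Finset.mem_product.2
    ⟨k4 _ k3, k4 _ (by linarith [abs_nonneg (z.im : ℝ)])⟩)

theorem gmany (T : ℝ) (hT : 1 ≤ T) : ∃ S : Finset GQ, ∃ B : ℝ, 0 ≤ B ∧
    B ^ Fintype.card (Fin 2) ≤ T ∧ T ≤ 16 * S.card ∧ ∀ u ∈ S, u ≠ 0 ∧ ∀ w, |gσ w u| ≤ B := by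
  classical
  obtain ⟨s, hs, rfl⟩ : ∃ s : ℝ, 1 ≤ s ∧ T = s ^ 2 :=
    ⟨√T, Real.one_le_sqrt.2 hT, (Real.sq_sqrt (by linarith)).symm⟩
  obtain ⟨m, h1, h2⟩ : ∃ m : ℕ, (m : ℝ) ≤ (s - 1) / 3 ∧ (s - 1) / 3 < m + 1 :=
    ⟨_, Nat.floor_le (by linarith), Nat.lt_floor_add_one _⟩
  have hm : (0 : ℝ) ≤ m := Nat.cast_nonneg m
  refine ⟨(range (m + 1) ×ˢ range (m + 1)).image fun z => ⟨z.1 + 1, z.2⟩, s, by linarith only [hs],
    by simp, ?_, fun u hu => ?_⟩
  · rw [Finset.card_image_of_injective _ fun z w e => Prod.ext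
      (by simpa using congrArg QuadraticAlgebra.re e) (by simpa using congrArg QuadraticAlgebra.im e),
      Finset.card_product, Finset.card_range]
    push_cast
    nlinarith only [hs, h2]
  · obtain ⟨⟨x, y⟩, hz, rfl⟩ := Finset.mem_image.1 hu
    simp only [Finset.mem_product, Finset.mem_range, Nat.lt_succ_iff] at hz
    have hx : (x : ℝ) ≤ m := by exact_mod_cast hz.1
    have hy : (y : ℝ) ≤ m := by exact_mod_cast hz.2
    have hx0 : (0 : ℝ) ≤ x := Nat.cast_nonneg x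
    have hy0 : (0 : ℝ) ≤ y := Nat.cast_nonneg y
    refine ⟨fun e => ?_, Fin.forall_fin_two.2 ⟨?_, ?_⟩⟩
    · have := congrArg QuadraticAlgebra.re e
      simp only [QuadraticAlgebra.re_zero] at this
      omega
    · rw [gσ_zero]
      push_cast
      refine abs_le.2 ⟨?_, ?_⟩ <;> nlinarith only [goldenRatio_lt_two, goldenRatio_pos, hs, h1, hx, hy]
    · rw [gσ_one]
      push_cast
      refine abs_le.2 ⟨?_, ?_⟩ <;> nlinarith only [neg_one_lt_goldenConj, goldenConj_neg, h1, hy, hx]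

theorem gcard (p : GQ) : (Nat.card (GQ ⧸ Ideal.span {p}) : ℝ) = ∏ w, |gσ w p| := by
  have := gdomain
  have := gpid
  have h := Ideal.absNorm_span_singleton p
  rw [Ideal.absNorm_apply, Submodule.cardQuot_apply] at h
  have h2 : Algebra.norm ℤ p = p.norm := by
    rw [Algebra.norm_apply, ← QuadraticAlgebra.det_toLinearMap_eq_norm]
    rfl
  rw [h, h2, Nat.cast_natAbs, Int.cast_abs]
  exact (gprod p).symm

/-- The data of the abstract ring. -/
noncomputable def gD : Dat GQ (Fin 2) where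
  σ := gσ
  c := 16
  φ := gunit
  one_le_c := by norm_num
  pos_card := by simp
  one_le_norm a ha := by rw [Fin.prod_univ_two]; exact gone_le ha
  two_le_norm p hp := by
    rw [gprod]
    have h1 := gnorm_ne hp.ne_zero
    have h2 : ¬ IsUnit p.norm := fun h => hp.not_isUnit (QuadraticAlgebra.isUnit_iff_norm_isUnit.2 h)
    rw [Int.isUnit_iff_natAbs_eq] at h2
    have h3 : (2 : ℤ) ≤ |p.norm| := by rw [Int.abs_eq_natAbs]; omega
    exact_mod_cast h3
  card_quot m _ := gcard m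
  unit_gen := gunit_gen
  φ_le := by
    have h := gabs0 1
    rw [zpow_one, zpow_one] at h
    have h2 := glogs gunit.ne_zero (h ▸ one_lt_goldenRatio.le) h.le
    rwa [gNunit, Real.log_one, zero_add] at h2
  bal a ha := by
    obtain ⟨k, h1, h2⟩ := gnormal ha
    have := gdomain
    have h3 := glogs (mul_ne_zero (gunit ^ k).ne_zero ha) h1 h2.le
    refine ⟨gunit ^ k, h3.trans_eq ?_⟩
    rw [map_mul, map_mul, abs_mul, abs_mul, mul_mul_mul_comm, gNunit, one_mul, Fin.prod_univ_two]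
  few := gfew
  many := gmany

open H37 in
/-- The map to the concrete ring. -/
noncomputable def toO : GQ →+* O :=
  (gσ 0).codRestrict (Algebra.adjoin ℤ ({goldenRatio} : Set ℝ)) fun z => by
    rw [gσ_zero]
    exact add_mem (intCast_mem _ _) (mul_mem (intCast_mem _ _) (Algebra.subset_adjoin rfl))

theorem toO_bij : Function.Bijective toO := by
  refine ⟨fun z w h => gσ_inj (congrArg Subtype.val h), fun ⟨t, ht⟩ => ?_⟩
  have key : ∃ z : GQ, gσ 0 z = t := by
    induction ht using Algebra.adjoin_induction with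
    | mem t h => exact ⟨⟨0, 1⟩, by rw [Set.mem_singleton_iff.1 h, gσ_zero]; simp⟩
    | algebraMap r => exact ⟨r, by simp⟩
    | add a b _ _ ha hb =>
      obtain ⟨x, rfl⟩ := ha
      obtain ⟨y, rfl⟩ := hb
      exact ⟨x + y, map_add _ _ _⟩
    | mul a b _ _ ha hb =>
      obtain ⟨x, rfl⟩ := ha
      obtain ⟨y, rfl⟩ := hb
      exact ⟨x * y, map_mul _ _ _⟩
  obtain ⟨z, hz⟩ := key
  exact ⟨z, Subtype.ext hz⟩

theorem grad [IsDomain GQ] [IsPrincipalIdealRing GQ] [NormalizationMonoid GQ] [DecidableEq GQ]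
    (e : GQ ≃+* H37.O) {t : GQ} (ht : t ≠ 0) : H37.rad (e t) = gD.rad t := by
  have : IsPrincipalIdealRing H37.O := IsPrincipalIdealRing.of_surjective e.toRingHom e.surjective
  have h1 : {P : Ideal H37.O | P.IsPrime ∧ P ≠ ⊥ ∧ e t ∈ P} =
      (fun p => Ideal.span {e p}) '' (primeFactors t : Set GQ) := by
    ext P
    constructor
    · rintro ⟨h1, h2, h3⟩
      obtain ⟨g, rfl⟩ := (IsPrincipalIdealRing.principal P).principal
      obtain ⟨g, rfl⟩ := e.surjective g
      have hg : e g ≠ 0 := fun h => h2 (by simp only [h, Submodule.span_zero_singleton])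
      have hp : Prime g := (MulEquiv.prime_iff e).1 ((Ideal.span_singleton_prime hg).1 h1)
      have ha := normalize_associated g
      refine ⟨normalize g, ?_, Ideal.span_singleton_eq_span_singleton.2 (ha.map e)⟩
      rw [Finset.mem_coe, mem_primeFactors, mem_normalizedFactors_iff' ht]
      exact ⟨(ha.symm.prime hp).irreducible, normalize_idem g,
        ha.dvd.trans ((map_dvd_iff e).1 (Ideal.mem_span_singleton.1 h3))⟩
    · rintro ⟨p, hp, rfl⟩
      have hp' := (MulEquiv.prime_iff e).2 (prime_of_mem hp)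
      exact ⟨(Ideal.span_singleton_prime hp'.ne_zero).2 hp', by simpa only [ne_eq, Submodule.span_eq_bot, Set.mem_singleton_iff, forall_eq, EmbeddingLike.map_eq_zero_iff] using hp'.ne_zero,
        Ideal.mem_span_singleton.2
          (map_dvd e (dvd_of_mem_normalizedFactors (mem_primeFactors.1 hp)))⟩
  have h2 : Set.InjOn (fun p : GQ => Ideal.span {e p}) (primeFactors t : Set GQ) :=
    fun p hp q hq h => by
      have h3 := (Ideal.span_singleton_eq_span_singleton.1 h).map e.symm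
      rw [e.symm_apply_apply, e.symm_apply_apply] at h3
      exact h3.eq_of_normalized (normalize_normalized_factor p (mem_primeFactors.1 hp))
        (normalize_normalized_factor q (mem_primeFactors.1 hq))
  calc _ = ∏ᶠ P ∈ {P : Ideal H37.O | P.IsPrime ∧ P ≠ ⊥ ∧ e t ∈ P},
        ((Nat.card (H37.O ⧸ P) : ℕ) : ℝ) := rfl
    _ = _ := by
      rw [h1, finprod_mem_image h2, finprod_mem_coe_finset, Dat.rad]
      refine Finset.prod_congr rfl fun p _ => ?_
      have e2 := Ideal.quotientEquiv (Ideal.span {p}) (Ideal.span {e p}) e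
        (by rw [Ideal.map_span]; simp)
      rw [← Nat.card_congr e2.toEquiv, gcard]
      rfl

end Gold

open Gold in
theorem golden (ε : ℝ) (hε : 0 < ε) : ∃ C : ℝ, ∀ a b c : H37.O, ∀ x₁ y₁ x₂ y₂ x₃ y₃ : ℤ,
    (a : ℝ) = (x₁ : ℝ) + (y₁ : ℝ) * Real.goldenRatio →
    (b : ℝ) = (x₂ : ℝ) + (y₂ : ℝ) * Real.goldenRatio →
    (c : ℝ) = (x₃ : ℝ) + (y₃ : ℝ) * Real.goldenRatio →
    a + b + c = 0 → Ideal.span ({a, b, c} : Set H37.O) = ⊤ → a * b * c ≠ 0 →
    Real.log (H37.ht x₁ y₁ x₂ y₂ x₃ y₃) ≤ C * H37.rad (a * b * c) ^ (2 / 9 + ε) := by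
  classical
  obtain ⟨e, he⟩ : ∃ e : GQ ≃+* H37.O, ∀ z, (e z : ℝ) = gσ 0 z :=
    ⟨RingEquiv.ofBijective toO toO_bij, fun _ => rfl⟩
  have := gdomain
  have := gpid
  let : StrongNormalizationMonoid GQ := UniqueFactorizationMonoid.strongNormalizationMonoid
  obtain ⟨C, hC⟩ := gD.main (FractionRing GQ) ε hε
  refine ⟨C, fun a b c x₁ y₁ x₂ y₂ x₃ y₃ h₁ h₂ h₃ hs hc hn => ?_⟩
  have k : ∀ (t : H37.O) (x y : ℤ), (t : ℝ) = x + y * Real.goldenRatio → t = e ⟨x, y⟩ :=
    fun t x y h => Subtype.ext (by rw [he, h]; rfl)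
  rw [k a _ _ h₁, k b _ _ h₂, k c _ _ h₃] at hs hc hn ⊢
  rw [← map_mul, ← map_mul] at hn ⊢
  rw [← map_add, ← map_add, map_eq_zero_iff _ e.injective] at hs
  rw [map_ne_zero_iff _ e.injective] at hn
  have h1 : (1 : H37.O) ∈ Ideal.span _ := hc ▸ Submodule.mem_top
  obtain ⟨x, y, z, h1⟩ := Submodule.mem_span_triple.1 h1
  have h2 := congrArg e.symm h1
  simp only [smul_eq_mul, map_add, map_mul, map_one, e.symm_apply_apply] at h2
  have h3 := hC _ _ _ hs ⟨e.symm x - e.symm z, e.symm y - e.symm z,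
    by linear_combination h2 - e.symm z * hs⟩ hn
  rw [grad e hn]
  rw [Dat.ht, Fin.prod_univ_two] at h3
  exact h3

end Pool.Agent.MP_2a5a28_nt.H70
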