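import Pool.Agent.MP_2a5a28_nt.H70.Core

attribute [-instance] AddQuantale.instAddLeftMono littleWedderburn Module.Flat.isTorsionFree
  AlgHom.instNonUnitalAlgHomClassOfAlgHomClass instNontrivialOfCharZero RKHS.instFunLike
  AddQuantale.instAddRightMono IdemSemiring.toSemiring MonTypeEquivalenceMon.monMonoid
  Module.Free.instFaithfulSMulOfNontrivial instCoeOutOfCoeFun
  instNonUnitalAlgHomClassOfNonUnitalAlgEquivClass CommMonTypeEquivalenceCommMon.commMonCommMonoid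
  ContinuousMonoidHom.instCoeOutOfMonoidHomClassOfContinuousMapClass instCoeTCOfCoe
  NumberField.to_charZero BialgHomClass.toMonoidHomClass Module.FaithfullyFlat.faithfulSMul
  Quantale.instMulRightMono ContinuousSemilinearMapClass.toSemilinearMapClass
  instCoeHTCTOfCoeTailOfCoeHTC instCharZeroOfIsSemireal
  LinearOrderedCommMonoidWithZero.toPosMulStrictMono IdemCommSemiring.toCommSemiring
  IdemSemiring.toCanonicallyOrderedAdd NormedField.toField CoalgHomClass.toSemilinearMapClass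
  NonUnitalAlgHomClass.instLinearMapClass instCoeTOfCoeDep
  NonUnitalAlgHomClass.instSemilinearMapClassOfNonUnitalAlgSemiHomClassToMonoidHomRingHom
  Module.IsTorsionFree.to_faithfulSMul ValuationClass.toMonoidWithZeroHomClass
  MulCharClass.toMonoidHomClass IsStrictOrderedRing.noZeroDivisors
  MulDistribMulActionSemiHomClass.toMonoidHomClass IsometryClass.instCoeOutIsometryEquiv
  DivisionRing.toDivisionSemiring NonUnitalAlgSemiHomClass.toDistribMulActionSemiHomClass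
  AlgHomClass.linearMapClass ContinuousAddMonoidHom.instCoeOutOfAddMonoidHomClassOfContinuousMapClass
  HomeomorphClass.instCoeOutHomeomorph Group.IsPerfect.subsingleton_of_isMulCommutative
  Module.Invertible.instFaithfulSMul SemilinearIsometryClass.toSemilinearMapClass
  CompletePartialOrder.toPartialOrder MulSemiringActionSemiHomClass.toDistribMulActionSemiHomClass
  NeZero.of_gt' NonUnitalAlgSemiHomClass.toMulHomClass ValuationRing.isLocalRing BooleanRing.toRing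
  Field.instIsLocalRing RingEquivClass.toNonUnitalRingHomClass
  NonUnitalAlgHomClass.toNonUnitalRingHomClass RingHomClass.toLinearMapClassRat
  SemilinearEquivClass.instSemilinearMapClass LinearOrderedCommMonoidWithZero.toCommMonoidWithZero
  BialgEquivClass.instCoeToBialgEquiv BialgHomClass.instCoeToBialgHom TestFunctionClass.toDFunLike
  LieAdmissibleRing.toNonUnitalNonAssocRing RCLike.charZero_rclike
  ContDiffMapSupportedInClass.toDFunLike IsFormallyReal.instIsReduced instCoeHTCT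
  CoalgHomClass.instCoeToCoalgHom instCoeHTC Invertible.toNeZero
  CompletelyPositiveMapClass.instCoeToCompletelyPositiveMap CoalgEquivClass.instCoeToCoalgEquiv
  StarAlgEquivClass.instCoeHead StarRingEquivClass.instCoeHead instCoeTC
  CentroidHomClass.toAddMonoidHomClass SemilinearMapClass.instCoeToSemilinearMap
  LinearMapClass.instCoeToLinearMap

/-! Heights, generators, pigeonhole, finite and real places. -/

set_option autoImplicit false
set_option linter.unusedSectionVars false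

namespace Pool.Agent.MP_2a5a28_nt.H70

open Finset UniqueFactorizationMonoid

variable {O : Type*} [CommRing O] [IsDomain O] [IsPrincipalIdealRing O] [NormalizationMonoid O]
  [DecidableEq O] {V : Type*} [Fintype V] (D : Dat O V)
  (K : Type*) [Field K] [CharZero K] [Algebra O K] [IsFractionRing O K]

theorem Dat.N_mul (a b : O) : D.N (a * b) = D.N a * D.N b := by
  simp only [N, map_mul, abs_mul, prod_mul_distrib]

theorem Dat.N_one : D.N 1 = 1 := by simp only [N, map_one, abs_one, prod_const_one]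

theorem Dat.N_pow (a : O) (k : ℕ) : D.N (a ^ k) = D.N a ^ k := by
  simp only [N, map_pow, abs_pow, prod_pow]

theorem Dat.N_nonneg (a : O) : 0 ≤ D.N a := Finset.prod_nonneg fun _ _ => abs_nonneg _

theorem Dat.one_le_N {a : O} (h : a ≠ 0) : 1 ≤ D.N a := D.one_le_norm a h

theorem Dat.two_le_N {p : O} (h : Prime p) : 2 ≤ D.N p := D.two_le_norm p h

theorem Dat.N_pos {a : O} (h : a ≠ 0) : 0 < D.N a := lt_of_lt_of_le one_pos (D.one_le_N h)

theorem Dat.N_prod {ι : Type*} (s : Finset ι) (f : ι → O) :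
    D.N (∏ i ∈ s, f i) = ∏ i ∈ s, D.N (f i) := by
  classical
  induction s using Finset.induction_on with
  | empty => simp [D.N_one]
  | insert a s ha ih => rw [Finset.prod_insert ha, Finset.prod_insert ha, D.N_mul, ih]

theorem Dat.N_le_of_dvd {a b : O} (h : a ∣ b) (hb : b ≠ 0) : D.N a ≤ D.N b := by
  obtain ⟨c, rfl⟩ := h
  rw [D.N_mul]
  exact le_mul_of_one_le_right (D.N_nonneg a) (D.one_le_N (right_ne_zero_of_mul hb))

theorem Dat.N_unit (u : Oˣ) : D.N u = 1 :=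
  le_antisymm (D.N_one ▸ D.N_le_of_dvd u.isUnit.dvd one_ne_zero) (D.one_le_N u.ne_zero)

theorem Dat.σ_ne {a : O} (h : a ≠ 0) (w : V) : D.σ w a ≠ 0 := fun e => by
  have := D.one_le_norm a h
  rw [Finset.prod_eq_zero (Finset.mem_univ w) (by simp [e])] at this
  norm_num at this

theorem prime_of_mem {a p : O} (h : p ∈ primeFactors a) : Prime p :=
  prime_of_normalized_factor p (mem_primeFactors.1 h)

theorem Dat.one_le_rad (a : O) : 1 ≤ D.rad a :=
  Finset.prod_induction _ (fun x : ℝ => 1 ≤ x) (fun _ _ => one_le_mul_of_one_le_of_one_le) le_rfl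
    fun _ hp => D.one_le_N (prime_of_mem hp).ne_zero

theorem Dat.rad_mul {a b : O} (h : IsCoprime a b) : D.rad (a * b) = D.rad a * D.rad b := by
  rw [Dat.rad, primeFactors_mul_eq_disjUnion h.isRelPrime, Finset.prod_disjUnion]; rfl

theorem Dat.ht_nonneg (n d : O) : 0 ≤ D.Hm n d :=
  Finset.prod_nonneg fun _ _ => le_max_of_le_left (abs_nonneg _)

theorem Dat.ht_comm (n d : O) : D.Hm n d = D.Hm d n :=
  Finset.prod_congr rfl fun _ _ => max_comm _ _

theorem Dat.ht_mul_le (n d n' d' : O) : D.Hm (n * n') (d * d') ≤ D.Hm n d * D.Hm n' d' := by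
  unfold Dat.Hm
  rw [← Finset.prod_mul_distrib]
  refine Finset.prod_le_prod (fun _ _ => le_max_of_le_left (abs_nonneg _)) fun w _ => ?_
  rw [map_mul, map_mul, abs_mul, abs_mul]
  exact max_le
    (mul_le_mul (le_max_left _ _) (le_max_left _ _) (abs_nonneg _) (le_max_of_le_left (abs_nonneg _)))
    (mul_le_mul (le_max_right _ _) (le_max_right _ _) (abs_nonneg _)
      (le_max_of_le_left (abs_nonneg _)))

theorem Dat.HL_mono {q : K} {x x' : ℝ} (h : D.HL K q x) (hx : x ≤ x') : D.HL K q x' := by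
  obtain ⟨n, d, hd, e, hh⟩ := h
  exact ⟨n, d, hd, e, hh.trans (Real.exp_le_exp.2 hx)⟩

theorem Dat.HL_mul {q q' : K} {x x' : ℝ} (h : D.HL K q x) (h' : D.HL K q' x') :
    D.HL K (q * q') (x + x') := by
  obtain ⟨n, d, hd, e, hh⟩ := h
  obtain ⟨n', d', hd', e', hh'⟩ := h'
  refine ⟨n * n', d * d', mul_ne_zero hd hd', ?_, (D.ht_mul_le n d n' d').trans ?_⟩
  · rw [e, e', map_mul, map_mul, div_mul_div_comm]
  · rw [Real.exp_add]
    exact mul_le_mul hh hh' (D.ht_nonneg _ _) (Real.exp_pos _).le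

theorem Dat.HL_neg {q : K} {x : ℝ} (h : D.HL K q x) : D.HL K (-q) x := by
  obtain ⟨n, d, hd, e, hh⟩ := h
  refine ⟨-n, d, hd, by rw [e, map_neg, neg_div], le_trans (le_of_eq ?_) hh⟩
  exact Finset.prod_congr rfl fun w _ => by rw [map_neg, abs_neg]

theorem Dat.ht_pow {q : K} {x : ℝ} (h : D.HL K q x) (m : ℕ) : D.HL K (q ^ m) (m * x) := by
  induction m with
  | zero => exact ⟨1, 1, one_ne_zero, by simp, by simp only [Hm, map_one, abs_one, max_self, prod_const_one, CharP.cast_eq_zero, zero_mul, Real.exp_zero, Std.le_refl]⟩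
  | succ m ih =>
    rw [pow_succ, Nat.cast_succ, add_mul, one_mul]
    exact D.HL_mul K ih h

theorem Dat.ht_inv {q : K} {x : ℝ} (h : D.HL K q x) (hq : q ≠ 0) : D.HL K q⁻¹ x := by
  obtain ⟨n, d, hd, e, hh⟩ := h
  refine ⟨d, n, fun h0 => hq ?_, by rw [e, inv_div], (D.ht_comm d n).le.trans hh⟩
  rw [e, h0, map_zero, zero_div]

theorem Dat.HL_zpow {q : K} {x : ℝ} (h : D.HL K q x) (hq : q ≠ 0) (t : ℤ) :
    D.HL K (q ^ t) (|(t : ℝ)| * x) := by
  obtain ⟨m, rfl | rfl⟩ := t.eq_nat_or_neg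
  · rw [zpow_natCast, Int.cast_natCast, Nat.abs_cast]
    exact D.ht_pow K h m
  · rw [zpow_neg, zpow_natCast, ← inv_pow, Int.cast_neg, abs_neg, Int.cast_natCast, Nat.abs_cast]
    exact D.ht_pow K (D.ht_inv K h hq) m

theorem ht_det_le {ι : Type*} [Fintype ι] [DecidableEq ι] (A : Matrix ι ι ℝ) (r : ι → ℝ)
    (h : ∀ i j, |A i j| ≤ r i) : |A.det| ≤ (Fintype.card ι).factorial * ∏ i, r i := by
  rw [Matrix.det_apply']
  refine (Finset.abs_sum_le_sum_abs _ _).trans ?_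
  have h1 : ∀ s ∈ (Finset.univ : Finset (Equiv.Perm ι)),
      |((Equiv.Perm.sign s : ℤ) : ℝ) * ∏ i, A (s i) i| ≤ ∏ i, r i := by
    intro s _
    have h2 : |((Equiv.Perm.sign s : ℤ) : ℝ)| = 1 := by
      rcases Int.units_eq_one_or (Equiv.Perm.sign s) with e | e <;> simp [e]
    rw [abs_mul, h2, one_mul, Finset.abs_prod, ← Equiv.prod_comp s r]
    exact Finset.prod_le_prod (fun _ _ => abs_nonneg _) fun i _ => h _ _
  refine (Finset.sum_le_card_nsmul _ _ _ h1).trans (le_of_eq ?_)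
  rw [Finset.card_univ, Fintype.card_perm, nsmul_eq_mul]

theorem ht_fact_le {k T : ℕ} (hk : 2 * k ≤ T + 1) :
    ((2 * k).factorial : ℝ) * (2 ^ T) ^ (2 * k) ≤ Real.exp (4 * (T + 1) * k) := by
  have h1 : (2 * k).factorial ≤ (2 ^ (T + 1)) ^ (2 * k) :=
    (Nat.factorial_le_pow _).trans (Nat.pow_le_pow_left (hk.trans Nat.lt_two_pow_self.le) _)
  have h2 : (2 * k).factorial * (2 ^ T) ^ (2 * k) ≤ 2 ^ (4 * (T + 1) * k) := by
    refine (Nat.mul_le_mul_right _ h1).trans ?_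
    rw [← pow_mul, ← pow_mul, ← pow_add]
    exact Nat.pow_le_pow_right (by norm_num) (by linarith only [])
  have h3 : (2 : ℝ) ≤ Real.exp 1 := by linarith only [Real.add_one_le_exp 1]
  calc ((2 * k).factorial : ℝ) * (2 ^ T) ^ (2 * k) ≤ 2 ^ (4 * (T + 1) * k) := by exact_mod_cast h2
    _ ≤ Real.exp 1 ^ (4 * (T + 1) * k) := pow_le_pow_left₀ (by norm_num) h3 _
    _ = _ := by rw [← Real.exp_nat_mul]; push_cast; rw [mul_one]

theorem Dat.det_liou {I : Type*} {S : Finset I} {ν : I → AbsoluteValue K ℝ} (hL : D.Liou K S ν)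
    (k T : ℕ) (t : Fin k × Bool → ℕ) (P : Fin k × Bool → K) (x : Fin k × Bool → ℝ)
    (hk : 2 * k ≤ T + 1) (ht : ∀ i, t i ≤ T) (hP : ∀ i, D.HL K (P i) (x i))
    (h0 : (mat k t P).det ≠ 0) :
    Real.exp (-(∑ i, x i) - 4 * (Fintype.card V : ℕ) * (T + 1) * k) ≤
      ∏ i ∈ S, ν i (mat k t P).det := by
  choose n d hd e hh using hP
  have hinj := IsFractionRing.injective O K
  have hd' : ∀ i, algebraMap O K (d i) ≠ 0 := fun i => (map_ne_zero_iff _ hinj).2 (hd i)
  let B : Matrix (Fin k × Bool) (Fin k × Bool) O :=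
    fun i c => ((t i).choose c.1 : O) * (if c.2 then n i else d i)
  have hB : algebraMap O K B.det = algebraMap O K (∏ i, d i) * (mat k t P).det := by
    rw [RingHom.map_det, map_prod, ← Matrix.det_mul_column]
    congr 1
    ext i c
    simp only [RingHom.mapMatrix_apply, Matrix.map_apply, Matrix.of_apply, B, mat, map_mul,
      map_natCast]
    split_ifs
    · rw [e i, mul_left_comm, mul_div_cancel₀ _ (hd' i)]
    · rw [mul_one, mul_comm]
  have hD : (∏ i, d i) ≠ 0 := Finset.prod_ne_zero_iff.2 fun i _ => hd i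
  have hD' : algebraMap O K (∏ i, d i) ≠ 0 := (map_ne_zero_iff _ hinj).2 hD
  have hB0 : B.det ≠ 0 := fun h => mul_ne_zero hD' h0 (by rw [← hB, h, map_zero])
  have hq : (mat k t P).det = algebraMap O K B.det / algebraMap O K (∏ i, d i) := by
    rw [hB, mul_div_cancel_left₀ _ hD']
  have hm : ∀ w i, 0 < max |D.σ w (n i)| |D.σ w (d i)| := fun w i =>
    lt_max_of_lt_right (abs_pos.2 (D.σ_ne (hd i) w))
  have hp : ∀ w, 0 < ∏ i, max |D.σ w (n i)| |D.σ w (d i)| := fun w =>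
    Finset.prod_pos fun i _ => hm w i
  have key := hL B.det (∏ i, d i)
    (fun w => Real.exp (4 * (T + 1) * k) * ∏ i, max |D.σ w (n i)| |D.σ w (d i)|) hB0 hD
    fun w => ⟨?_, ?_⟩
  · rw [hq]
    refine le_trans ?_ key
    rw [Finset.prod_mul_distrib, Finset.prod_const, Finset.card_univ, Finset.prod_comm,
      ← Real.exp_nat_mul]
    have h1 : ∏ i, ∏ w, max |D.σ w (n i)| |D.σ w (d i)| ≤ Real.exp (∑ i, x i) := by
      rw [Real.exp_sum]
      exact Finset.prod_le_prod (fun i _ => D.ht_nonneg _ _) fun i _ => hh i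
    have h2 : 0 < ∏ i, ∏ w, max |D.σ w (n i)| |D.σ w (d i)| :=
      Finset.prod_pos fun i _ => Finset.prod_pos fun w _ => hm w i
    refine le_trans (le_of_eq ?_)
      (inv_anti₀ (mul_pos (Real.exp_pos _) h2) (mul_le_mul_of_nonneg_left h1 (Real.exp_pos _).le))
    rw [← Real.exp_add, ← Real.exp_neg]
    congr 1
    ring
  · rw [RingHom.map_det]
    refine (ht_det_le _ (fun i => 2 ^ T * max |D.σ w (n i)| |D.σ w (d i)|) fun i c => ?_).trans ?_
    · simp only [RingHom.mapMatrix_apply, Matrix.map_apply, B, map_mul, map_natCast]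
      rw [abs_mul, Nat.abs_cast]
      refine mul_le_mul ?_ ?_ (abs_nonneg _) (by positivity)
      · exact_mod_cast (Nat.choose_le_two_pow _ _).trans
          (Nat.pow_le_pow_right (by norm_num) (ht i))
      · split_ifs
        exacts [le_max_left _ _, le_max_right _ _]
    · rw [Finset.prod_mul_distrib, Finset.prod_const, Finset.card_univ, ← mul_assoc,
        Fintype.card_prod, Fintype.card_fin, Fintype.card_bool, mul_comm k 2]
      exact mul_le_mul_of_nonneg_right (ht_fact_le hk) (hp w).le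
  · rw [map_prod, Finset.abs_prod]
    refine le_trans (Finset.prod_le_prod (fun _ _ => abs_nonneg _) fun i _ => le_max_right _ _)
      (le_mul_of_one_le_left (hp w).le (Real.one_le_exp (by positivity)))

theorem Dat.Hm_min {n d n' d' : O} (hc : IsCoprime n d) (hd' : d' ≠ 0) (h : n * d' = n' * d) :
    D.Hm n d ≤ D.Hm n' d' := by
  obtain ⟨e, rfl⟩ : d ∣ d' := hc.symm.dvd_of_dvd_mul_left ⟨n', by rw [h, mul_comm]⟩
  have hn : n' = n * e :=
    mul_right_cancel₀ (left_ne_zero_of_mul hd') (by rw [← h]; ring)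
  have h1 : D.Hm (n * e) (d * e) = D.Hm n d * D.N e := by
    unfold Dat.Hm Dat.N
    rw [← Finset.prod_mul_distrib]
    refine Finset.prod_congr rfl fun w _ => ?_
    rw [map_mul, map_mul, abs_mul, abs_mul, max_mul_of_nonneg _ _ (abs_nonneg _)]
  rw [hn, h1]
  exact le_mul_of_one_le_right (D.ht_nonneg _ _) (D.one_le_N (right_ne_zero_of_mul hd'))

theorem Dat.Fn_logN {a : O} (h : a ≠ 0) : Real.log (D.N a) = ∑ w, Real.log (D.σ w a) := by
  rw [Dat.N, Real.log_prod (fun w _ => abs_ne_zero.2 (D.σ_ne h w))]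
  simp only [Real.log_abs]

theorem Dat.Fn_logN_nonneg {a : O} (h : a ≠ 0) : 0 ≤ Real.log (D.N a) :=
  Real.log_nonneg (D.one_le_N h)

theorem Fn_max_add (s t : ℝ) : max (s + t) 0 ≤ max s 0 + max t 0 :=
  max_le (add_le_add (le_max_left _ _) (le_max_left _ _))
    (add_nonneg (le_max_right _ _) (le_max_right _ _))

theorem Fn_max_mul {x : ℝ} (hx : 0 ≤ x) (s : ℝ) : max (x * s) 0 = x * max s 0 := by
  rw [mul_max_of_nonneg _ _ hx, mul_zero]

theorem Fn_max_neg (s : ℝ) : max (-s) 0 = max s 0 - s := by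
  rcases le_total s 0 with h | h
  · rw [max_eq_left (neg_nonneg.2 h), max_eq_right h, zero_sub]
  · rw [max_eq_right (neg_nonpos.2 h), max_eq_left h, sub_self]

theorem Dat.F_add {n : ℕ} {α : Fin n → O} (hα : ∀ j, α j ≠ 0) (μ μ' : Fin n → ℝ) :
    D.F α (fun j => μ j + μ' j) ≤ D.F α μ + D.F α μ' := by
  have h1 : ∑ j, max (-(μ j + μ' j)) 0 * Real.log (D.N (α j)) ≤
      ∑ j, max (-μ j) 0 * Real.log (D.N (α j)) + ∑ j, max (-μ' j) 0 * Real.log (D.N (α j)) := by
    rw [← Finset.sum_add_distrib]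
    refine Finset.sum_le_sum fun j _ => ?_
    rw [← add_mul, neg_add]
    exact mul_le_mul_of_nonneg_right (Fn_max_add _ _) (D.Fn_logN_nonneg (hα j))
  have h2 : ∑ w, max (∑ j, (μ j + μ' j) * Real.log (D.σ w (α j))) 0 ≤
      ∑ w, max (∑ j, μ j * Real.log (D.σ w (α j))) 0 +
        ∑ w, max (∑ j, μ' j * Real.log (D.σ w (α j))) 0 := by
    rw [← Finset.sum_add_distrib]
    refine Finset.sum_le_sum fun w _ => ?_
    simp only [add_mul, Finset.sum_add_distrib]
    exact Fn_max_add _ _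
  unfold Dat.F
  linarith

theorem Dat.Fn_neg {n : ℕ} {α : Fin n → O} (hα : ∀ j, α j ≠ 0) (μ : Fin n → ℝ) :
    D.F α (fun j => -μ j) = D.F α μ := by
  have h1 : ∑ w, ∑ j, μ j * Real.log (D.σ w (α j)) = ∑ j, μ j * Real.log (D.N (α j)) := by
    rw [Finset.sum_comm]
    exact Finset.sum_congr rfl fun j _ => by rw [D.Fn_logN (hα j), Finset.mul_sum]
  unfold Dat.F
  simp only [neg_neg, neg_mul, Finset.sum_neg_distrib, Fn_max_neg, sub_mul,
    Finset.sum_sub_distrib]
  linarith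

theorem Dat.Fn_smul {n : ℕ} (α : Fin n → O) {x : ℝ} (hx : 0 ≤ x) (μ : Fin n → ℝ) :
    D.F α (fun j => x * μ j) = x * D.F α μ := by
  unfold Dat.F
  rw [mul_add, Finset.mul_sum, Finset.mul_sum]
  congr 1
  · exact Finset.sum_congr rfl fun j _ => by rw [← mul_neg, Fn_max_mul hx, mul_assoc]
  · refine Finset.sum_congr rfl fun w _ => ?_
    rw [← Fn_max_mul hx, Finset.mul_sum]
    simp only [mul_assoc]

theorem Dat.F_smul {n : ℕ} {α : Fin n → O} (hα : ∀ j, α j ≠ 0) (x : ℝ) (μ : Fin n → ℝ) :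
    D.F α (fun j => x * μ j) = |x| * D.F α μ := by
  rcases le_total 0 x with h | h
  · rw [abs_of_nonneg h, D.Fn_smul α h]
  · rw [abs_of_nonpos h, ← D.Fn_smul α (neg_nonneg.2 h), ← D.Fn_neg hα]
    simp only [neg_mul]

theorem Dat.F_le {n : ℕ} {α : Fin n → O} (hα : ∀ j, α j ≠ 0) {A : Fin n → ℝ}
    (hA : ∀ j, ∑ w, |Real.log (D.σ w (α j))| ≤ A j) (μ : Fin n → ℝ) :
    D.F α μ ≤ 2 * ∑ j, |μ j| * A j := by
  have h1 : ∑ j, max (-μ j) 0 * Real.log (D.N (α j)) ≤ ∑ j, |μ j| * A j := by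
    refine Finset.sum_le_sum fun j _ => mul_le_mul (max_le (neg_le_abs _) (abs_nonneg _)) ?_
      (D.Fn_logN_nonneg (hα j)) (abs_nonneg _)
    rw [D.Fn_logN (hα j)]
    exact (Finset.sum_le_sum fun w _ => le_abs_self _).trans (hA j)
  have h2 : ∑ w, max (∑ j, μ j * Real.log (D.σ w (α j))) 0 ≤ ∑ j, |μ j| * A j := by
    calc _ ≤ ∑ w, ∑ j, |μ j| * |Real.log (D.σ w (α j))| := by
          refine Finset.sum_le_sum fun w _ => max_le ?_
            (Finset.sum_nonneg fun j _ => mul_nonneg (abs_nonneg _) (abs_nonneg _))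
          exact Finset.sum_le_sum fun j _ => by rw [← abs_mul]; exact le_abs_self _
      _ = ∑ j, |μ j| * ∑ w, |Real.log (D.σ w (α j))| := by
          rw [Finset.sum_comm]; simp only [Finset.mul_sum]
      _ ≤ _ := Finset.sum_le_sum fun j _ => mul_le_mul_of_nonneg_left (hA j) (abs_nonneg _)
  unfold Dat.F
  linarith

theorem Dat.Fn_abs {n : ℕ} {α : Fin n → O} (hα : ∀ j, α j ≠ 0) (e : Fin n → ℕ) (w : V) :
    |D.σ w (∏ j, α j ^ e j)| = Real.exp (∑ j, (e j : ℝ) * Real.log (D.σ w (α j))) := by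
  rw [map_prod, Finset.abs_prod, Real.exp_sum]
  refine Finset.prod_congr rfl fun j _ => ?_
  rw [map_pow, abs_pow, Real.exp_nat_mul, Real.exp_log_eq_abs (D.σ_ne (hα j) w)]

theorem Fn_toNat (m : ℤ) : ((m.toNat : ℕ) : ℝ) = max (m : ℝ) 0 := by
  have h : ((m.toNat : ℕ) : ℤ) = max m 0 := Int.ofNat_toNat m
  exact_mod_cast congrArg (Int.cast : ℤ → ℝ) h

theorem Dat.F_eq {n : ℕ} {α : Fin n → O} (hα : ∀ j, α j ≠ 0)
    (hc : Pairwise fun i j => IsCoprime (α i) (α j)) (μ : Fin n → ℤ) :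
    ∃ p q : O, p ≠ 0 ∧ q ≠ 0 ∧ IsCoprime p q ∧ pw K α μ = algebraMap O K p / algebraMap O K q ∧
      D.Hm p q = Real.exp (D.F α fun j => (μ j : ℝ)) := by
  refine ⟨∏ j, α j ^ (μ j).toNat, ∏ j, α j ^ (-μ j).toNat,
    Finset.prod_ne_zero_iff.2 fun j _ => pow_ne_zero _ (hα j),
    Finset.prod_ne_zero_iff.2 fun j _ => pow_ne_zero _ (hα j), ?_, ?_, ?_⟩
  · refine IsCoprime.prod_left fun i _ => IsCoprime.prod_right fun j _ => ?_
    by_cases hij : i = j
    · subst hij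
      rcases le_total (μ i) 0 with h | h
      · rw [Int.toNat_eq_zero.2 h, pow_zero]; exact isCoprime_one_left
      · rw [Int.toNat_eq_zero.2 (neg_nonpos.2 h), pow_zero]; exact isCoprime_one_right
    · exact (hc hij).pow
  · rw [pw, map_prod, map_prod, ← Finset.prod_div_distrib]
    refine Finset.prod_congr rfl fun j _ => ?_
    have h0 : algebraMap O K (α j) ≠ 0 :=
      (map_ne_zero_iff _ (IsFractionRing.injective O K)).2 (hα j)
    rw [map_pow, map_pow, ← zpow_natCast, ← zpow_natCast, ← zpow_sub₀ h0,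
      Int.toNat_sub_toNat_neg]
  · have h1 : ∑ j, max (-(μ j : ℝ)) 0 * Real.log (D.N (α j)) =
        ∑ w, ∑ j, max (-(μ j : ℝ)) 0 * Real.log (D.σ w (α j)) := by
      rw [Finset.sum_comm]
      exact Finset.sum_congr rfl fun j _ => by rw [D.Fn_logN (hα j), Finset.mul_sum]
    rw [Dat.Hm, Dat.F, h1, ← Finset.sum_add_distrib, Real.exp_sum]
    refine Finset.prod_congr rfl fun w _ => ?_
    rw [D.Fn_abs hα, D.Fn_abs hα, ← Real.exp_monotone.map_max]
    congr 1
    simp only [Fn_toNat, Int.cast_neg]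
    rw [add_max, add_zero, ← Finset.sum_add_distrib]
    congr 1
    exact Finset.sum_congr rfl fun j _ => by rw [Fn_max_neg]; ring

theorem Fn_cell {s t A : ℝ} (hs : 0 ≤ s) (ht : 0 ≤ t)
    (h : ⌊s * (⌈A⌉₊ : ℝ)⌋₊ = ⌊t * (⌈A⌉₊ : ℝ)⌋₊) : |s - t| * A ≤ 1 := by
  have hc : (0 : ℝ) ≤ ⌈A⌉₊ := Nat.cast_nonneg _
  have a1 := Nat.floor_le (mul_nonneg hs hc)
  have a2 := Nat.lt_floor_add_one (s * (⌈A⌉₊ : ℝ))
  have b1 := Nat.floor_le (mul_nonneg ht hc)
  have b2 := Nat.lt_floor_add_one (t * (⌈A⌉₊ : ℝ))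
  rw [h] at a1 a2
  refine (mul_le_mul_of_nonneg_left (Nat.le_ceil A) (abs_nonneg _)).trans ?_
  rw [← abs_of_nonneg hc, ← abs_mul, abs_le]
  constructor <;> linarith only [a1, b2, a2, b1]

theorem pigeon {n : ℕ} (A : Fin n → ℝ) (hA : ∀ j, 1 ≤ A j) (b : Fin n → ℤ) {β γ : Type*}
    (X : Finset ℝ) (W : Finset β) (Γ : Finset γ) (col : ℝ → β → γ)
    (hΓ : ∀ x ∈ X, ∀ u ∈ W, col x u ∈ Γ)
    (hc : (Γ.card : ℝ) * ∏ j, (2 * A j) < X.card * W.card) :
    ∃ x ∈ X, ∃ x' ∈ X, ∃ u ∈ W, ∃ u' ∈ W, (x ≠ x' ∨ u ≠ u') ∧ col x u = col x' u' ∧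
      ∑ j, |((fl b x j - fl b x' j : ℤ) : ℝ) - (x - x') * b j| * A j ≤ n := by
  classical
  have hcard : (Γ ×ˢ Fintype.piFinset fun j => range ⌈A j⌉₊).card < (X ×ˢ W).card := by
    rw [Finset.card_product, Finset.card_product, Fintype.card_piFinset]
    have h : (Γ.card : ℝ) * ∏ j, ((range ⌈A j⌉₊).card : ℝ) < X.card * W.card := by
      refine lt_of_le_of_lt (mul_le_mul_of_nonneg_left ?_ (Nat.cast_nonneg _)) hc
      refine Finset.prod_le_prod (fun j _ => Nat.cast_nonneg _) fun j _ => ?_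
      rw [Finset.card_range]
      have := Nat.ceil_lt_add_one (zero_le_one.trans (hA j))
      linarith [hA j]
    exact_mod_cast h
  obtain ⟨⟨x, u⟩, hz, ⟨x', u'⟩, hz', hne, he⟩ :=
    Finset.exists_ne_map_eq_of_card_lt_of_maps_to hcard
      (f := fun z : ℝ × β => (col z.1 z.2, fun j => ⌊Int.fract (z.1 * b j) * (⌈A j⌉₊ : ℝ)⌋₊))
      (fun z hz => by
        have hz' := Finset.mem_product.1 (Finset.mem_coe.1 hz)
        refine Finset.mem_coe.2 (Finset.mem_product.2 ⟨hΓ _ hz'.1 _ hz'.2,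
          Fintype.mem_piFinset.2 fun j => Finset.mem_range.2 ?_⟩)
        have hp : (0 : ℝ) < ⌈A j⌉₊ := lt_of_lt_of_le (lt_of_lt_of_le one_pos (hA j)) (Nat.le_ceil _)
        rw [Nat.floor_lt (mul_nonneg (Int.fract_nonneg _) hp.le)]
        exact mul_lt_of_lt_one_left hp (Int.fract_lt_one _))
  have h1 := Finset.mem_product.1 hz
  have h2 := Finset.mem_product.1 hz'
  refine ⟨x, h1.1, x', h2.1, u, h1.2, u', h2.2, ?_, (Prod.mk.inj he).1, ?_⟩
  · by_contra hn
    rw [not_or, not_not, not_not] at hn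
    exact hne (Prod.ext hn.1 hn.2)
  · calc _ ≤ ∑ _j : Fin n, (1 : ℝ) := by
          refine Finset.sum_le_sum fun j _ => ?_
          have h := Fn_cell (Int.fract_nonneg _) (Int.fract_nonneg _)
            (congrFun (Prod.mk.inj he).2 j).symm
          have e : ((fl b x j - fl b x' j : ℤ) : ℝ) - (x - x') * b j =
              Int.fract (x' * b j) - Int.fract (x * b j) := by
            simp only [fl, Int.fract, Int.cast_sub]; ring
          rw [e]; exact h
      _ = n := by simp only [sum_const, card_univ, Fintype.card_fin, nsmul_eq_mul, mul_one]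

theorem setup_norm_eq {a b p q : O} (hp : p ∈ primeFactors a) (hq : q ∈ primeFactors b)
    (h : p ∣ q) : p = q := by
  have h1 := normalize_normalized_factor p (mem_primeFactors.1 hp)
  have h2 := normalize_normalized_factor q (mem_primeFactors.1 hq)
  exact ((prime_of_mem hp).irreducible.associated_of_dvd (prime_of_mem hq).irreducible
    h).eq_of_normalized h1 h2

theorem Dat.setup_bal : ∃ u : O → Oˣ, ∀ a, a ≠ 0 →
    ∑ w, |Real.log (D.σ w (u a * a))| ≤ Real.log (D.N a) + 1 := by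
  have : ∀ a : O, ∃ u : Oˣ, a ≠ 0 →
      ∑ w, |Real.log (D.σ w (u * a))| ≤ Real.log (D.N a) + 1 := by
    intro a
    by_cases ha : a = 0
    · exact ⟨1, fun h => absurd ha h⟩
    · obtain ⟨u, hu⟩ := D.bal a ha
      exact ⟨u, fun _ => hu⟩
  choose u hu using this
  exact ⟨u, hu⟩

theorem Dat.setup_small (y : ℝ) : ∃ M : ℕ, ∀ t : O,
    ((primeFactors t).filter fun p => Real.log (D.N p) ≤ y).card ≤ M := by
  obtain ⟨u, hu⟩ := D.setup_bal
  obtain ⟨M, hM⟩ := D.few (Real.exp (y + 1))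
  refine ⟨M, fun t => ?_⟩
  rw [← Finset.card_image_of_injOn (f := fun p => (u p : O) * p)]
  · apply hM
    intro a ha w
    obtain ⟨p, hp, rfl⟩ := Finset.mem_image.1 ha
    obtain ⟨hp1, hp2⟩ := Finset.mem_filter.1 hp
    have hp0 := (prime_of_mem hp1).ne_zero
    have h1 : |Real.log (D.σ w (u p * p))| ≤ ∑ w, |Real.log (D.σ w (u p * p))| :=
      Finset.single_le_sum (f := fun w => |Real.log (D.σ w (u p * p))|)
        (fun _ _ => abs_nonneg _) (Finset.mem_univ w)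
    have h2 := hu p hp0
    have h3 : 0 < |D.σ w (u p * p)| :=
      abs_pos.2 (D.σ_ne (mul_ne_zero (u p).ne_zero hp0) w)
    rw [← Real.log_le_iff_le_exp h3, Real.log_abs]
    linarith [le_abs_self (Real.log (D.σ w (u p * p)))]
  · intro p hp q hq hpq
    have hp1 := (Finset.mem_filter.1 (Finset.mem_coe.1 hp)).1
    have hq1 := (Finset.mem_filter.1 (Finset.mem_coe.1 hq)).1
    refine setup_norm_eq hp1 hq1 ?_
    have : p ∣ (u q : O) * q := by
      have e : (u p : O) * p = u q * q := hpq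
      rw [← e]; exact Dvd.intro_left _ rfl
    exact (Units.dvd_mul_left).1 this

theorem Dat.few_pow (C ε : ℝ) (hC : 1 ≤ C) (hε : 0 < ε) : ∃ C' : ℝ, 1 ≤ C' ∧ ∀ t : O,
    ∏ p ∈ primeFactors t, (C * (Real.log (D.N p) + 1)) ≤ C' * D.rad t ^ ε := by
  set B : ℝ := C * (2 / ε + 1) with hB
  have hB1 : 1 ≤ B := one_le_mul_of_one_le_of_one_le hC (by
    have : 0 < 2 / ε := by positivity
    linarith)
  obtain ⟨M, hM⟩ := D.setup_small (2 / ε * Real.log B)
  refine ⟨B ^ M, one_le_pow₀ hB1, fun t => ?_⟩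
  have key : ∀ p ∈ primeFactors t, C * (Real.log (D.N p) + 1) ≤
      (if Real.log (D.N p) ≤ 2 / ε * Real.log B then B else 1) * D.N p ^ ε := by
    intro p hp
    have h1 := D.one_le_N (prime_of_mem hp).ne_zero
    have h0 : 0 < D.N p := by linarith only [h1]
    have h2 : Real.log (D.N p) ≤ D.N p ^ (ε / 2) / (ε / 2) :=
      Real.log_le_rpow_div h0.le (by positivity)
    have h3 : 1 ≤ D.N p ^ (ε / 2) := Real.one_le_rpow h1 (by positivity)
    have h4 : C * (Real.log (D.N p) + 1) ≤ B * D.N p ^ (ε / 2) := by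
      rw [hB, mul_assoc]
      refine mul_le_mul_of_nonneg_left ?_ (by linarith only [hC])
      have : D.N p ^ (ε / 2) / (ε / 2) = 2 / ε * D.N p ^ (ε / 2) := by field_simp
      linarith only [h2, h3, this]
    have h5 : D.N p ^ ε = D.N p ^ (ε / 2) * D.N p ^ (ε / 2) := by
      rw [← Real.rpow_add h0]; congr 1; ring
    refine h4.trans ?_
    split_ifs with hs
    · refine mul_le_mul_of_nonneg_left ?_ (by linarith only [hB1])
      rw [h5]; exact le_mul_of_one_le_left (by linarith only [h3]) h3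
    · rw [one_mul, h5]
      refine mul_le_mul_of_nonneg_right ?_ (by linarith only [h3])
      rw [Real.rpow_def_of_pos h0, ← Real.log_le_iff_le_exp (by linarith only [hB1])]
      have h6 : ε / 2 * (2 / ε * Real.log B) ≤ ε / 2 * Real.log (D.N p) :=
        mul_le_mul_of_nonneg_left (not_le.1 hs).le (by positivity)
      have h7 : ε / 2 * (2 / ε * Real.log B) = Real.log B := by field_simp
      linarith only [h6, h7]
  refine (Finset.prod_le_prod (fun p hp => ?_) key).trans ?_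
  · have := Real.log_nonneg (D.one_le_N (prime_of_mem hp).ne_zero)
    positivity
  · rw [Finset.prod_mul_distrib, Dat.rad, Real.finsetProd_rpow _ _ (fun p _ => D.N_nonneg p),
      Finset.prod_ite, Finset.prod_const, Finset.prod_const_one, mul_one]
    exact mul_le_mul_of_nonneg_right (pow_le_pow_right₀ hB1 (hM t))
      (Real.rpow_nonneg (Finset.prod_nonneg fun p _ => D.N_nonneg p) _)

theorem setup_fac (P : Finset O) (u : O → Oˣ) {y : O} (hy : y ≠ 0) (hP : primeFactors y ⊆ P) :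
    ∃ v : Oˣ, (∏ p ∈ P, ((u p : O) * p) ^ (normalizedFactors y).count p) * v = y := by
  have h1 := prod_normalizedFactors hy
  rw [Finset.prod_multiset_count_of_subset _ P
    fun p hp => hP (mem_primeFactors.2 (Multiset.mem_toFinset.1 hp))] at h1
  refine Associated.trans (Associated.prod _ _ _ fun p _ => Associated.pow_pow ?_) h1
  exact (associated_unit_mul_left p _ (u p).isUnit)

theorem Dat.setup_F {n : ℕ} {α : Fin n → O} (hα : ∀ j, α j ≠ 0)
    (hc : Pairwise fun i j => IsCoprime (α i) (α j)) (b : Fin n → ℤ) {y z : O} (hz : z ≠ 0)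
    (hyz : IsCoprime y z) (he : algebraMap O K y / algebraMap O K z = pw K α b) :
    D.F α (fun j => (b j : ℝ)) = Real.log (D.Hm y z) := by
  obtain ⟨p, q, _, hq, hpq, e, hH⟩ := D.F_eq K hα hc b
  have inj := IsFractionRing.injective O K
  have hz' : algebraMap O K z ≠ 0 := (map_ne_zero_iff _ inj).2 hz
  have hq' : algebraMap O K q ≠ 0 := (map_ne_zero_iff _ inj).2 hq
  rw [e, div_eq_div_iff hz' hq', ← map_mul, ← map_mul] at he
  have e1 : y * q = p * z := inj he
  rw [le_antisymm (D.Hm_min hyz hq e1) (D.Hm_min hpq hz e1.symm), hH, Real.log_exp]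

theorem Dat.setup (C ε : ℝ) (hC : 1 ≤ C) (hε : 0 < ε) : ∃ C' : ℝ, 1 ≤ C' ∧ ∀ y z : O, y ≠ 0 →
    z ≠ 0 → IsCoprime y z → ∀ h : ℝ, Real.log (D.Hm y z) ≤ h → h / 2 ≤ Real.log (D.Hm y z) →
    ∃ (n : ℕ) (α : Fin n → O) (A : Fin n → ℝ) (b : Fin n → ℤ),
      D.Gen K α A b (-algebraMap O K y / algebraMap O K z) h ∧ (∀ j, α j ∣ y * z) ∧
      ∏ j, (C * A j) ≤ C' * D.rad (y * z) ^ ε := by
  obtain ⟨C', hC', hfew⟩ := D.few_pow C ε hC hε
  obtain ⟨u, hu⟩ := D.setup_bal
  refine ⟨C * C', one_le_mul_of_one_le_of_one_le hC hC', fun y z hy hz hyz h hh1 hh2 => ?_⟩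
  have hyz0 := mul_ne_zero hy hz
  have hsub : ∀ a : O, a ∣ y * z → primeFactors a ⊆ primeFactors (y * z) := fun a ha p hp =>
    mem_primeFactors.2 (Multiset.mem_of_le
      ((dvd_iff_normalizedFactors_le_normalizedFactors (ne_zero_of_dvd_ne_zero hyz0 ha) hyz0).1 ha)
      (mem_primeFactors.1 hp))
  obtain ⟨vy, hvy⟩ := setup_fac _ u hy (hsub y (Dvd.intro _ rfl))
  obtain ⟨vz, hvz⟩ := setup_fac _ u hz (hsub z (Dvd.intro_left _ rfl))
  obtain ⟨k, hk⟩ := D.unit_gen (vy * vz⁻¹)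
  have hpr := hfew (y * z)
  generalize hP : primeFactors (y * z) = P at hvy hvz hpr
  have hPm : ∀ p : P, (p : O) ∈ primeFactors (y * z) := fun p => hP ▸ p.2
  let e : Fin P.card ≃ P := P.equivFin.symm
  let α : Fin (P.card + 1) → O := Fin.cons (D.φ : O) fun j => (u (e j) : O) * e j
  let A : Fin (P.card + 1) → ℝ := Fin.cons 1 fun j => Real.log (D.N (e j)) + 1
  let b : Fin (P.card + 1) → ℤ := Fin.cons k fun j =>
    ((normalizedFactors y).count (e j : O) : ℤ) - ((normalizedFactors z).count (e j : O) : ℤ)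
  have hne : ∀ j, α j ≠ 0 := by
    intro j
    refine Fin.cases ?_ (fun j => ?_) j
    · exact D.φ.ne_zero
    · exact mul_ne_zero (u _).ne_zero (prime_of_mem (hPm _)).ne_zero
  have hφ : ∀ a : O, IsCoprime (D.φ : O) a := fun a => ⟨(D.φ⁻¹ : Oˣ), 0, by simp⟩
  have hcop : Pairwise fun i j => IsCoprime (α i) (α j) := by
    intro i j
    refine Fin.cases (fun _ => hφ _) (fun i => ?_) i
    refine Fin.cases (fun _ => (hφ _).symm) (fun j hij => ?_) j
    change IsCoprime ((u (e i) : O) * e i) ((u (e j) : O) * e j)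
    rw [isCoprime_mul_unit_left_left (u _).isUnit, isCoprime_mul_unit_left_right (u _).isUnit,
      (prime_of_mem (hPm _)).irreducible.coprime_iff_not_dvd]
    intro hd
    exact hij (congrArg Fin.succ (e.injective (Subtype.ext (setup_norm_eq (hPm _) (hPm _) hd))))
  have inj := IsFractionRing.injective O K
  have hne' : ∀ a : O, a ≠ 0 → algebraMap O K a ≠ 0 := fun a ha => (map_ne_zero_iff _ inj).2 ha
  have hpw : algebraMap O K y / algebraMap O K z = pw K α b ∨
      algebraMap O K (-y) / algebraMap O K z = pw K α b := by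
    have h1 : ∀ c : O → ℕ, algebraMap O K (∏ p ∈ P, ((u p : O) * p) ^ c p) =
        ∏ j : Fin P.card, algebraMap O K ((u (e j) : O) * e j) ^ c (e j) := by
      intro c
      rw [map_prod, ← Finset.prod_coe_sort P, ← e.prod_comp]
      simp only [map_pow]
    have h2 : pw K α b = algebraMap O K D.φ ^ k *
        (algebraMap O K (∏ p ∈ P, ((u p : O) * p) ^ (normalizedFactors y).count p) /
          algebraMap O K (∏ p ∈ P, ((u p : O) * p) ^ (normalizedFactors z).count p)) := by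
      rw [h1 fun p => (normalizedFactors y).count p, h1 fun p => (normalizedFactors z).count p,
        pw, Fin.prod_univ_succ, ← Finset.prod_div_distrib]
      congr 1
      refine Finset.prod_congr rfl fun j _ => ?_
      have := zpow_sub₀ (hne' _ (hne j.succ)) ((normalizedFactors y).count (e j : O) : ℤ)
        ((normalizedFactors z).count (e j : O) : ℤ)
      rw [zpow_natCast, zpow_natCast] at this
      exact this
    have h3 : algebraMap O K ((D.φ ^ k : Oˣ) : O) = algebraMap O K D.φ ^ k := by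
      exact map_zpow ((algebraMap O K : O →* K).comp (Units.coeHom O)) D.φ k
    have hz1 : algebraMap O K (∏ p ∈ P, ((u p : O) * p) ^ (normalizedFactors z).count p) ≠ 0 :=
      hne' _ (left_ne_zero_of_mul (hvz.symm ▸ hz))
    have hvz' := hne' _ vz.ne_zero
    rw [h2, ← h3]
    generalize (∏ p ∈ P, ((u p : O) * p) ^ (normalizedFactors y).count p) = Y at *
    generalize (∏ p ∈ P, ((u p : O) * p) ^ (normalizedFactors z).count p) = Z at *
    rw [← hvy, ← hvz]
    rcases hk with hk | hk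
    · left
      have : (vy : O) = (D.φ ^ k : Oˣ) * vz := by
        rw [← Units.val_mul, ← hk]; simp
      rw [this]; simp only [map_mul]; field_simp
    · right
      have : (vy : O) = -((D.φ ^ k : Oˣ) * vz) := by
        rw [← neg_mul, ← Units.val_neg, ← Units.val_mul, ← hk]; simp
      rw [this]; simp only [map_mul, map_neg]; field_simp
  have hF : D.F α (fun j => (b j : ℝ)) = Real.log (D.Hm y z) := by
    rcases hpw with h1 | h1
    · exact D.setup_F K hne hcop b hz hyz h1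
    · rw [D.setup_F K hne hcop b hz hyz.neg_left h1]
      simp only [Hm, map_neg, abs_neg]
  refine ⟨P.card + 1, α, A, b, ⟨hne, hcop, fun j => ?_, fun j => ?_, ?_, hF ▸ hh1, hF ▸ hh2⟩,
    fun j => ?_, ?_⟩
  · refine Fin.cases le_rfl (fun j => ?_) j
    have := Real.log_nonneg (D.one_le_N (prime_of_mem (hPm (e j))).ne_zero)
    change 1 ≤ Real.log (D.N (e j)) + 1
    linarith only [this]
  · refine Fin.cases D.φ_le (fun j => ?_) j
    exact hu _ (prime_of_mem (hPm (e j))).ne_zero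
  · rcases hpw with h1 | h1
    · right; rw [← h1, neg_div]
    · left; rw [← h1, map_neg]
  · refine Fin.cases D.φ.isUnit.dvd (fun j => ?_) j
    exact Units.mul_left_dvd.2 (dvd_of_mem_normalizedFactors (mem_primeFactors.1 (hPm (e j))))
  · rw [Fin.prod_univ_succ, mul_assoc C C']
    rw [← Finset.prod_coe_sort P, ← e.prod_comp] at hpr
    change C * 1 * ∏ j : Fin P.card, C * (Real.log (D.N (e j)) + 1) ≤ _
    rw [mul_one]
    exact mul_le_mul_of_nonneg_left hpr (by linarith only [hC])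

theorem kill_pw_ne {n : ℕ} {α : Fin n → O} (hα : ∀ j, α j ≠ 0) (μ : Fin n → ℤ) :
    pw K α μ ≠ 0 :=
  Finset.prod_ne_zero_iff.2 fun j _ => zpow_ne_zero _
    ((map_ne_zero_iff _ (IsFractionRing.injective O K)).2 (hα j))

theorem kill_pw_comb {n : ℕ} {α : Fin n → O} (hα : ∀ j, α j ≠ 0) (a b c : Fin n → ℤ) (s t : ℤ) :
    pw K α (fun j => s * a j + t * b j - c j) = pw K α a ^ s * pw K α b ^ t / pw K α c := by
  unfold pw
  rw [← Finset.prod_zpow, ← Finset.prod_zpow, ← Finset.prod_mul_distrib, ← Finset.prod_div_distrib]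
  refine Finset.prod_congr rfl fun j _ => ?_
  have h : algebraMap O K (α j) ≠ 0 := (map_ne_zero_iff _ (IsFractionRing.injective O K)).2 (hα j)
  rw [zpow_sub₀ h, zpow_add₀ h, ← zpow_mul, ← zpow_mul, mul_comm s, mul_comm t]

theorem kill_log {n : ℕ} {α : Fin n → O} (hα : ∀ j, α j ≠ 0) (ν : AbsoluteValue K ℝ)
    (μ : Fin n → ℤ) :
    Real.log (ν (pw K α μ)) = ∑ j, (μ j : ℝ) * Real.log (ν (algebraMap O K (α j))) := by
  have h : ∀ j, ν (algebraMap O K (α j)) ≠ 0 := fun j =>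
    ν.ne_zero ((map_ne_zero_iff _ (IsFractionRing.injective O K)).2 (hα j))
  unfold pw
  rw [map_prod, Real.log_prod fun j _ => by rw [map_zpow₀]; exact zpow_ne_zero _ (h j)]
  exact Finset.sum_congr rfl fun j _ => by rw [map_zpow₀, Real.log_zpow]

theorem Dat.kill_HL {n : ℕ} {α : Fin n → O} (hα : ∀ j, α j ≠ 0)
    (hc : Pairwise fun i j => IsCoprime (α i) (α j)) (μ : Fin n → ℤ) :
    D.HL K (pw K α μ) (D.F α fun j => (μ j : ℝ)) := by
  obtain ⟨p, q, -, hq, -, e, hH⟩ := D.F_eq K hα hc μ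
  exact ⟨p, q, hq, e, hH.le⟩

theorem kill_fract {n : ℕ} (b : Fin n → ℤ) (w : ℝ) (j : Fin n) :
    |w * (b j : ℝ) - (fl b w j : ℤ)| ≤ 1 := by
  unfold fl
  rw [abs_le]
  constructor <;> linarith [Int.floor_le (w * (b j : ℝ)), Int.lt_floor_add_one (w * (b j : ℝ))]

theorem Dat.kill_Z {n : ℕ} {α : Fin n → O} {A : Fin n → ℝ} {b : Fin n → ℤ} {ψ : K} {h : ℝ}
    (G : D.Gen K α A b ψ h) (ν : AbsoluteValue K ℝ)
    (hα : ∀ j, |Real.log (ν (algebraMap O K (α j)))| ≤ A j) {U w : ℝ}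
    (hψ : ν (ψ - 1) ≤ Real.exp (-U)) (hU : Real.log 2 ≤ U) (hw : w ∈ Set.Icc (0 : ℝ) 1) :
    ν (pw K α (fl b w))⁻¹ ≤ Real.exp (2 * ∑ j, A j + 1) := by
  have hA : 0 ≤ ∑ j, A j := Finset.sum_nonneg fun j _ => zero_le_one.trans (G.one_le j)
  have h1 : Real.exp (-U) ≤ 1 / 2 := by
    rw [one_div, ← Real.exp_log (show (0 : ℝ) < 2 by norm_num), ← Real.exp_neg]
    exact Real.exp_le_exp.2 (neg_le_neg hU)
  have h2 : 1 / 2 ≤ ν ψ := by
    have := ν.add_le (1 - ψ) ψ
    rw [sub_add_cancel, map_one, ν.map_sub] at this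
    linarith
  have h3 : ν ψ = ν (pw K α b) := by
    rcases G.eq with e | e
    · rw [e]
    · rw [e, ν.map_neg]
  have h4 : -1 ≤ Real.log (ν (pw K α b)) := by
    have := Real.log_le_log (by norm_num) (h3 ▸ h2)
    rw [one_div, Real.log_inv] at this
    linarith only [Real.log_two_lt_d9, this]
  have h5 : -1 ≤ w * Real.log (ν (pw K α b)) := by nlinarith only [hw.1, hw.2, h4]
  have h6 : w * Real.log (ν (pw K α b)) - Real.log (ν (pw K α (fl b w))) ≤ ∑ j, A j := by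
    rw [kill_log K G.ne, kill_log K G.ne, Finset.mul_sum, ← Finset.sum_sub_distrib]
    refine Finset.sum_le_sum fun j _ => ?_
    rw [← mul_assoc, ← sub_mul]
    refine (le_abs_self _).trans ?_
    rw [abs_mul]
    exact (mul_le_of_le_one_left (abs_nonneg _) (kill_fract b w j)).trans (hα j)
  rw [map_inv₀, ← Real.exp_log (ν.pos (kill_pw_ne K G.ne (fl b w))), ← Real.exp_neg]
  exact Real.exp_le_exp.2 (by linarith only [hA, h5, h6])

theorem Dat.kill_F {n : ℕ} {α : Fin n → O} {A : Fin n → ℝ} {b : Fin n → ℤ} {ψ : K} {h : ℝ}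
    (G : D.Gen K α A b ψ h) {μ : Fin n → ℤ} {τ : ℝ}
    (hs : ∑ j, |(μ j : ℝ) - τ * b j| * A j ≤ n) (w : ℝ) (s t : ℤ) :
    D.F α (fun j => ((s * b j + t * μ j - fl b w j : ℤ) : ℝ)) ≤
      h * |s + t * τ - w| + |(t : ℝ)| * (2 * n) + 2 * ∑ j, A j := by
  have e : (fun j => ((s * b j + t * μ j - fl b w j : ℤ) : ℝ)) = fun j =>
      ((s + t * τ - w) * (b j : ℝ) + t * ((μ j : ℝ) - τ * b j)) +
        (w * (b j : ℝ) - (fl b w j : ℤ)) := by
    funext j
    push_cast
    ring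
  have h1 := D.F_add G.ne (fun j => (s + t * τ - w) * (b j : ℝ) + t * ((μ j : ℝ) - τ * b j))
    fun j => w * (b j : ℝ) - (fl b w j : ℤ)
  have h2 := D.F_add G.ne (fun j => (s + t * τ - w) * (b j : ℝ))
    fun j => t * ((μ j : ℝ) - τ * b j)
  rw [D.F_smul G.ne, D.F_smul G.ne] at h2
  have h3 := mul_le_mul_of_nonneg_left G.up (abs_nonneg (s + t * τ - w))
  have h4 := mul_le_mul_of_nonneg_left ((D.F_le G.ne G.sz fun j => (μ j : ℝ) - τ * b j).trans
    (mul_le_mul_of_nonneg_left hs zero_le_two)) (abs_nonneg (t : ℝ))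
  have h5 := D.F_le G.ne G.sz fun j => w * (b j : ℝ) - (fl b w j : ℤ)
  have h6 : ∑ j, |w * (b j : ℝ) - (fl b w j : ℤ)| * A j ≤ ∑ j, A j :=
    Finset.sum_le_sum fun j _ =>
      mul_le_of_le_one_left (zero_le_one.trans (G.one_le j)) (kill_fract b w j)
  rw [e]
  linarith

theorem Dat.kill_lo {n : ℕ} {α : Fin n → O} {A : Fin n → ℝ} {b : Fin n → ℤ} {ψ : K} {h : ℝ}
    (G : D.Gen K α A b ψ h) {μ : Fin n → ℤ} {τ : ℝ}
    (hs : ∑ j, |(μ j : ℝ) - τ * b j| * A j ≤ n) :
    |τ| * (h / 2) - 2 * n ≤ D.F α fun j => (μ j : ℝ) := by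
  have h1 := D.F_add G.ne (fun j => (μ j : ℝ)) fun j => (-1) * ((μ j : ℝ) - τ * b j)
  have e : (fun j => (μ j : ℝ) + (-1) * ((μ j : ℝ) - τ * b j)) = fun j => τ * (b j : ℝ) := by
    funext j
    ring
  rw [e, D.F_smul G.ne, D.F_smul G.ne, abs_neg, abs_one, one_mul] at h1
  have h2 := mul_le_mul_of_nonneg_left G.lo (abs_nonneg τ)
  have h3 := D.F_le G.ne G.sz fun j => (μ j : ℝ) - τ * b j
  linarith

theorem Dat.kill {n : ℕ} {α : Fin n → O} {A : Fin n → ℝ} {b : Fin n → ℤ} {ψ : K} {h : ℝ}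
    (G : D.Gen K α A b ψ h) {I : Type*} (S : Finset I) (ν : I → AbsoluteValue K ℝ)
    (hν : ∀ i ∈ S, ∀ m : ℕ, ν i m ≤ m) (hL : D.Liou K S ν)
    (hα : ∀ i ∈ S, ∀ j, |Real.log (ν i (algebraMap O K (α j)))| ≤ A j)
    (U g : I → ℝ) (y δ κ TW : ℝ) (hψ : ∀ i ∈ S, ν i (ψ - 1) ≤ Real.exp (-U i))
    (hU2 : ∀ i ∈ S, Real.log 2 ≤ U i) (hg2 : ∀ i ∈ S, Real.log 2 ≤ g i)
    (hy : ∀ i ∈ S, U i ≤ y * g i) (hδ : 0 < δ) (hδ1 : δ ≤ 1) (hlo : δ * h ≤ ∑ i ∈ S, U i)
    (hhi : ∑ i ∈ S, U i ≤ h) (hκ : 120 * (11 * S.card + 4 * (Fintype.card V : ℕ)) ≤ δ ^ 2 * κ)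
    (hh1 : 960 * κ ≤ δ ^ 3 * h) (hh2 : 60 * (2 + S.card) * (2 * ∑ j, A j + 1) ≤ δ ^ 3 * h)
    (hy0 : y ≤ (1 - δ) * (∑ i ∈ S, U i) ^ 2 / (3 * κ * h))
    (W : Finset O) (hW0 : ∀ u ∈ W, u ≠ 0) (hW : ∀ u ∈ W, ∀ u' ∈ W, D.Hm u u' ≤ TW)
    (hTW : 1 ≤ TW) (hκW : 2 * n + Real.log TW ≤ κ) {γ : Type*} (Γ : Finset γ) (col : ℝ → O → γ)
    (hΓ : ∀ x ∈ Set.Icc (0 : ℝ) 1, ∀ u ∈ W, col x u ∈ Γ)
    (hcol : ∀ x ∈ Set.Icc (0 : ℝ) 1, ∀ x' ∈ Set.Icc (0 : ℝ) 1, ∀ u ∈ W, ∀ u' ∈ W,
      col x u = col x' u' → (x = x' → u = u') ∧ ∀ i ∈ S, ν i (pw K α (fl b x) * algebraMap O K u /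
        (pw K α (fl b x') * algebraMap O K u') - 1) ≤ Real.exp (-g i)) :
    δ ^ 3 * h * W.card ≤ 960 * κ * Γ.card * ∏ j, (2 * A j) := by
  classical
  by_contra hneg
  rw [not_le] at hneg
  have hV : (1 : ℝ) ≤ (Fintype.card V : ℕ) := by exact_mod_cast D.pos_card
  have hS : (0 : ℝ) ≤ S.card := Nat.cast_nonneg _
  have hd2 : δ ^ 2 ≤ 1 := pow_le_one₀ hδ.le hδ1
  have hd3 : δ ^ 3 ≤ 1 := pow_le_one₀ hδ.le hδ1
  have hκ0 : 0 < κ := (mul_pos_iff_of_pos_left (pow_pos hδ 2)).1 (by linarith only [hκ, hV])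
  have hκ1 : 480 ≤ κ := by linarith only [mul_le_of_le_one_left hκ0.le hd2, hκ, hV]
  have hh : 0 < h := (mul_pos_iff_of_pos_left (pow_pos hδ 3)).1 (by linarith only [hh1, hκ1])
  have hA : 0 ≤ ∑ j, A j := Finset.sum_nonneg fun j _ => zero_le_one.trans (G.one_le j)
  have hlT : 0 ≤ Real.log TW := Real.log_nonneg hTW
  obtain ⟨θ, hθ⟩ : ∃ θ : ℝ, θ = 4 * κ / h := ⟨_, rfl⟩
  have hθ0 : 0 < θ := by rw [hθ]; positivity
  obtain ⟨q, hq⟩ : ∃ q : ℝ, q = δ ^ 3 * h / (480 * κ) := ⟨_, rfl⟩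
  have hq2 : 2 ≤ q := by rw [hq, le_div_iff₀ (by positivity)]; linarith only [hh1]
  have hqθ : q * θ = δ ^ 3 / 120 := by rw [hq, hθ]; field_simp; norm_num
  have hX : ∀ x ∈ (range ⌊q⌋₊).image fun i : ℕ => (i : ℝ) * θ, 0 ≤ x ∧ x ≤ δ ^ 3 / 120 := by
    intro x hx
    obtain ⟨i, hi, rfl⟩ := Finset.mem_image.1 hx
    refine ⟨by positivity, hqθ ▸ mul_le_mul_of_nonneg_right ?_ hθ0.le⟩
    exact (Nat.cast_le.2 (Finset.mem_range.1 hi).le).trans (Nat.floor_le (by linarith only [hq2]))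
  have hX' : ∀ x ∈ (range ⌊q⌋₊).image fun i : ℕ => (i : ℝ) * θ, x ∈ Set.Icc (0 : ℝ) 1 :=
    fun x hx => ⟨(hX x hx).1, by linarith only [(hX x hx).2, hd3]⟩
  obtain ⟨x, hx, x', hx', u, hu, u', hu', hne, hc, hs⟩ := pigeon A G.one_le b
    ((range ⌊q⌋₊).image fun i : ℕ => (i : ℝ) * θ) W Γ col (fun x hx => hΓ x (hX' x hx)) (by
      rw [Finset.card_image_of_injective _ fun i j e =>
        Nat.cast_injective (R := ℝ) (mul_right_cancel₀ hθ0.ne' e), Finset.card_range]
      have h1 : q / 2 ≤ ⌊q⌋₊ := by linarith only [Nat.lt_floor_add_one q, hq2]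
      have h2 : δ ^ 3 * h = 960 * κ * (q / 2) := by rw [hq]; field_simp; norm_num
      rw [h2, mul_assoc, mul_assoc (960 * κ)] at hneg
      exact (lt_of_mul_lt_mul_left hneg (by positivity)).trans_le
        (mul_le_mul_of_nonneg_right h1 (Nat.cast_nonneg _)))
  obtain ⟨c1, c2⟩ := hcol x (hX' x hx) x' (hX' x' hx') u hu u' hu' hc
  have hxx : x ≠ x' := fun e => hne.elim (fun k => k e) fun k => k (c1 e)
  have hτ1 : θ ≤ |x - x'| := by
    obtain ⟨i, -, rfl⟩ := Finset.mem_image.1 hx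
    obtain ⟨i', -, rfl⟩ := Finset.mem_image.1 hx'
    have h1 : (i : ℤ) - i' ≠ 0 := fun e => hxx (by rw [Nat.cast_inj.1 (sub_eq_zero.1 e)])
    have h2 : (1 : ℝ) ≤ |(i : ℝ) - i'| := by exact_mod_cast Int.one_le_abs h1
    rw [← sub_mul, abs_mul, abs_of_pos hθ0]
    exact le_mul_of_one_le_left hθ0.le h2
  have hτ2 : |x - x'| ≤ δ ^ 3 / 120 := by
    rw [abs_le]
    constructor <;> linarith only [(hX x hx).1, (hX x hx).2, (hX x' hx').1, (hX x' hx').2]
  obtain ⟨μ, hμ⟩ : ∃ μ : Fin n → ℤ, μ = fun j => fl b x j - fl b x' j := ⟨_, rfl⟩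
  have hs' : ∑ j, |(μ j : ℝ) - (x - x') * b j| * A j ≤ n := by rw [hμ]; exact hs
  have hu0 : algebraMap O K u ≠ 0 :=
    (map_ne_zero_iff _ (IsFractionRing.injective O K)).2 (hW0 u hu)
  have hu0' : algebraMap O K u' ≠ 0 :=
    (map_ne_zero_iff _ (IsFractionRing.injective O K)).2 (hW0 u' hu')
  have hη : pw K α (fl b x) * algebraMap O K u / (pw K α (fl b x') * algebraMap O K u') =
      pw K α μ * (algebraMap O K u / algebraMap O K u') := by
    have := kill_pw_comb K G.ne (fl b x) (fl b x) (fl b x') 1 0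
    simp only [one_mul, zero_mul, add_zero, zpow_one, zpow_zero, mul_one] at this
    rw [hμ, this, mul_div_mul_comm]
  rw [hη] at c2
  have hη1 : pw K α μ * (algebraMap O K u / algebraMap O K u') ≠ 1 := by
    intro e
    obtain ⟨p, r, -, hr, hpr, e1, e2⟩ := D.F_eq K G.ne G.cop μ
    have hr0 : algebraMap O K r ≠ 0 := (map_ne_zero_iff _ (IsFractionRing.injective O K)).2 hr
    rw [e1, div_mul_div_comm, div_eq_one_iff_eq (mul_ne_zero hr0 hu0'), ← map_mul, ← map_mul] at e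
    have h1 := (D.Hm_min hpr (hW0 u hu)
      ((IsFractionRing.injective O K e).trans (mul_comm r u'))).trans (hW u' hu' u hu)
    rw [e2, ← Real.le_log_iff_exp_le (by linarith only [hTW, hd3, hθ0, hτ1, hτ2])] at h1
    have h2 := D.kill_lo K G hs'
    have h3 := mul_le_mul_of_nonneg_right hτ1 (half_pos hh).le
    have h4 : θ * (h / 2) = 2 * κ := by rw [hθ]; field_simp; norm_num
    linarith only [hκW, hd3, hκ1, hθ0, hτ1, hτ2, h1, h2, h3, h4]
  have hψ0 : ψ ≠ 0 := by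
    rcases G.eq with e | e
    · exact e ▸ kill_pw_ne K G.ne b
    · exact e ▸ neg_ne_zero.2 (kill_pw_ne K G.ne b)
  refine absurd (core S ν hν (D.HL K) (Fintype.card V) (D.det_liou K hL) ψ _ hψ0
    (mul_ne_zero (kill_pw_ne K G.ne μ) (div_ne_zero hu0 hu0')) hη1 U g y δ h κ (x - x')
    (2 * ∑ j, A j + 1) hψ c2 hU2 hg2 hy hδ hδ1 hlo hhi hτ2 (by linarith only [hd3, hκ1, hθ0, hτ1, hτ2]) hκ (by linarith only [hd3, hA, hθ0, hτ1, hτ2])
    (by linarith only [hh1, hd3, hκ1, hθ0, hτ1, hτ2]) hh2 fun w hw => ⟨pw K α (fl b w), kill_pw_ne K G.ne _, fun i hi =>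
      D.kill_Z K G (ν i) (hα i hi) (hψ i hi) (hU2 i hi) hw, fun s t => ?_⟩) (not_lt.2 hy0)
  have h1 : D.HL K (algebraMap O K u / algebraMap O K u') (Real.log TW) :=
    ⟨u, u', hW0 u' hu', rfl, by rw [Real.exp_log (by linarith only [hTW, hd3, hθ0, hτ1, hτ2])]; exact hW u hu u' hu'⟩
  have h2 := D.HL_mono K (D.HL_mul K (D.kill_HL K G.ne G.cop fun j => s * b j + t * μ j - fl b w j)
    (D.HL_zpow K h1 (div_ne_zero hu0 hu0') t))
    (x' := h * |s + t * (x - x') - w| + κ * |(t : ℝ)| + (2 * ∑ j, A j + 1)) (by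
      have h3 := D.kill_F K G hs' w s t
      have h4 := mul_le_mul_of_nonneg_left hκW (abs_nonneg (t : ℝ))
      linarith only [h3, h4])
  rw [kill_pw_comb K G.ne] at h2
  have h3 : ψ ^ s = pw K α b ^ s ∨ ψ ^ s = -pw K α b ^ s := by
    rcases G.eq with e | e
    · exact Or.inl (by rw [e])
    · rcases Int.even_or_odd s with k | k
      · exact Or.inl (by rw [e, k.neg_zpow])
      · exact Or.inr (by rw [e, k.neg_zpow])
  rcases h3 with e | e
  · convert h2 using 1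
    rw [e, mul_zpow]
    ring
  · convert D.HL_neg K h2 using 1
    rw [e, mul_zpow]
    ring

theorem Dat.fin_abv (p : O) : ∃ ν : AbsoluteValue K ℝ, Prime p →
    ν (algebraMap O K p) = (D.N p)⁻¹ ∧ (∀ r, ν (algebraMap O K r) ≤ 1) ∧
      ∀ r, ¬p ∣ r → ν (algebraMap O K r) = 1 := by
  classical
  by_cases hp : Prime p
  swap
  · exact ⟨AbsoluteValue.trivial, fun h => absurd h hp⟩
  let v : IsDedekindDomain.HeightOneSpectrum O :=
    ⟨Ideal.span {p}, (Ideal.span_singleton_prime hp.ne_zero).2 hp, by simpa only [ne_eq, Submodule.span_eq_bot, Set.mem_singleton_iff, forall_eq] using hp.ne_zero⟩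
  obtain ⟨B, hB⟩ : ∃ B : NNReal, (B : ℝ) = D.N p := ⟨⟨D.N p, D.N_nonneg p⟩, rfl⟩
  have hb : 1 < B := by
    have := D.two_le_N hp
    exact NNReal.coe_lt_coe.1 (show (1 : ℝ) < B by linarith)
  refine ⟨v.adicAbv hb, fun _ => ⟨?_, fun r => v.adicAbv_coe_le_one hb r, fun r hr =>
    (v.adicAbv_coe_eq_one_iff hb r).2 (fun h => hr (Ideal.mem_span_singleton.1 h))⟩⟩
  rw [v.adicAbv_of_algebraMap hb]
  have h1 := v.intValuation_singleton hp.ne_zero rfl
  simp only [IsDedekindDomain.HeightOneSpectrum.intAdicAbv,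
    IsDedekindDomain.HeightOneSpectrum.intAdicAbvDef, AbsoluteValue.coe_mk, MulHom.coe_mk, h1]
  rw [WithZeroMulInt.toNNReal_neg_apply _ WithZero.exp_ne_zero, ← hB, WithZero.toAdd_unzero_eq_log]
  simp

theorem Dat.fin_prod (ν : O → AbsoluteValue K ℝ) (S : Finset O) (hS : ∀ p ∈ S, Prime p)
    (hS' : ∀ p ∈ S, ∀ q ∈ S, p ∣ q → p = q)
    (h1 : ∀ p ∈ S, ν p (algebraMap O K p) = (D.N p)⁻¹)
    (h3 : ∀ p ∈ S, ∀ r, ¬p ∣ r → ν p (algebraMap O K r) = 1) :
    ∀ n : O, n ≠ 0 → (D.N n)⁻¹ ≤ ∏ p ∈ S, ν p (algebraMap O K n) := by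
  induction S using Finset.induction_on with
  | empty => intro n hn; simpa only [prod_empty] using inv_le_one_of_one_le₀ (D.one_le_N hn)
  | insert p S hp ih =>
    intro n hn
    have hpp := hS p (mem_insert_self _ _)
    obtain ⟨k, n', hn', rfl⟩ := WfDvdMonoid.max_power_factor hn hpp.irreducible
    have ih' := ih (fun q hq => hS q (mem_insert_of_mem hq))
      (fun q hq r hr => hS' q (mem_insert_of_mem hq) r (mem_insert_of_mem hr))
      (fun q hq => h1 q (mem_insert_of_mem hq)) (fun q hq => h3 q (mem_insert_of_mem hq)) n'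
      (right_ne_zero_of_mul hn)
    have e : ∏ q ∈ S, ν q (algebraMap O K (p ^ k * n')) = ∏ q ∈ S, ν q (algebraMap O K n') := by
      refine prod_congr rfl fun q hq => ?_
      have : ¬q ∣ p := fun h =>
        hp (hS' q (mem_insert_of_mem hq) p (mem_insert_self _ _) h ▸ hq)
      rw [map_mul, map_pow, map_mul, map_pow, h3 q (mem_insert_of_mem hq) p this, one_pow, one_mul]
    rw [prod_insert hp, e, map_mul, map_pow, map_mul, map_pow, h1 p (mem_insert_self _ _),
      h3 p (mem_insert_self _ _) n' hn', mul_one, D.N_mul, D.N_pow, mul_inv, inv_pow]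
    exact mul_le_mul_of_nonneg_left ih' (inv_nonneg.2 (pow_nonneg (D.N_nonneg p) k))

theorem fin_pw {n : ℕ} {α : Fin n → O} (hα : ∀ j, α j ≠ 0) (b : Fin n → ℤ) {x : ℝ}
    (hx : x ∈ Set.Icc (0 : ℝ) 1) :
    algebraMap O K (∏ j, α j ^ (fl b x j + |b j|).toNat) =
      pw K α (fl b x) * pw K α (fun j => |b j|) := by
  rw [pw, pw, map_prod, ← prod_mul_distrib]
  refine prod_congr rfl fun j _ => ?_
  have h0 : algebraMap O K (α j) ≠ 0 :=
    (map_ne_zero_iff _ (IsFractionRing.injective O K)).2 (hα j)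
  have h1 : 0 ≤ fl b x j + |b j| := by
    have : -|b j| ≤ fl b x j := by
      rw [fl, Int.le_floor]
      push_cast
      nlinarith only [hx.1, hx.2, neg_abs_le (b j : ℝ), abs_nonneg (b j : ℝ)]
    omega
  rw [map_pow, ← zpow_natCast, Int.toNat_of_nonneg h1, zpow_add₀ h0]

theorem Dat.kill_fin {n : ℕ} {α : Fin n → O} {A : Fin n → ℝ} {b : Fin n → ℤ} {ψ : K} {h : ℝ}
    (G : D.Gen K α A b ψ h) (x z : O) (hxz : IsCoprime x z) (hz : z ≠ 0)
    (hψ : ψ - 1 = algebraMap O K x / algebraMap O K z) (hxα : ∀ j, IsCoprime x (α j))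
    (S : Finset O) (hS : ∀ p ∈ S, Prime p) (hS' : ∀ p ∈ S, ∀ q ∈ S, p ∣ q → p = q)
    (v m : O → ℕ) (hv : ∀ p ∈ S, 1 ≤ v p ∧ p ^ v p ∣ x) (hm : ∀ p ∈ S, 1 ≤ m p)
    (y δ κ TW : ℝ) (hy : ∀ p ∈ S, (v p : ℝ) ≤ y * m p) (hδ : 0 < δ) (hδ1 : δ ≤ 1)
    (hlo : δ * h ≤ ∑ p ∈ S, v p * Real.log (D.N p)) (hhi : ∑ p ∈ S, v p * Real.log (D.N p) ≤ h)
    (hκ : 120 * (11 * S.card + 4 * (Fintype.card V : ℕ)) ≤ δ ^ 2 * κ)
    (hh1 : 960 * κ ≤ δ ^ 3 * h) (hh2 : 60 * (2 + S.card) * (2 * ∑ j, A j + 1) ≤ δ ^ 3 * h)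
    (hy0 : y ≤ (1 - δ) * (∑ p ∈ S, v p * Real.log (D.N p)) ^ 2 / (3 * κ * h))
    (W : Finset O) (hW0 : ∀ u ∈ W, u ≠ 0 ∧ ∀ p ∈ S, ¬p ∣ u)
    (hW1 : ∀ u ∈ W, ∀ u' ∈ W, ∏ p ∈ S, p ^ m p ∣ u - u' → u = u')
    (hW : ∀ u ∈ W, ∀ u' ∈ W, D.Hm u u' ≤ TW) (hTW : 1 ≤ TW) (hκW : 2 * n + Real.log TW ≤ κ) :
    δ ^ 3 * h * W.card ≤ 960 * κ * (∏ p ∈ S, D.N p ^ m p) * ∏ j, (2 * A j) := by
  classical
  choose ν hν using D.fin_abv K
  have h1 := fun p hp => (hν p (hS p hp)).1
  have h2 := fun p hp => (hν p (hS p hp)).2.1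
  have h3 := fun p hp => (hν p (hS p hp)).2.2
  have inj := IsFractionRing.injective O K
  have hpx : ∀ p ∈ S, p ∣ x := fun p hp =>
    (dvd_pow_self p (by have := (hv p hp).1; omega)).trans (hv p hp).2
  have hnd : ∀ p ∈ S, ∀ r, IsCoprime x r → ¬p ∣ r := fun p hp r hr hd =>
    (hS p hp).not_isUnit (hr.isUnit_of_dvd' (hpx p hp) hd)
  have hlog : ∀ p ∈ S, Real.log 2 ≤ Real.log (D.N p) := fun p hp =>
    Real.log_le_log two_pos (D.two_le_N (hS p hp))
  have hl2 : 0 < Real.log 2 := Real.log_pos one_lt_two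
  have hdiv : ∀ p ∈ S, ∀ (k : ℕ) (r s : O), p ^ k ∣ r → ¬p ∣ s →
      ν p (algebraMap O K r / algebraMap O K s) ≤ Real.exp (-(k * Real.log (D.N p))) := by
    rintro p hp k r s ⟨c, rfl⟩ hs
    rw [map_div₀, h3 p hp s hs, div_one, map_mul, map_pow, map_mul, map_pow, h1 p hp,
      Real.exp_neg, ← Real.log_pow, Real.exp_log (pow_pos (D.N_pos (hS p hp).ne_zero) k), inv_pow]
    exact mul_le_of_le_one_right (inv_nonneg.2 (pow_nonneg (D.N_nonneg p) k)) (h2 p hp c)
  have hone : ∀ p ∈ S, ∀ k : ℕ, 1 ≤ k → Real.log 2 ≤ k * Real.log (D.N p) := fun p hp k hk => by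
    have : (1 : ℝ) ≤ k := by exact_mod_cast hk
    nlinarith only [hlog p hp, hl2, this]
  set m0 : O := ∏ p ∈ S, p ^ m p with hm0
  have hm00 : m0 ≠ 0 := prod_ne_zero_iff.2 fun p hp => pow_ne_zero _ (hS p hp).ne_zero
  have hcard : (Nat.card (O ⧸ Ideal.span {m0}) : ℝ) = ∏ p ∈ S, D.N p ^ m p := by
    rw [D.card_quot m0 hm00, ← Dat.N, hm0, D.N_prod]
    exact prod_congr rfl fun p _ => D.N_pow _ _
  have hfin : Finite (O ⧸ Ideal.span {m0}) := Nat.finite_of_card_ne_zero fun e => by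
    have := D.one_le_norm m0 hm00
    rw [← D.card_quot m0 hm00, e] at this
    norm_num at this
  have := Fintype.ofFinite (O ⧸ Ideal.span {m0})
  have hca : ∀ t : ℝ, IsCoprime x (∏ j, α j ^ (fl b t j + |b j|).toNat) := fun t =>
    IsCoprime.prod_right fun j _ => (hxα j).pow_right
  have key := D.kill K G S ν ?_ ?_ ?_ (fun p => v p * Real.log (D.N p))
    (fun p => m p * Real.log (D.N p)) y δ κ TW
    (fun p hp => hψ ▸ hdiv p hp _ x z (hv p hp).2 (hnd p hp z hxz))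
    (fun p hp => hone p hp _ (hv p hp).1) (fun p hp => hone p hp _ (hm p hp))
    (fun p hp => by
      rw [← mul_assoc]
      exact mul_le_mul_of_nonneg_right (hy p hp) (hl2.le.trans (hlog p hp)))
    hδ hδ1 hlo hhi hκ hh1 hh2 hy0 W (fun u hu => (hW0 u hu).1) hW hTW hκW univ
    (fun t u => Ideal.Quotient.mk (Ideal.span {m0}) ((∏ j, α j ^ (fl b t j + |b j|).toNat) * u))
    (fun _ _ _ _ => mem_univ _) ?_
  · rwa [card_univ, ← Nat.card_eq_fintype_card, hcard] at key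
  · intro p hp k
    rcases Nat.eq_zero_or_pos k with rfl | hk
    · simp
    · have := h2 p hp k
      rw [map_natCast] at this
      exact this.trans (by exact_mod_cast hk)
  · intro n' d M hn hd hM
    have hN : D.N n' ≤ ∏ w, M w := prod_le_prod (fun _ _ => abs_nonneg _) fun w _ => (hM w).1
    refine (inv_anti₀ (D.N_pos hn) hN).trans ((D.fin_prod K ν S hS hS' h1 h3 n' hn).trans
      (prod_le_prod (fun p _ => (ν p).nonneg _) fun p hp => ?_))
    rw [map_div₀]
    exact le_div_self ((ν p).nonneg _) ((ν p).pos ((map_ne_zero_iff _ inj).2 hd)) (h2 p hp d)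
  · intro p hp j
    rw [h3 p hp _ (hnd p hp _ (hxα j)), Real.log_one, abs_zero]
    exact zero_le_one.trans (G.one_le j)
  · intro t ht t' ht' u hu u' hu' hc
    have hd := Ideal.mem_span_singleton.1 (Ideal.Quotient.eq.1 hc)
    refine ⟨?_, fun p hp => ?_⟩
    · rintro rfl
      rw [← mul_sub] at hd
      refine hW1 u hu u' hu' (IsCoprime.dvd_of_dvd_mul_left ?_ hd)
      exact IsCoprime.prod_left fun p hp => ((hca t).of_isCoprime_of_dvd_left (hpx p hp)).pow_left
    · have hs : ¬p ∣ (∏ j, α j ^ (fl b t' j + |b j|).toNat) * u' := fun e =>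
        ((hS p hp).dvd_or_dvd e).elim (hnd p hp _ (hca t')) ((hW0 u' hu').2 p hp)
      have hb := hdiv p hp (m p) _ _ ((dvd_prod_of_mem (fun p => p ^ m p) hp).trans hd) hs
      have hpw : ∀ μ, pw K α μ ≠ 0 := fun μ => prod_ne_zero_iff.2 fun j _ =>
        zpow_ne_zero _ ((map_ne_zero_iff _ inj).2 (G.ne j))
      have hu0 : algebraMap O K u' ≠ 0 := (map_ne_zero_iff _ inj).2 (hW0 u' hu').1
      rw [map_sub, map_mul, map_mul, fin_pw K G.ne b ht, fin_pw K G.ne b ht'] at hb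
      convert hb using 2
      have := hpw (fl b t')
      have := hpw fun j => |b j|
      field_simp

theorem arch_log {n : ℕ} (τ : K →+* ℝ) {α : Fin n → O} (hα : ∀ j, τ (algebraMap O K (α j)) ≠ 0)
    (μ : Fin n → ℤ) : τ (pw K α μ) ≠ 0 ∧
      Real.log (τ (pw K α μ)) = ∑ j, (μ j : ℝ) * Real.log (τ (algebraMap O K (α j))) := by
  have e : τ (pw K α μ) = ∏ j, τ (algebraMap O K (α j)) ^ μ j := by
    simp only [pw, map_prod, map_zpow₀]
  rw [e]
  refine ⟨Finset.prod_ne_zero_iff.2 fun j _ => zpow_ne_zero _ (hα j), ?_⟩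
  rw [Real.log_prod fun j _ => zpow_ne_zero _ (hα j)]
  exact Finset.sum_congr rfl fun j _ => Real.log_zpow _ _

theorem arch_close {a a' g : ℝ} (ha : a ≠ 0) (ha' : a' ≠ 0) (hs : 0 < a ↔ 0 < a') (hg : 0 ≤ g)
    (hf : ⌊Real.log a * (2 * Real.exp g)⌋ = ⌊Real.log a' * (2 * Real.exp g)⌋) :
    |a / a' - 1| ≤ Real.exp (-g) := by
  have hp : 0 < a / a' := by
    rcases lt_or_gt_of_ne ha with h | h
    · exact div_pos_of_neg_of_neg h (lt_of_le_of_ne (not_lt.1 fun h' => lt_asymm h (hs.2 h')) ha')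
    · exact div_pos h (hs.1 h)
  have he : 1 ≤ Real.exp g := Real.one_le_exp hg
  have h1 := (Int.abs_sub_lt_one_of_floor_eq_floor hf).le
  rw [← sub_mul, abs_mul, abs_of_pos (by positivity : 0 < 2 * Real.exp g),
    ← Real.log_div ha ha'] at h1
  have h0 := abs_nonneg (Real.log (a / a'))
  have h2 : |Real.log (a / a')| ≤ 1 := by nlinarith only [he, h1]
  have h3 := Real.abs_exp_sub_one_le h2
  rw [Real.exp_log hp] at h3
  refine h3.trans ?_
  rw [Real.exp_neg, ← one_div, le_div_iff₀ (Real.exp_pos g)]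
  linarith only [h1]

theorem arch_one {q U : ℝ} (h : |q - 1| ≤ Real.exp (-U)) (hU : Real.log 2 ≤ U) :
    |Real.log q| ≤ 1 := by
  have h1 : Real.exp (-U) ≤ 1 / 2 := by
    rw [one_div, ← Real.exp_log (show (0 : ℝ) < 2 by norm_num), ← Real.exp_neg]
    exact Real.exp_le_exp.2 (neg_le_neg hU)
  obtain ⟨h2, h3⟩ := abs_le.1 (h.trans h1)
  have hq : 0 < q := by linarith only [h2]
  have h4 := Real.log_le_sub_one_of_pos hq
  have h5 := Real.one_sub_inv_le_log_of_pos hq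
  have h6 : q⁻¹ ≤ 2 := by
    rw [inv_le_comm₀ hq (by norm_num)]
    linarith only [h2]
  rw [abs_le]
  constructor <;> linarith only [h5, h6, h3, h4]

theorem Dat.kill_arch {n : ℕ} {α : Fin n → O} {A : Fin n → ℝ} {b : Fin n → ℤ} {ψ : K} {h : ℝ}
    (G : D.Gen K α A b ψ h) (x z : O) (hz : z ≠ 0)
    (hψ : ψ - 1 = algebraMap O K x / algebraMap O K z) (w : V) (U g y δ κ : ℝ)
    (hx : |D.σ w x| ≤ Real.exp (-U) * |D.σ w z|) (hU2 : Real.log 2 ≤ U) (hg2 : Real.log 2 ≤ g)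
    (hy : U ≤ y * g) (hδ : 0 < δ) (hδ1 : δ ≤ 1) (hlo : δ * h ≤ U) (hhi : U ≤ h)
    (hκ : 120 * (11 + 4 * (Fintype.card V : ℕ)) ≤ δ ^ 2 * κ) (hh1 : 960 * κ ≤ δ ^ 3 * h)
    (hh2 : 180 * (2 * ∑ j, A j + 1) ≤ δ ^ 3 * h) (hy0 : y ≤ (1 - δ) * U ^ 2 / (3 * κ * h))
    (hκW : 2 * n ≤ κ) :
    δ ^ 3 * h ≤ 960 * κ * (20 * (∑ j, A j + 2) * Real.exp g) * ∏ j, (2 * A j) := by
  classical
  have hinj : Function.Injective (D.σ w) :=
    (injective_iff_map_eq_zero _).2 fun a ha => by_contra fun h0 => D.σ_ne h0 w ha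
  obtain ⟨τ, hτ⟩ : ∃ τ : K →+* ℝ, ∀ a, τ (algebraMap O K a) = D.σ w a :=
    ⟨IsFractionRing.lift hinj, fun a => IsFractionRing.lift_algebraMap hinj a⟩
  obtain ⟨ν, hν⟩ : ∃ ν : AbsoluteValue K ℝ, ∀ q, ν q = |τ q| :=
    ⟨AbsoluteValue.abs.comp τ.injective, fun _ => rfl⟩
  have hα0 : ∀ j, τ (algebraMap O K (α j)) ≠ 0 := fun j => by
    rw [hτ]; exact D.σ_ne (G.ne j) w
  have hA : ∀ j, |Real.log (τ (algebraMap O K (α j)))| ≤ A j := fun j => by
    rw [hτ]
    exact (Finset.single_le_sum (f := fun w => |Real.log (D.σ w (α j))|)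
      (fun _ _ => abs_nonneg _) (Finset.mem_univ w)).trans (G.sz j)
  have hψ1 : |τ ψ - 1| ≤ Real.exp (-U) := by
    rw [← map_one τ, ← map_sub, hψ, map_div₀, hτ, hτ, abs_div,
      div_le_iff₀ (abs_pos.2 (D.σ_ne hz w))]
    exact hx
  have hb : |∑ j, (b j : ℝ) * Real.log (τ (algebraMap O K (α j)))| ≤ 1 := by
    rw [← (arch_log K τ hα0 b).2]
    have := arch_one hψ1 hU2
    rcases G.eq with e | e
    · rwa [e] at this
    · rwa [e, map_neg, Real.log_neg_eq_log] at this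
  have hg0 : 0 ≤ g := (Real.log_nonneg (by norm_num)).trans hg2
  have he : 1 ≤ Real.exp g := Real.one_le_exp hg0
  have hS0 : 0 ≤ ∑ j, A j := Finset.sum_nonneg fun j _ => zero_le_one.trans (G.one_le j)
  obtain ⟨L, hL⟩ : ∃ L : ℕ, L = ⌈(∑ j, A j + 1) * (2 * Real.exp g)⌉₊ := ⟨_, rfl⟩
  have hL1 : (∑ j, A j + 1) * (2 * Real.exp g) ≤ L := hL ▸ Nat.le_ceil _
  have hL2 : (L : ℝ) ≤ (∑ j, A j + 1) * (2 * Real.exp g) + 1 :=
    hL ▸ (Nat.ceil_lt_add_one (by positivity)).le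
  have key := D.kill K G (Finset.univ : Finset Unit) (fun _ => ν)
    (fun _ _ m => by rw [hν, map_natCast, Nat.abs_cast]) (fun p q M hp hq hM => ?_)
    (fun _ _ j => by rw [hν, Real.log_abs]; exact hA j) (fun _ => U) (fun _ => g) y δ κ 1
    (fun _ _ => by rw [hν, map_sub, map_one]; exact hψ1) (fun _ _ => hU2) (fun _ _ => hg2)
    (fun _ _ => hy) hδ hδ1 (by simpa using hlo) (by simpa using hhi) (by simpa only [univ_unique, PUnit.default_eq_unit, card_singleton, Nat.cast_one, mul_one] using hκ) hh1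
    (by simp only [Finset.card_univ, Fintype.card_unit, Nat.cast_one]; linarith only [hh2])
    (by simpa only [univ_unique, PUnit.default_eq_unit, sum_const, card_singleton, one_smul] using hy0) {1} (by simp) (by simp only [mem_singleton, Hm, forall_eq, map_one, abs_one, max_self, prod_const_one, Std.le_refl]) le_rfl (by simpa only [Real.log_one, add_zero] using hκW)
    ((Finset.univ : Finset Prop) ×ˢ Finset.Icc (-(L : ℤ)) L)
    (fun t _ => (0 < τ (pw K α (fl b t)), ⌊Real.log (τ (pw K α (fl b t))) * (2 * Real.exp g)⌋))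
    (fun t ht _ _ => ?_) (fun t _ t' _ u hu u' hu' e => ?_)
  · have hc : ((((Finset.univ : Finset Prop) ×ˢ Finset.Icc (-(L : ℤ)) L).card : ℕ) : ℝ) ≤
        20 * (∑ j, A j + 2) * Real.exp g := by
      have : (L : ℤ) + 1 - -(L : ℤ) = ((2 * L + 1 : ℕ) : ℤ) := by push_cast; ring
      rw [Finset.card_product, Int.card_Icc, this, Int.toNat_natCast, Finset.card_univ,
        Fintype.card_prop]
      push_cast
      linarith only [he, hL2]
    have hκ0 : 0 ≤ κ := le_trans (by positivity) hκW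
    rw [Finset.card_singleton, Nat.cast_one, mul_one] at key
    exact key.trans (mul_le_mul_of_nonneg_right (mul_le_mul_of_nonneg_left hc (by positivity))
      (Finset.prod_nonneg fun j _ => by linarith only [G.one_le j]))
  · have hM0 : ∀ v, 0 < M v := fun v => (abs_pos.2 (D.σ_ne hq v)).trans_le (hM v).2
    have h1 : 1 ≤ |D.σ w p| * ∏ v ∈ Finset.univ.erase w, M v := by
      refine (D.one_le_norm p hp).trans ?_
      rw [← Finset.mul_prod_erase _ _ (Finset.mem_univ w)]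
      exact mul_le_mul_of_nonneg_left
        (Finset.prod_le_prod (fun _ _ => abs_nonneg _) fun v _ => (hM v).1) (abs_nonneg _)
    rw [Finset.prod_const, Finset.card_univ, Fintype.card_unit, pow_one, hν, map_div₀, hτ, hτ, abs_div, inv_eq_one_div,
      div_le_div_iff₀ (Finset.prod_pos fun v _ => hM0 v) (abs_pos.2 (D.σ_ne hq w)),
      ← Finset.mul_prod_erase _ _ (Finset.mem_univ w)]
    nlinarith only [(hM w).2, hM0 w, h1]
  · have h1 : |Real.log (τ (pw K α (fl b t)))| ≤ ∑ j, A j + 1 := by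
      have e : Real.log (τ (pw K α (fl b t))) =
          t * ∑ j, (b j : ℝ) * Real.log (τ (algebraMap O K (α j))) -
            ∑ j, Int.fract (t * b j) * Real.log (τ (algebraMap O K (α j))) := by
        rw [(arch_log K τ hα0 _).2, Finset.mul_sum, ← Finset.sum_sub_distrib]
        refine Finset.sum_congr rfl fun j _ => ?_
        rw [fl, Int.fract]
        ring
      have h2 : |∑ j, Int.fract (t * b j) * Real.log (τ (algebraMap O K (α j)))| ≤ ∑ j, A j := by
        refine (Finset.abs_sum_le_sum_abs _ _).trans (Finset.sum_le_sum fun j _ => ?_)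
        rw [abs_mul, abs_of_nonneg (Int.fract_nonneg _)]
        exact (mul_le_of_le_one_left (abs_nonneg _) (Int.fract_lt_one _).le).trans (hA j)
      have h3 : |t * ∑ j, (b j : ℝ) * Real.log (τ (algebraMap O K (α j)))| ≤ 1 := by
        rw [abs_mul, abs_of_nonneg ht.1]
        exact mul_le_one₀ ht.2 (abs_nonneg _) hb
      rw [e]
      linarith only [abs_sub (t * ∑ j, (b j : ℝ) * Real.log (τ (algebraMap O K (α j))))
        (∑ j, Int.fract (t * b j) * Real.log (τ (algebraMap O K (α j)))), h2, h3]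
    have h4 : |Real.log (τ (pw K α (fl b t))) * (2 * Real.exp g)| ≤ L := by
      rw [abs_mul, abs_of_pos (by positivity : 0 < 2 * Real.exp g)]
      exact (mul_le_mul_of_nonneg_right h1 (by positivity)).trans hL1
    obtain ⟨h5, h6⟩ := abs_le.1 h4
    refine Finset.mem_product.2 ⟨Finset.mem_univ _, Finset.mem_Icc.2 ⟨Int.le_floor.2 ?_, ?_⟩⟩
    · push_cast
      exact h5
    · exact_mod_cast (Int.floor_le _).trans h6
  · rw [Finset.mem_singleton] at hu hu'
    refine ⟨fun _ => hu.trans hu'.symm, fun _ _ => ?_⟩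
    obtain ⟨e1, e2⟩ := Prod.mk.inj e
    rw [hu, hu', map_one, mul_one, mul_one, hν, map_sub, map_one, map_div₀]
    exact arch_close (arch_log K τ hα0 _).1 (arch_log K τ hα0 _).1 (iff_of_eq e1) hg0 e2

end Pool.Agent.MP_2a5a28_nt.H70
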