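import Pool.Agent.MP_2a5a28_nt.H70.Kill

attribute [-instance] IdemSemiring.toCanonicallyOrderedAdd
  DistribMulActionSemiHomClass.toAddMonoidHomClass Module.FaithfullyFlat.faithfulSMul
  SemilinearMapClass.toAddHomClass AddQuantale.instAddLeftMono covariant_swap_mul_of_covariant_mul
  littleWedderburn IsOrderedMonoid.toMulLeftMono NumberField.to_charZero Quantale.instMulLeftMono
  instCharZeroOfIsSemireal AddQuantale.instAddRightMono IdemSemiring.toMulLeftMono
  instCoeHTCTOfCoeHTC LinearOrderedCommMonoidWithZero.toPosMulStrictMono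
  Module.free_of_finite_type_torsion_free' IdemSemiring.toSemiring Quantale.instMulRightMono
  CanonicallyOrderedAdd.toMulLeftMono RKHS.instFunLike NormedField.toField
  IdemCommSemiring.toCommSemiring instCoeHTCTOfCoeTailOfCoeHTC Module.Invertible.instFaithfulSMul
  MonTypeEquivalenceMon.monMonoid CommMonTypeEquivalenceCommMon.commMonCommMonoid
  Nontrivial.to_nonempty Module.IsReflexive.to_isTorsionFree CanonicallyOrderedMul.toMulLeftMono
  CompletePartialOrder.toPartialOrder DistribLattice.toLattice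
  Module.Free.instFaithfulSMulOfNontrivial CentroidHomClass.toAddMonoidHomClass
  AddGroupSeminormClass.toNonnegHomClass RCLike.charZero_rclike GeneralizedCoheytingAlgebra.toLattice
  DivisionRing.toDivisionSemiring Module.Flat.of_projective Zero.instNonempty bot_nonempty
  instCoeTOfCoeDep NonUnitalAlgSemiHomClass.toMulHomClass CommGroupWithZero.toCommMonoidWithZero
  BooleanRing.toRing ConditionallyCompletePartialOrderSup.toPartialOrder
  RingSeminormClass.toNonnegHomClass NormedDivisionRing.toDivisionRing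
  ValuationClass.toMonoidWithZeroHomClass BialgHomClass.toMonoidHomClass Module.FaithfullyFlat.toFlat
  LinearOrderedCommMonoidWithZero.toIsBotZeroClass IsFormallyReal.instIsReduced AddTorsor.nonempty
  SemilatticeSup.toPartialOrder GrpTypeEquivalenceGrp.grpGroup

/-! The case analysis. -/

set_option autoImplicit false
set_option linter.unusedSectionVars false

namespace Pool.Agent.MP_2a5a28_nt.H70

open Finset UniqueFactorizationMonoid

variable {O : Type*} [CommRing O] [IsDomain O] [IsPrincipalIdealRing O] [NormalizationMonoid O]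
  [DecidableEq O] {V : Type*} [Fintype V] (D : Dat O V)
  (K : Type*) [Field K] [CharZero K] [Algebra O K] [IsFractionRing O K]

include K

omit K in
theorem M1_dvd {x : O} (hx : x ≠ 0) {S : Finset O} (hS : S ⊆ primeFactors x) :
    ∏ p ∈ S, p ^ (normalizedFactors x).count p ∣ x := by
  refine (Finset.prod_dvd_prod_of_subset _ _ _ hS).trans ?_
  rw [← toFinset_normalizedFactors, ← Finset.prod_multiset_count]
  exact (prod_normalizedFactors hx).dvd

omit K in
theorem M1_sum {ι : Type*} (s : Finset ι) (A : ι → ℝ) (hA : ∀ j, 1 ≤ A j) :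
    1 ≤ ∏ j ∈ s, (2 * A j) ∧ ∑ j ∈ s, A j ≤ ∏ j ∈ s, (2 * A j) := by
  classical
  induction s using Finset.induction_on with
  | empty => simp
  | insert a s ha ih =>
    rw [Finset.prod_insert ha, Finset.sum_insert ha]
    have := hA a
    constructor <;> nlinarith only [ih.1, ih.2, this]

omit K in
theorem M1_ht {x y z : O} (h : x + y + z = 0) (hz : z ≠ 0) :
    0 < D.Hm y z ∧ D.Hm y z ≤ D.ht x y z ∧ D.ht x y z ≤ 2 ^ Fintype.card V * D.Hm y z ∧
      D.N x ≤ D.ht x y z := by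
  refine ⟨Finset.prod_pos fun w _ => lt_max_of_lt_right (abs_pos.2 (D.σ_ne hz w)),
    Finset.prod_le_prod (fun w _ => le_max_of_le_left (abs_nonneg _)) fun w _ =>
      max_le_max (le_max_right _ _) le_rfl, ?_,
    Finset.prod_le_prod (fun w _ => abs_nonneg _) fun w _ =>
      le_max_of_le_left (le_max_left _ _)⟩
  rw [Dat.Hm, ← Finset.card_univ, ← Finset.prod_const, ← Finset.prod_mul_distrib]
  refine Finset.prod_le_prod (fun w _ => le_max_of_le_right (abs_nonneg _)) fun w _ => ?_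
  have e : D.σ w x = -(D.σ w y + D.σ w z) := by
    rw [← map_add, ← map_neg]; congr 1; linear_combination h
  have h1 := abs_add_le (D.σ w y) (D.σ w z)
  have h2 := le_max_left |D.σ w y| |D.σ w z|
  have h3 := le_max_right |D.σ w y| |D.σ w z|
  have h4 := abs_nonneg (D.σ w y)
  have h5 := abs_nonneg (D.σ w z)
  rw [e, abs_neg]
  exact max_le (max_le (by linarith) (by linarith)) (by linarith)

omit K in
theorem M1_ceil {N y : ℝ} (h1 : 1 ≤ N) (hy : 0 < y) (v : ℕ) :
    N ^ ⌈(v : ℝ) / y⌉₊ ≤ N * Real.exp (v * Real.log N / y) := by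
  have h2 : (⌈(v : ℝ) / y⌉₊ : ℝ) ≤ 1 + v / y := by
    have := Nat.ceil_lt_add_one (show 0 ≤ (v : ℝ) / y by positivity)
    linarith
  rw [← Real.rpow_natCast]
  refine (Real.rpow_le_rpow_of_exponent_le h1 h2).trans_eq ?_
  rw [Real.rpow_add (by linarith only [h1]), Real.rpow_one, Real.rpow_def_of_pos (by linarith only [h1])]
  congr 2
  ring

omit K in
theorem M1_y {δ h U κ : ℝ} (hδ : 0 < δ) (hδ1 : δ ≤ 1 / 2) (hh : 0 < h) (hκ : 0 < κ)
    (hU : δ * h ≤ U) : 0 < (1 - δ) * U ^ 2 / (3 * κ * h) ∧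
      U / ((1 - δ) * U ^ 2 / (3 * κ * h)) ≤ 6 / δ * κ := by
  have hU0 : 0 < U := lt_of_lt_of_le (by positivity) hU
  have hδ' : 0 < 1 - δ := by linarith
  have hy : 0 < (1 - δ) * U ^ 2 / (3 * κ * h) := by positivity
  refine ⟨hy, ?_⟩
  rw [div_le_iff₀ hy]
  have e : 6 / δ * κ * ((1 - δ) * U ^ 2 / (3 * κ * h)) =
      U * (2 * (1 - δ) * (U / (δ * h))) := by field_simp; ring
  have h1 : 1 ≤ U / (δ * h) := (one_le_div (by positivity)).2 hU
  rw [e]
  exact le_mul_of_one_le_right hU0.le (by nlinarith only [hδ1, h1])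

omit K in
theorem M1_kap {δ d : ℝ} (hδ : 0 < δ) (hδ1 : δ ≤ 1 / 2) (hd : 1 ≤ d) (n s : ℕ) :
    ∃ κ : ℝ, 120 * (11 * s + 4 * d) ≤ δ ^ 2 * κ ∧ 2 * n ≤ κ ∧ 2 + s ≤ κ ∧
      κ * Real.exp (6 / δ * κ) ≤ Real.exp (2 * (1 + 6 / δ)) ^ n *
        Real.exp (1320 * (1 + 6 / δ) / δ ^ 2) ^ s * Real.exp (480 * d * (1 + 6 / δ) / δ ^ 2) := by
  obtain ⟨κ, hκ⟩ : ∃ κ : ℝ, κ = 2 * n + 120 * (11 * s + 4 * d) / δ ^ 2 := ⟨_, rfl⟩
  have hδ2 : δ ^ 2 ≤ 1 := pow_le_one₀ hδ.le (by linarith only [hδ1])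
  have hs0 : (0 : ℝ) ≤ s := Nat.cast_nonneg _
  have hκ1 : 120 * (11 * s + 4 * d) ≤ δ ^ 2 * κ := by
    rw [hκ, mul_add (δ ^ 2), mul_div_cancel₀ _ (by positivity)]
    exact le_add_of_nonneg_left (by positivity)
  have hκ0 : 0 < κ := by rw [hκ]; positivity
  refine ⟨κ, hκ1, by rw [hκ]; exact le_add_of_nonneg_right (by positivity), by nlinarith only [hd, hδ2, hκ1], ?_⟩
  have : κ ≤ Real.exp κ := by have := Real.add_one_le_exp κ; linarith only [hδ, hδ1, this]
  calc _ ≤ Real.exp κ * Real.exp (6 / δ * κ) := by gcongr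
    _ = Real.exp ((1 + 6 / δ) * κ) := by rw [← Real.exp_add]; congr 1; ring
    _ = _ := by
      rw [← Real.exp_nat_mul, ← Real.exp_nat_mul, ← Real.exp_add, ← Real.exp_add, hκ]
      congr 1; ring

omit K in
theorem M1_cases {a κ s σ P Q : ℝ} (hs : 0 ≤ s) (hκ : 2 + s ≤ κ) (hσ : 0 ≤ σ) (hP : 1 ≤ P)
    (hσP : σ ≤ P) (hQ : 1 ≤ Q)
    (H : 960 * κ ≤ a → 60 * (2 + s) * (2 * σ + 1) ≤ a → a ≤ 960 * κ * Q * P) :
    a ≤ 960 * κ * Q * P := by
  have hκ0 : 0 ≤ κ := by linarith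
  by_cases c1 : 960 * κ ≤ a
  · by_cases c2 : 60 * (2 + s) * (2 * σ + 1) ≤ a
    · exact H c1 c2
    · calc _ ≤ 60 * (2 + s) * (2 * σ + 1) := by linarith
        _ ≤ 60 * κ * (3 * P) := by gcongr; linarith only [hP, hσP]
        _ ≤ 960 * κ * 1 * P := by nlinarith only [hs, hκ, hP]
        _ ≤ _ := by gcongr
  · calc _ ≤ 960 * κ * 1 * 1 := by linarith
      _ ≤ _ := by gcongr

omit K in
theorem M1_end {δ h κ R E P a b c C1 C2 r1 r2 : ℝ} (hδ : 0 < δ) (hR : 0 ≤ R) (hP : 0 ≤ P)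
    (hb : 0 ≤ b) (hc : 0 ≤ c) (h1 : 0 ≤ C1 * r1) (m : δ ^ 3 * h ≤ 960 * κ * (R * E) * P)
    (f1 : κ * E ≤ a * b * c) (f2 : a * P ≤ C1 * r1) (f3 : b ≤ C2 * r2) :
    h ≤ 960 * c * C1 * C2 / δ ^ 3 * R * (r2 * r1) := by
  refine le_of_mul_le_mul_left ?_ (pow_pos hδ 3)
  calc _ ≤ 960 * R * (κ * E) * P := by linarith
    _ ≤ 960 * R * (a * b * c) * P := by gcongr
    _ = 960 * R * c * (a * P) * b := by ring
    _ ≤ 960 * R * c * (C1 * r1) * (C2 * r2) := by gcongr
    _ = _ := by field_simp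

theorem Dat.small_part (δ ε : ℝ) (hδ : 0 < δ) (hδ1 : δ ≤ 1 / 2) (hε : 0 < ε) :
    ∃ C : ℝ, 1 ≤ C ∧ ∀ x y z : O, x + y + z = 0 → IsCoprime y z → x * y * z ≠ 0 →
      ∀ S ⊆ primeFactors x, δ * Real.log (D.ht x y z) ≤
        ∑ p ∈ S, ((normalizedFactors x).count p : ℝ) * Real.log (D.N p) →
      Real.log (D.ht x y z) ≤ C * (∏ p ∈ S, D.N p) * D.rad (x * y * z) ^ ε := by
  obtain ⟨L, hL⟩ : ∃ L : ℝ, L = 1 + 6 / δ := ⟨_, rfl⟩
  have hL1 : 1 ≤ L := by rw [hL]; exact le_add_of_nonneg_right (by positivity)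
  obtain ⟨d, hd⟩ : ∃ d : ℝ, d = (Fintype.card V : ℕ) := ⟨_, rfl⟩
  have hd1 : 1 ≤ d := by rw [hd]; exact_mod_cast D.pos_card
  have hC1 : 1 ≤ Real.exp (2 * L) * 2 := by
    have := Real.one_le_exp (show 0 ≤ 2 * L by positivity); linarith only [this]
  have hC2 : 1 ≤ Real.exp (1320 * L / δ ^ 2) := Real.one_le_exp (by positivity)
  obtain ⟨C1, hC1', H1⟩ := D.setup K _ ε hC1 hε
  obtain ⟨C2, hC2', H2⟩ := D.few_pow _ ε hC2 hε
  obtain ⟨C3, hC3⟩ : ∃ C3 : ℝ, C3 = 960 * Real.exp (480 * d * L / δ ^ 2) * C1 * C2 / δ ^ 3 :=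
    ⟨_, rfl⟩
  have hC30 : 0 ≤ C3 := by rw [hC3]; positivity
  refine ⟨2 * d + C3, by linarith only [hδ, hδ1, hd1, hC30], fun x y z hs hyz h0 S hS hU => ?_⟩
  have hx : x ≠ 0 := left_ne_zero_of_mul (left_ne_zero_of_mul h0)
  have hy : y ≠ 0 := right_ne_zero_of_mul (left_ne_zero_of_mul h0)
  have hz : z ≠ 0 := right_ne_zero_of_mul h0
  have hpr : ∀ p ∈ S, Prime p := fun p hp => prime_of_mem (hS hp)
  have hR1 : 1 ≤ ∏ p ∈ S, D.N p :=
    Finset.prod_induction _ (fun x : ℝ => 1 ≤ x) (fun _ _ => one_le_mul_of_one_le_of_one_le) le_rfl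
      fun p hp => D.one_le_N (hpr p hp).ne_zero
  have hR2 : 1 ≤ D.rad (x * y * z) ^ ε := Real.one_le_rpow (D.one_le_rad _) hε.le
  obtain ⟨t1, t2, t3, t4⟩ := M1_ht D hs hz
  generalize hh : Real.log (D.ht x y z) = h at hU ⊢
  generalize hRS : ∏ p ∈ S, D.N p = RS at hR1 ⊢
  rcases le_or_gt h (2 * d) with hsm | hbig
  · calc h ≤ (2 * d + C3) * 1 * 1 := by linarith only [hC30, hsm]
      _ ≤ _ := by gcongr
  have hh0 : 0 < h := by linarith only [hδ, hδ1, hd1, hbig]
  have hup : Real.log (D.Hm y z) ≤ h := hh ▸ Real.log_le_log t1 t2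
  have hlo : h / 2 ≤ Real.log (D.Hm y z) := by
    have h1 := Real.log_le_log (t1.trans_le t2) t3
    rw [hh, Real.log_mul (by positivity) t1.ne', Real.log_pow, ← hd] at h1
    have h2 : Real.log 2 ≤ 1 := by have := Real.log_two_lt_d9; linarith only [hδ, hδ1, this]
    nlinarith only [hd, hbig, h1, h2]
  obtain ⟨n, α, A, b, G, hα, hA⟩ := H1 y z hy hz hyz h hup hlo
  have ex : x = -y + z * (-1) := by linear_combination hs
  have ex' : x = -z + y * (-1) := by linear_combination hs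
  have hxz : IsCoprime x z := by rw [ex]; exact hyz.neg_left.add_mul_left_left _
  have hxy : IsCoprime x y := by rw [ex']; exact hyz.symm.neg_left.add_mul_left_left _
  have hxyz : IsCoprime x (y * z) := hxy.mul_right hxz
  have hψ : -algebraMap O K y / algebraMap O K z - 1 = algebraMap O K x / algebraMap O K z := by
    have hz' : algebraMap O K z ≠ 0 :=
      fun e => hz ((IsFractionRing.injective O K) (e.trans (map_zero _).symm))
    rw [ex, map_add, map_mul, map_neg, map_neg, map_one]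
    field_simp
    ring
  obtain ⟨U, hUe⟩ : ∃ U : ℝ, U = ∑ p ∈ S, ((normalizedFactors x).count p : ℝ) * Real.log (D.N p) :=
    ⟨_, rfl⟩
  have hUh : U ≤ h := by
    have h1 := D.N_le_of_dvd (M1_dvd hx hS) hx
    rw [D.N_prod] at h1
    have h2 : ∀ p ∈ S, 0 < D.N (p ^ (normalizedFactors x).count p) :=
      fun p hp => D.N_pos (pow_ne_zero _ (hpr p hp).ne_zero)
    have h3 := Real.log_le_log (Finset.prod_pos h2) (h1.trans t4)
    rw [hh, Real.log_prod fun p hp => (h2 p hp).ne'] at h3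
    simpa only [D.N_pow, Real.log_pow, hUe] using h3
  rw [← hUe] at hU
  obtain ⟨κ, hκ1, hκ2, hκ3, f1⟩ := M1_kap hδ hδ1 hd1 n S.card
  rw [← hL] at f1
  have hs0 : (0 : ℝ) ≤ S.card := Nat.cast_nonneg _
  have hκ0 : 0 < κ := by linarith only [hκ3, hs0]
  obtain ⟨a1, a2⟩ := M1_sum univ A G.one_le
  generalize hP : ∏ j, (2 * A j) = P at a1 a2
  have main : δ ^ 3 * h ≤ 960 * κ * (RS * Real.exp (6 / δ * κ)) * P := by
    refine M1_cases hs0 hκ3 (Finset.sum_nonneg fun j _ => zero_le_one.trans (G.one_le j)) a1 a2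
      (one_le_mul_of_one_le_of_one_le hR1 (Real.one_le_exp (by positivity))) fun c1 c2 => ?_
    obtain ⟨hy00, hy1⟩ := M1_y hδ hδ1 hh0 hκ0 hU
    generalize hy0 : (1 - δ) * U ^ 2 / (3 * κ * h) = y0 at hy00 hy1
    have hv : ∀ p ∈ S, 1 ≤ (normalizedFactors x).count p := fun p hp =>
      Multiset.one_le_count_iff_mem.2 (mem_primeFactors.1 (hS hp))
    have k := D.kill_fin K G x z hxz hz hψ (fun j => hxyz.of_isCoprime_of_dvd_right (hα j)) S hpr
      (fun p hp q hq => normalizedFactors_eq_of_dvd x p (mem_primeFactors.1 (hS hp)) q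
        (mem_primeFactors.1 (hS hq)))
      (fun p => (normalizedFactors x).count p)
      (fun p => ⌈((normalizedFactors x).count p : ℝ) / y0⌉₊)
      (fun p hp => ⟨hv p hp, by simpa only [prod_singleton] using M1_dvd hx (singleton_subset_iff.2 (hS hp))⟩)
      (fun p hp => Nat.one_le_ceil_iff.2 (div_pos (by exact_mod_cast hv p hp) hy00))
      y0 δ κ 1 (fun p _ => (div_le_iff₀' hy00).1 (Nat.le_ceil _)) hδ (by linarith only [hδ1])
      (hUe ▸ hU) (hUe ▸ hUh) (hd ▸ hκ1) c1 c2 (hUe ▸ hy0.ge) {1}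
      (fun u hu => by
        rw [mem_singleton.1 hu]; exact ⟨one_ne_zero, fun p hp => (hpr p hp).not_dvd_one⟩)
      (fun u hu u' hu' _ => (mem_singleton.1 hu).trans (mem_singleton.1 hu').symm)
      (fun u hu u' hu' => by rw [mem_singleton.1 hu, mem_singleton.1 hu']; simp only [Hm, map_one, abs_one, max_self, prod_const_one, Std.le_refl])
      le_rfl (by rw [Real.log_one, add_zero]; exact hκ2)
    rw [hP, card_singleton, Nat.cast_one, mul_one] at k
    refine k.trans (mul_le_mul_of_nonneg_right (mul_le_mul_of_nonneg_left ?_ (by positivity))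
      (zero_le_one.trans a1))
    refine (Finset.prod_le_prod (fun p _ => pow_nonneg (D.N_nonneg _) _) fun p hp =>
      M1_ceil (D.one_le_N (hpr p hp).ne_zero) hy00 _).trans ?_
    rw [Finset.prod_mul_distrib, hRS, ← Real.exp_sum, ← Finset.sum_div, ← hUe]
    exact mul_le_mul_of_nonneg_left (Real.exp_le_exp.2 hy1) (zero_le_one.trans hR1)
  have f2 : Real.exp (2 * L) ^ n * P ≤ C1 * D.rad (y * z) ^ ε := by
    refine le_of_eq_of_le ?_ hA
    simp only [mul_assoc, ← hP]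
    rw [Finset.prod_mul_distrib (f := fun _ => Real.exp (2 * L))]
    simp only [prod_const, card_univ, Fintype.card_fin]
  have f3 : Real.exp (1320 * L / δ ^ 2) ^ S.card ≤ C2 * D.rad x ^ ε := by
    refine le_trans ?_ (H2 x)
    have hl : ∀ p ∈ primeFactors x, Real.exp (1320 * L / δ ^ 2) ≤
        Real.exp (1320 * L / δ ^ 2) * (Real.log (D.N p) + 1) := fun p hp =>
      le_mul_of_one_le_right (by positivity) (by
        have := Real.log_nonneg (D.one_le_N (prime_of_mem hp).ne_zero); linarith only [this])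
    calc _ ≤ Real.exp (1320 * L / δ ^ 2) ^ (primeFactors x).card :=
          pow_le_pow_right₀ hC2 (card_le_card hS)
      _ = ∏ _p ∈ primeFactors x, Real.exp (1320 * L / δ ^ 2) := (Finset.prod_const _).symm
      _ ≤ _ := Finset.prod_le_prod (fun _ _ => by positivity) hl
  have r1 := D.one_le_rad x
  have r2 := D.one_le_rad (y * z)
  have f4 : D.rad (x * y * z) ^ ε = D.rad x ^ ε * D.rad (y * z) ^ ε := by
    rw [mul_assoc, D.rad_mul hxyz, Real.mul_rpow (by linarith only [hδ, hδ1, r1]) (by linarith only [hδ, hδ1, r2])]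
  have f5 := M1_end hδ (zero_le_one.trans hR1) (zero_le_one.trans a1) (by positivity)
    (Real.exp_pos _).le (by positivity) main f1 f2 f3
  rw [← hC3, ← f4] at f5
  refine f5.trans (mul_le_mul_of_nonneg_right (mul_le_mul_of_nonneg_right ?_
    (zero_le_one.trans hR1)) (zero_le_one.trans hR2))
  linarith only [hd1]

omit K in
theorem m2_sum {ι : Type*} (s : Finset ι) (A : ι → ℝ) (hA : ∀ j, 1 ≤ A j) :
    ∑ j ∈ s, A j + 1 ≤ ∏ j ∈ s, (2 * A j) := by
  classical
  induction s using Finset.induction_on with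
  | empty => simp
  | insert a s ha ih =>
    rw [Finset.sum_insert ha, Finset.prod_insert ha]
    have h0 : 0 ≤ ∑ j ∈ s, A j := Finset.sum_nonneg fun j _ => le_trans zero_le_one (hA j)
    have h1 := hA a
    linarith [mul_le_mul_of_nonneg_left ih (le_trans zero_le_one h1),
      mul_nonneg (sub_nonneg.2 h1) h0, mul_nonneg (le_trans zero_le_one h1) h0]

omit K in
theorem Dat.m2_ht {x y z : O} (h : x + y + z = 0) (hz : z ≠ 0) :
    D.N x ≤ D.ht x y z ∧ D.Hm y z ≤ D.ht x y z ∧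
      D.ht x y z ≤ 2 ^ Fintype.card V * D.Hm y z ∧ 1 ≤ D.Hm y z := by
  refine ⟨Finset.prod_le_prod (fun _ _ => abs_nonneg _) fun w _ =>
      (le_max_left _ _).trans (le_max_left _ _),
    Finset.prod_le_prod (fun _ _ => le_max_of_le_left (abs_nonneg _)) fun w _ =>
      max_le_max (le_max_right _ _) le_rfl, ?_, ?_⟩
  · rw [Dat.Hm, ← Finset.card_univ, ← Finset.prod_const, ← Finset.prod_mul_distrib]
    refine Finset.prod_le_prod (fun _ _ => le_max_of_le_right (abs_nonneg _)) fun w _ => ?_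
    have e : D.σ w x = -(D.σ w y + D.σ w z) := by
      rw [← map_add, ← map_neg]
      congr 1
      linear_combination h
    have h1 := le_max_left |D.σ w y| |D.σ w z|
    have h2 := le_max_right |D.σ w y| |D.σ w z|
    have h3 := abs_add_le (D.σ w y) (D.σ w z)
    have h4 := abs_nonneg (D.σ w y)
    have h5 := abs_nonneg (D.σ w z)
    rw [e, abs_neg]
    refine max_le (max_le ?_ ?_) ?_ <;> linarith only [h1, h2, h3, h4]
  · exact (D.one_le_N hz).trans (Finset.prod_le_prod (fun _ _ => abs_nonneg _) fun w _ =>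
      le_max_right _ _)

omit K in
theorem Dat.m2_N_le {a : O} {B : ℝ} (h : ∀ w, |D.σ w a| ≤ B) : D.N a ≤ B ^ Fintype.card V := by
  rw [← Finset.card_univ, ← Finset.prod_const]
  exact Finset.prod_le_prod (fun _ _ => abs_nonneg _) fun w _ => h w

omit K in
theorem m2_num {δ ε g n κ : ℝ} (hδ : 0 < δ) (hδ8 : δ ≤ 1 / 8) (hδε : 3 * δ ≤ ε) (hg0 : 0 < g)
    (hn : 2 * n ≤ δ * g) (hκ : κ = (1 - δ) * (1 - 2 * δ) * g / 3) :
    κ ≤ g / 3 ∧ g / 5 ≤ κ ∧ 0 ≤ κ - 2 * n ∧ δ * κ ≤ Real.exp (g * (2 / 3 + ε)) ∧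
      δ * κ * Real.exp g ≤ Real.exp (g * (2 / 3 + ε)) * Real.exp (κ - 2 * n) := by
  have a1 := mul_pos hδ hg0
  have a2 := mul_pos hδ a1
  have a3 := mul_le_mul_of_nonneg_right hδ8 hg0.le
  have a4 := mul_le_mul_of_nonneg_right hδ8 a1.le
  have a5 := mul_le_mul_of_nonneg_right hδε hg0.le
  have k1 : (1 / 3 - δ) * g ≤ κ := by rw [hκ]; linarith only [a2]
  have k2 : κ ≤ g / 3 := by rw [hκ]; linarith only [a2, a4]
  have k3 := mul_le_mul_of_nonneg_left k2 hδ.le
  have k4 : δ * κ ≤ Real.exp (δ * g) := by linarith only [Real.add_one_le_exp (δ * g), a2, a4, k3]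
  refine ⟨k2, by linarith only [hκ, a2, a3, a4], by linarith only [hn, hκ, a2, a3, a4], k4.trans (Real.exp_le_exp.2 (by linarith only [a2, a3, a4, a5])), ?_⟩
  calc δ * κ * Real.exp g ≤ Real.exp (δ * g) * Real.exp g := by gcongr
    _ ≤ _ := by
      rw [← Real.exp_add, ← Real.exp_add]
      exact Real.exp_le_exp.2 (by linarith only [hn, hκ, a2, a5])

omit K in
theorem m2_g {δ l d : ℝ} (hδ : 0 < δ) (hl : 0 ≤ l) (hd : 0 ≤ d) :
    ∃ g₀ : ℝ, 2 * d + 1 ≤ g₀ ∧ 4 * l ≤ δ * g₀ ∧ 120 * (11 + 4 * d) ≤ δ ^ 2 * (g₀ / 5) := by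
  refine ⟨2 * d + 1 + 4 * l / δ + 600 * (11 + 4 * d) / δ ^ 2, ?_, ?_, ?_⟩
  · have : 0 ≤ 4 * l / δ + 600 * (11 + 4 * d) / δ ^ 2 := by positivity
    linarith
  · have e : δ * (4 * l / δ) = 4 * l := mul_div_cancel₀ _ hδ.ne'
    have : 0 ≤ δ * (2 * d + 1 + 600 * (11 + 4 * d) / δ ^ 2) := by positivity
    linarith
  · have e : δ ^ 2 * (600 * (11 + 4 * d) / δ ^ 2) = 600 * (11 + 4 * d) :=
      mul_div_cancel₀ _ (by positivity)
    have : 0 ≤ δ ^ 2 * (2 * d + 1 + 4 * l / δ) := by positivity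
    linarith

theorem Dat.big_prime (ε : ℝ) (hε : 0 < ε) : ∃ δ : ℝ, 0 < δ ∧ δ ≤ 1 / 4 ∧
    ∃ C : ℝ, 1 ≤ C ∧ ∀ x y z : O, x + y + z = 0 → IsCoprime y z → x * y * z ≠ 0 →
      ∀ p ∈ primeFactors x, (1 - 2 * δ) * Real.log (D.ht x y z) ≤
        ((normalizedFactors x).count p : ℝ) * Real.log (D.N p) →
      D.rad (x * y * z) ^ (2 / 9 : ℝ) ≤ D.N p →
      Real.log (D.ht x y z) ≤ C * D.N p ^ (2 / 3 + ε) * D.rad (x * y * z) ^ ε := by
  obtain ⟨δ, hδ, hδ8, hδε⟩ : ∃ δ : ℝ, 0 < δ ∧ δ ≤ 1 / 8 ∧ 3 * δ ≤ ε :=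
    ⟨min (ε / 3) (1 / 8), by positivity, min_le_right _ _, by linarith [min_le_left (ε / 3) (1 / 8)]⟩
  obtain ⟨C₁, hC₁, H₁⟩ := D.small_part K δ ε hδ (by linarith only [hδ, hδ8]) hε
  obtain ⟨C₂, hC₂, H₂⟩ := D.setup K 3 (δ / 18) (by norm_num) (by positivity)
  obtain ⟨d, hd⟩ : ∃ d : ℝ, d = (Fintype.card V : ℕ) := ⟨_, rfl⟩
  have hd0 : 0 ≤ d := hd ▸ Nat.cast_nonneg _
  have hc := D.one_le_c
  have hl2 := Real.log_nonneg hC₂
  obtain ⟨g₀, hg1, hg2, hg3⟩ := m2_g hδ hl2 hd0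
  obtain ⟨C, hC, b1, b2, b3⟩ : ∃ C : ℝ, 1 ≤ C ∧ C₁ * Real.exp g₀ ≤ C ∧ 2 * d ≤ C ∧
      960 * D.c * C₂ / δ ^ 4 ≤ C := by
    refine ⟨1 + C₁ * Real.exp g₀ + 2 * d + 960 * D.c * C₂ / δ ^ 4, ?_, ?_, ?_, ?_⟩ <;>
    · have : 0 ≤ C₁ * Real.exp g₀ := by positivity
      have : 0 ≤ 960 * D.c * C₂ / δ ^ 4 := by positivity
      linarith
  refine ⟨δ, hδ, by linarith only [hδ, hδ8], C, hC, fun x y z hs hyz h0 p hp hv hR => ?_⟩
  have hx : x ≠ 0 := left_ne_zero_of_mul (left_ne_zero_of_mul h0)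
  have hy : y ≠ 0 := right_ne_zero_of_mul (left_ne_zero_of_mul h0)
  have hz : z ≠ 0 := right_ne_zero_of_mul h0
  have hpp := prime_of_mem hp
  obtain ⟨t1, t2, t3, t4⟩ := D.m2_ht hs hz
  have hxe : x = -y - z := by linear_combination hs
  have hxz : IsCoprime x z := by
    have := (hyz.neg_left).add_mul_left_left (-1)
    rwa [show -y + z * -1 = x by rw [hxe]; ring] at this
  have hxy : IsCoprime x y := by
    have := (hyz.symm.neg_left).add_mul_left_left (-1)
    rwa [show -z + y * -1 = x by rw [hxe]; ring] at this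
  have hR1 := D.one_le_rad (x * y * z)
  have hRR : D.rad (y * z) ≤ D.rad (x * y * z) := by
    rw [mul_assoc, D.rad_mul (hxy.mul_right hxz)]
    exact le_mul_of_one_le_left (le_trans zero_le_one (D.one_le_rad _)) (D.one_le_rad _)
  have hN2 := D.two_le_N hpp
  have hdvd : p ^ (normalizedFactors x).count p ∣ x := by
    refine dvd_trans ?_ (prod_normalizedFactors hx).dvd
    rw [← Multiset.prod_replicate]
    exact Multiset.prod_dvd_prod_of_le (Multiset.le_count_iff_replicate_le.1 le_rfl)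
  have hv1 : 1 ≤ (normalizedFactors x).count p :=
    Multiset.one_le_count_iff_mem.2 (mem_primeFactors.1 hp)
  have H₁' := H₁ x y z hs hyz h0 {p} (Finset.singleton_subset_iff.2 hp)
  rw [Finset.sum_singleton, Finset.prod_singleton] at H₁'
  generalize (normalizedFactors x).count p = v at *
  have hhi : v * Real.log (D.N p) ≤ Real.log (D.ht x y z) := by
    rw [← Real.log_pow, ← D.N_pow]
    exact Real.log_le_log (D.N_pos (pow_ne_zero _ hpp.ne_zero)) ((D.N_le_of_dvd hdvd hx).trans t1)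
  have hh0 : 0 ≤ Real.log (D.ht x y z) := Real.log_nonneg (t4.trans t2)
  have hup : Real.log (D.Hm y z) ≤ Real.log (D.ht x y z) := Real.log_le_log (by linarith only [hδ, hδ8, t4]) t2
  have hdn : Real.log (D.ht x y z) ≤ d + Real.log (D.Hm y z) := by
    have h1 := Real.log_le_log (by linarith only [hδ, hδ8, t2, t4]) t3
    rw [Real.log_mul (by positivity) (by linarith only [hδ, hδ8, t4]), Real.log_pow, ← hd] at h1
    have h2 : Real.log 2 ≤ 1 := by linarith only [Real.log_le_sub_one_of_pos (show (0 : ℝ) < 2 by norm_num)]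
    linarith only [h1, mul_le_mul_of_nonneg_left h2 hd0]
  have H₂' := H₂ y z hy hz hyz _ hup
  generalize Real.log (D.ht x y z) = h at *
  generalize D.rad (x * y * z) = R at *
  have hlo : δ * h ≤ v * Real.log (D.N p) := (mul_le_mul_of_nonneg_right (by linarith only [hδ8]) hh0).trans hv
  have hN0 : 0 < D.N p := by linarith only [hδ, hδ8, hN2]
  obtain ⟨g, hg⟩ : ∃ g, g = Real.log (D.N p) := ⟨_, rfl⟩
  have hNg : D.N p = Real.exp g := by rw [hg, Real.exp_log hN0]
  have hg0 : 0 < g := hg ▸ Real.log_pos (by linarith only [hδ, hδ8, hN2])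
  have hP1 : 1 ≤ D.N p ^ (2 / 3 + ε) := Real.one_le_rpow (by linarith only [hδ, hδ8, hN2]) (by positivity)
  have hP2 : 1 ≤ R ^ ε := Real.one_le_rpow hR1 hε.le
  have hP : 1 ≤ D.N p ^ (2 / 3 + ε) * R ^ ε := one_le_mul_of_one_le_of_one_le hP1 hP2
  have hC0 : 0 ≤ C := by linarith only [hδ, hδ8, hC]
  rw [mul_assoc]
  by_cases c1 : g ≤ g₀
  · calc h ≤ C₁ * D.N p * R ^ ε := H₁' hlo
      _ ≤ C₁ * Real.exp g₀ * R ^ ε := by rw [hNg]; gcongr
      _ ≤ C * R ^ ε := by gcongr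
      _ ≤ _ := by gcongr; exact le_mul_of_one_le_left (by linarith only [hδ, hδ8, hP2]) hP1
  by_cases c2 : h ≤ 2 * d
  · exact (c2.trans b2).trans (le_mul_of_one_le_right hC0 hP)
  push Not at c1 c2
  obtain ⟨n, α, A, b, G, hα, hA⟩ := H₂' (by linarith only [hdn, c2])
  have hA1 := G.one_le
  have hR0 : 0 < R := by linarith only [hδ, hδ8, hR1]
  have hA2 : ∏ j, (3 * A j) ≤ C₂ * R ^ (δ / 18) :=
    hA.trans (by gcongr; exact le_trans zero_le_one (D.one_le_rad _))
  have hA3 : ∏ j, (2 * A j) ≤ C₂ * R ^ ε := by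
    calc ∏ j, (2 * A j) ≤ ∏ j, (3 * A j) :=
          Finset.prod_le_prod (fun j _ => by linarith only [hA1 j, hδ, hδ8]) fun j _ => by linarith only [hA1 j, hδ, hδ8]
      _ ≤ C₂ * R ^ (δ / 18) := hA2
      _ ≤ _ := by gcongr; linarith only [hδ, hδε]
  have hn : 2 * (n : ℝ) ≤ δ * g := by
    have h1 : Real.exp n ≤ C₂ * R ^ (δ / 18) := by
      refine le_trans ?_ hA2
      rw [← Real.exp_one_pow, ← Fin.prod_const]
      exact Finset.prod_le_prod (fun _ _ => (Real.exp_pos _).le) fun j _ => by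
        linarith only [hA1 j, Real.exp_one_lt_d9]
    have h2 := Real.log_le_log (Real.exp_pos _) h1
    rw [Real.log_exp, Real.log_mul (by linarith only [hδ, hδ8, hC₂]) (by positivity), Real.log_rpow hR0] at h2
    have h3 := Real.log_le_log (by positivity) hR
    rw [Real.log_rpow hR0, ← hg] at h3
    linarith only [h2, hg2, mul_le_mul_of_nonneg_left h3 hδ.le,
      mul_le_mul_of_nonneg_left c1.le hδ.le]
  obtain ⟨κ, hκ⟩ : ∃ κ, κ = (1 - δ) * (1 - 2 * δ) * g / 3 := ⟨_, rfl⟩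
  obtain ⟨k2, k3, k4, k5, k6⟩ := m2_num hδ hδ8 hδε hg0 hn hκ
  have hNP : D.N p ^ (2 / 3 + ε) = Real.exp (g * (2 / 3 + ε)) := by rw [hNg, Real.exp_mul]
  rw [← hNP] at k5 k6
  rw [← hNg] at k6
  have hδ4 : 0 < δ ^ 4 := by positivity
  have b4 : 960 * D.c * C₂ ≤ C * δ ^ 4 := (div_le_iff₀ hδ4).1 b3
  suffices key : δ ^ 4 * h ≤ 960 * D.c * C₂ * (D.N p ^ (2 / 3 + ε) * R ^ ε) by
    refine le_of_mul_le_mul_left (key.trans ?_) hδ4
    calc _ ≤ C * δ ^ 4 * (D.N p ^ (2 / 3 + ε) * R ^ ε) := by gcongr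
      _ = _ := by ring
  have hcC : 1 ≤ D.c * C₂ := one_le_mul_of_one_le_of_one_le hc hC₂
  by_cases c3 : 960 * κ ≤ δ ^ 3 * h
  swap
  · calc δ ^ 4 * h = δ * (δ ^ 3 * h) := by ring
      _ ≤ δ * (960 * κ) := mul_le_mul_of_nonneg_left (not_le.1 c3).le hδ.le
      _ = 960 * (δ * κ) := by ring
      _ ≤ 960 * 1 * (D.N p ^ (2 / 3 + ε) * 1) := by linarith only [k5]
      _ ≤ 960 * (D.c * C₂) * (D.N p ^ (2 / 3 + ε) * R ^ ε) := by gcongr
      _ = _ := by ring
  by_cases c4 : 180 * (2 * ∑ j, A j + 1) ≤ δ ^ 3 * h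
  swap
  · have h1 := (m2_sum Finset.univ A hA1).trans hA3
    calc δ ^ 4 * h = δ * (δ ^ 3 * h) := by ring
      _ ≤ 1 * (180 * (2 * ∑ j, A j + 1)) :=
        mul_le_mul (by linarith only [hδ8]) (not_le.1 c4).le (by positivity) zero_le_one
      _ ≤ 960 * 1 * (1 * (C₂ * R ^ ε)) := by
        linarith only [h1, one_le_mul_of_one_le_of_one_le hC₂ hP2]
      _ ≤ 960 * D.c * (D.N p ^ (2 / 3 + ε) * (C₂ * R ^ ε)) := by gcongr
      _ = _ := by ring
  have hTW : 1 ≤ Real.exp (κ - 2 * n) := Real.one_le_exp k4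
  obtain ⟨W, B, hB, w1, w2, w3⟩ := D.many _ hTW
  have hlt : 2 ^ Fintype.card V * Real.exp (κ - 2 * n) < D.N p := by
    have h1 : (2 : ℝ) ^ Fintype.card V ≤ Real.exp d := by
      rw [hd, ← Real.exp_one_pow]
      exact pow_le_pow_left₀ (by norm_num) (by linarith only [Real.add_one_le_exp 1]) _
    have h2 : (0 : ℝ) ≤ n := Nat.cast_nonneg _
    calc _ ≤ Real.exp d * Real.exp (κ - 2 * n) := by gcongr
      _ < _ := by rw [← Real.exp_add, hNg]; exact Real.exp_lt_exp.2 (by linarith only [hd, hg1, c1, k2])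
  have hnd : ∀ a : O, a ≠ 0 → (∀ w, |D.σ w a| ≤ 2 * B) → ¬p ∣ a := fun a ha hb hd => by
    have h1 := (D.N_le_of_dvd hd ha).trans (D.m2_N_le hb)
    rw [mul_pow] at h1
    have h2 : (2 : ℝ) ^ Fintype.card V * B ^ Fintype.card V ≤
      2 ^ Fintype.card V * Real.exp (κ - 2 * n) := by gcongr
    linarith only [hlt, h1, h2]
  have hv0 : (1 : ℝ) ≤ v := by exact_mod_cast hv1
  have hh : 0 < h := by linarith only [hd, c2]
  have hκ0 : 0 < κ := by linarith only [hd, hg1, c1, k3]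
  have main := D.kill_fin K G x z hxz hz (by
      have hz' : algebraMap O K z ≠ 0 := fun e => hz (IsFractionRing.injective O K (by simpa using e))
      rw [hxe, map_sub, map_neg, sub_div, div_self hz'])
    (fun j => (hxy.mul_right hxz).of_isCoprime_of_dvd_right (hα j)) {p}
    (fun q hq => by rwa [Finset.mem_singleton.1 hq])
    (fun q hq r hr _ => by rw [Finset.mem_singleton.1 hq, Finset.mem_singleton.1 hr])
    (fun _ => v) (fun _ => 1) (fun q hq => ⟨hv1, by rwa [Finset.mem_singleton.1 hq]⟩)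
    (fun _ _ => le_rfl) v δ κ (Real.exp (κ - 2 * n)) (fun _ _ => by simp) hδ (by linarith only [hδ, hδ8])
    (by rwa [Finset.sum_singleton]) (by rwa [Finset.sum_singleton])
    (by
      rw [Finset.card_singleton, ← hd, Nat.cast_one, mul_one]
      refine hg3.trans ?_
      gcongr
      linarith only [c1, k3])
    c3 (by rw [Finset.card_singleton, Nat.cast_one]; linarith only [c4])
    (by
      rw [Finset.sum_singleton, ← hg, le_div_iff₀ (by positivity), hκ]
      rw [← hg] at hv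
      have h1 : 0 ≤ (1 - δ) * (v * g) := mul_nonneg (by linarith only [hδ, hδ8]) (by positivity)
      linarith only [mul_le_mul_of_nonneg_left hv h1])
    W (fun u hu => ⟨(w3 u hu).1, fun q hq => by
      rw [Finset.mem_singleton.1 hq]
      exact hnd u (w3 u hu).1 fun w => by linarith only [(w3 u hu).2 w, hB]⟩)
    (fun u hu u' hu' hd => by
      rw [Finset.prod_singleton, pow_one] at hd
      by_contra hne
      refine hnd _ (sub_ne_zero.2 hne) (fun w => ?_) hd
      rw [map_sub]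
      linarith only [abs_sub (D.σ w u) (D.σ w u'), (w3 u hu).2 w, (w3 u' hu').2 w])
    (fun u hu u' hu' => by
      refine le_trans ?_ w1
      rw [← Finset.card_univ, ← Finset.prod_const]
      exact Finset.prod_le_prod (fun _ _ => le_max_of_le_left (abs_nonneg _)) fun w _ =>
        max_le ((w3 u hu).2 w) ((w3 u' hu').2 w))
    hTW (by rw [Real.log_exp]; linarith only [])
  rw [Finset.prod_singleton, pow_one] at main
  refine le_of_mul_le_mul_right ?_ (Real.exp_pos (κ - 2 * n))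
  calc δ ^ 4 * h * Real.exp (κ - 2 * n) ≤ δ ^ 4 * h * (D.c * W.card) := by gcongr
    _ = δ * D.c * (δ ^ 3 * h * W.card) := by ring
    _ ≤ δ * D.c * (960 * κ * D.N p * ∏ j, (2 * A j)) := by gcongr
    _ ≤ δ * D.c * (960 * κ * D.N p * (C₂ * R ^ ε)) := by gcongr
    _ = 960 * D.c * C₂ * R ^ ε * (δ * κ * D.N p) := by ring
    _ ≤ 960 * D.c * C₂ * R ^ ε * (D.N p ^ (2 / 3 + ε) * Real.exp (κ - 2 * n)) := by gcongr
    _ = _ := by ring

omit K in
theorem m3_sum_le {n : ℕ} (A : Fin n → ℝ) (hA : ∀ j, 1 ≤ A j) :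
    ∑ j, A j ≤ ∏ j, (2 * A j) ∧ 1 ≤ ∏ j, (2 * A j) := by
  have key : ∀ s : Finset (Fin n), ∑ j ∈ s, A j ≤ ∏ j ∈ s, (2 * A j) ∧ 1 ≤ ∏ j ∈ s, (2 * A j) := by
    intro s
    induction s using Finset.induction_on with
    | empty => simp
    | insert a s ha ih =>
      rw [Finset.sum_insert ha, Finset.prod_insert ha]
      obtain ⟨h2, h3⟩ := ih
      have h4 := hA a
      have h5 : A a ≤ A a * ∏ j ∈ s, (2 * A j) := le_mul_of_one_le_right (by linarith) h3
      have h6 : ∏ j ∈ s, (2 * A j) ≤ A a * ∏ j ∈ s, (2 * A j) :=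
        le_mul_of_one_le_left (by linarith) h4
      rw [mul_assoc]
      constructor <;> linarith
  exact key Finset.univ

omit K in
theorem Dat.m3_Hm {x y z : O} (hs : x + y + z = 0) (hz : z ≠ 0) :
    Real.log (D.Hm y z) ≤ Real.log (D.ht x y z) ∧
      Real.log (D.ht x y z) ≤ Real.log (D.Hm y z) + Fintype.card V := by
  have hp : ∀ w, 0 < max |D.σ w y| |D.σ w z| := fun w =>
    lt_max_of_lt_right (abs_pos.2 (D.σ_ne hz w))
  have hH : 0 < D.Hm y z := Finset.prod_pos fun w _ => hp w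
  have h1 : D.Hm y z ≤ D.ht x y z :=
    Finset.prod_le_prod (fun w _ => (hp w).le) fun w _ =>
      max_le_max_right _ (le_max_right _ _)
  have h2 : D.ht x y z ≤ 2 ^ Fintype.card V * D.Hm y z := by
    have : (2 : ℝ) ^ Fintype.card V * D.Hm y z = ∏ w, (2 * max |D.σ w y| |D.σ w z|) := by
      rw [Finset.prod_mul_distrib, Finset.prod_const, Finset.card_univ]; rfl
    rw [this]
    refine Finset.prod_le_prod (fun w _ => le_max_of_le_right (abs_nonneg _)) fun w _ => ?_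
    have e : D.σ w x = -(D.σ w y + D.σ w z) := by
      have := congrArg (D.σ w) hs
      simp only [map_add, map_zero] at this
      linarith only [this]
    have a1 := le_max_left |D.σ w y| |D.σ w z|
    have a2 := le_max_right |D.σ w y| |D.σ w z|
    have a3 : |D.σ w x| ≤ |D.σ w y| + |D.σ w z| := by rw [e, abs_neg]; exact abs_add_le _ _
    have a4 := hp w
    exact max_le (max_le (by linarith) (by linarith)) (by linarith)
  refine ⟨Real.log_le_log hH h1, ?_⟩
  have h3 := Real.log_le_log (hH.trans_le h1) h2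
  rw [Real.log_mul (by positivity) hH.ne', Real.log_pow] at h3
  have h4 : Real.log 2 ≤ 1 := by have := Real.log_two_lt_d9; linarith only [this]
  have h5 : (Fintype.card V : ℝ) * Real.log 2 ≤ Fintype.card V :=
    mul_le_of_le_one_right (Nat.cast_nonneg _) h4
  linarith

omit K in
theorem Dat.m3_place {x y z : O} (hs : x + y + z = 0) (hx : x ≠ 0) {δ U : ℝ}
    (hN : Real.log (D.N x) ≤ (1 - δ) * Real.log (D.ht x y z))
    (hU : 2 * Fintype.card V * U = δ * Real.log (D.ht x y z)) (hU2 : Real.log 2 ≤ U) :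
    ∃ w, |D.σ w x| ≤ Real.exp (-U) * |D.σ w z| := by
  have hx0 : ∀ w, 0 < |D.σ w x| := fun w => abs_pos.2 (D.σ_ne hx w)
  have hM : ∀ w, 0 < max (max |D.σ w x| |D.σ w y|) |D.σ w z| := fun w =>
    lt_max_of_lt_left (lt_max_of_lt_left (hx0 w))
  have e1 : Real.log (D.N x) = ∑ w, Real.log |D.σ w x| :=
    Real.log_prod fun w _ => (hx0 w).ne'
  have e2 : Real.log (D.ht x y z) = ∑ w, Real.log (max (max |D.σ w x| |D.σ w y|) |D.σ w z|) :=
    Real.log_prod fun w _ => (hM w).ne'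
  have hne : (Finset.univ : Finset V).Nonempty := Finset.card_pos.1 D.pos_card
  obtain ⟨w, -, hw⟩ := Finset.exists_le_of_sum_le hne
    (f := fun w => Real.log |D.σ w x| + 2 * U)
    (g := fun w => Real.log (max (max |D.σ w x| |D.σ w y|) |D.σ w z|)) (by
      rw [Finset.sum_add_distrib, Finset.sum_const, Finset.card_univ, nsmul_eq_mul, ← e1, ← e2]
      linarith)
  refine ⟨w, ?_⟩
  set M := max (max |D.σ w x| |D.σ w y|) |D.σ w z| with hMd
  have hE : Real.exp (-U) ≤ 1 / 2 := by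
    rw [← Real.exp_log (show (0 : ℝ) < 1 / 2 by norm_num), one_div, Real.log_inv]
    exact Real.exp_le_exp.2 (by linarith only [hU2])
  have hE0 := Real.exp_pos (-U)
  have hM0 : 0 < M := hM w
  have h1 : |D.σ w x| ≤ Real.exp (-U) * (Real.exp (-U) * M) :=
    calc |D.σ w x| = Real.exp (Real.log |D.σ w x|) := (Real.exp_log (hx0 w)).symm
      _ ≤ Real.exp (-U + (-U + Real.log M)) := Real.exp_le_exp.2 (by linarith only [hw])
      _ = _ := by rw [Real.exp_add, Real.exp_add, Real.exp_log hM0]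
  have h2 : Real.exp (-U) * M ≤ 1 / 2 * M := mul_le_mul_of_nonneg_right hE hM0.le
  have h3 : |D.σ w x| ≤ M / 4 := by
    have := mul_le_mul hE h2 (by positivity) (by norm_num : (0 : ℝ) ≤ 1 / 2)
    linarith only [h1, this]
  have e : D.σ w y = -(D.σ w x + D.σ w z) := by
    have := congrArg (D.σ w) hs
    simp only [map_add, map_zero] at this
    linarith only [this]
  have a3 : |D.σ w y| ≤ |D.σ w x| + |D.σ w z| := by rw [e, abs_neg]; exact abs_add_le _ _
  have h4 : M ≤ M / 4 + |D.σ w z| := by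
    have := abs_nonneg (D.σ w z)
    exact max_le (max_le (by linarith only [h3, this]) (by linarith only [h3, a3])) (by linarith only [hM0])
  exact h1.trans (mul_le_mul_of_nonneg_left (by linarith only [hM0, h2, h4]) hE0.le)

theorem Dat.arch_case (δ ε : ℝ) (hδ : 0 < δ) (hδ1 : δ ≤ 1) (hε : 0 < ε) :
    ∃ C : ℝ, 1 ≤ C ∧ ∀ x y z : O, x + y + z = 0 → IsCoprime y z → x * y * z ≠ 0 →
      Real.log (D.N x) ≤ (1 - δ) * Real.log (D.ht x y z) →
      Real.log (D.ht x y z) ≤ C * D.rad (x * y * z) ^ ε := by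
  have hd : (1 : ℝ) ≤ (Fintype.card V : ℕ) := by exact_mod_cast D.pos_card
  obtain ⟨e, he⟩ : ∃ e : ℝ, e = δ / (2 * (Fintype.card V : ℕ)) := ⟨_, rfl⟩
  have he0 : 0 < e := by rw [he]; positivity
  have he1 : 2 * (Fintype.card V : ℕ) * e = δ := by rw [he]; field_simp
  have he2 : e ≤ 1 / 2 := by
    have := mul_le_mul_of_nonneg_right hd he0.le
    linarith
  obtain ⟨κ0, hκ0⟩ : ∃ κ0 : ℝ, κ0 = 120 * (11 + 4 * (Fintype.card V : ℕ)) / e ^ 2 := ⟨_, rfl⟩
  have hκp : 0 < κ0 := by rw [hκ0]; positivity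
  have hκe : e ^ 2 * κ0 = 120 * (11 + 4 * (Fintype.card V : ℕ)) := by rw [hκ0]; field_simp
  have ha1 : 1 ≤ Real.exp (12 / e + 1) := Real.one_le_exp (by positivity)
  obtain ⟨C', hC', hset⟩ := D.setup K (2 * Real.exp (12 / e + 1)) (ε / 2) (by linarith only [ha1])
    (by positivity)
  obtain ⟨C1, hC1⟩ : ∃ C1 : ℝ, C1 = 57600 * ((2 + κ0) * Real.exp (6 * κ0 / e + 1)) := ⟨_, rfl⟩
  have hb1 : 1 ≤ Real.exp (6 * κ0 / e + 1) := Real.one_le_exp (by positivity)
  have hb2 : 2 + κ0 ≤ (2 + κ0) * Real.exp (6 * κ0 / e + 1) :=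
    le_mul_of_one_le_right (by positivity) hb1
  have hC1p : 0 < C1 := by rw [hC1]; positivity
  refine ⟨C1 * C' ^ 2 / e ^ 3 + (2 * (Fintype.card V : ℕ) + 1 / e), ?_, ?_⟩
  · have : 0 ≤ C1 * C' ^ 2 / e ^ 3 := by positivity
    have : 0 ≤ 1 / e := by positivity
    linarith
  intro x y z hs hc h0 hN
  have hx : x ≠ 0 := left_ne_zero_of_mul (left_ne_zero_of_mul h0)
  have hy : y ≠ 0 := right_ne_zero_of_mul (left_ne_zero_of_mul h0)
  have hz : z ≠ 0 := right_ne_zero_of_mul h0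
  have hR : 1 ≤ D.rad (x * y * z) ^ ε := Real.one_le_rpow (D.one_le_rad _) hε.le
  have hA0 : 0 ≤ C1 * C' ^ 2 / e ^ 3 := by positivity
  have hA1 : 0 ≤ 1 / e := by positivity
  obtain ⟨h, hh⟩ : ∃ h : ℝ, h = Real.log (D.ht x y z) := ⟨_, rfl⟩
  by_cases hsm : h ≤ 2 * (Fintype.card V : ℕ) + 1 / e
  · rw [← hh]
    exact hsm.trans ((le_add_of_nonneg_left hA0).trans
      (le_mul_of_one_le_right (by linarith only [hA0, hA1]) hR))
  rw [not_le] at hsm
  have hpos : 0 < h := by linarith only [hA1, hsm]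
  have hU1 : 1 ≤ e * h := by
    have : 1 / e ≤ h := by linarith only [hsm]
    rwa [div_le_iff₀ he0, mul_comm] at this
  have hl2 : Real.log 2 ≤ 1 := by have := Real.log_two_lt_d9; linarith only [he0, he2, this]
  obtain ⟨w, hw⟩ := D.m3_place hs hx (U := e * h) hN (by rw [← hh, ← mul_assoc, he1])
    (hl2.trans hU1)
  obtain ⟨m1, m2⟩ := D.m3_Hm hs hz
  rw [← hh] at m1 m2 ⊢
  obtain ⟨n, α, A, b, G, -, hQ⟩ := hset y z hy hz hc h m1 (by linarith only [hA1, hsm, m2])
  obtain ⟨s1, s2⟩ := m3_sum_le A G.one_le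
  have hs0 : 0 ≤ ∑ j, A j := Finset.sum_nonneg fun j _ => zero_le_one.trans (G.one_le j)
  obtain ⟨P, hP⟩ : ∃ P : ℝ, P = ∏ j, (2 * A j) := ⟨_, rfl⟩
  obtain ⟨E, hE⟩ : ∃ E : ℝ, E = Real.exp (n * (12 / e + 1)) := ⟨_, rfl⟩
  have hE1 : 1 ≤ E := by rw [hE]; exact Real.one_le_exp (by positivity)
  have hQ1 : ∏ j, (2 * Real.exp (12 / e + 1) * A j) = E * P := by
    rw [hE, hP, Real.exp_nat_mul]
    have : ∀ j, 2 * Real.exp (12 / e + 1) * A j = Real.exp (12 / e + 1) * (2 * A j) :=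
      fun j => by ring
    simp only [this]
    rw [Finset.prod_mul_distrib, Finset.prod_const, Finset.card_univ, Fintype.card_fin]
  rw [← hP] at s1 s2
  rw [hQ1] at hQ
  have hxy : IsCoprime x (y * z) := by
    have e1 : x = -z + y * (-1) := by linear_combination hs
    have e2 : x = -y + z * (-1) := by linear_combination hs
    refine IsCoprime.mul_right ?_ ?_
    · rw [e1]; exact hc.symm.neg_left.add_mul_left_left _
    · rw [e2]; exact hc.neg_left.add_mul_left_left _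
  have hrad : D.rad (y * z) ≤ D.rad (x * y * z) := by
    rw [mul_assoc, D.rad_mul hxy]
    exact le_mul_of_one_le_left (zero_le_one.trans (D.one_le_rad _)) (D.one_le_rad _)
  have hr0 : 0 ≤ D.rad (y * z) := zero_le_one.trans (D.one_le_rad _)
  have hB : (E * P) ^ 2 ≤ C' ^ 2 * D.rad (x * y * z) ^ ε := by
    have q1 : (E * P) ^ 2 ≤ (C' * D.rad (y * z) ^ (ε / 2)) ^ 2 :=
      pow_le_pow_left₀ (by positivity) hQ 2
    have q2 : (D.rad (y * z) ^ (ε / 2)) ^ 2 = D.rad (y * z) ^ ε := by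
      rw [← Real.rpow_natCast, ← Real.rpow_mul hr0]; congr 1; push_cast; ring
    rw [mul_pow, mul_pow, q2] at q1
    rw [mul_pow]
    exact q1.trans (mul_le_mul_of_nonneg_left (Real.rpow_le_rpow hr0 hrad hε.le) (by positivity))
  have hEP : E * P ^ 2 ≤ (E * P) ^ 2 := by
    rw [mul_pow]
    exact mul_le_mul_of_nonneg_right (le_self_pow₀ hE1 two_ne_zero) (by positivity)
  obtain ⟨κ, hκ⟩ : ∃ κ : ℝ, κ = 2 * n + κ0 := ⟨_, rfl⟩
  have hn0 : (0 : ℝ) ≤ n := Nat.cast_nonneg n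
  have hκ1 : 0 < κ := by rw [hκ]; positivity
  have hn1 : (n : ℝ) + 1 ≤ Real.exp n := Real.add_one_le_exp n
  have hκ2 : κ ≤ (2 + κ0) * Real.exp n := by
    have q : κ0 ≤ κ0 * Real.exp n := le_mul_of_one_le_right hκp.le (by linarith only [hn1])
    rw [hκ, add_mul]; linarith only [he0, he2, hn1, q]
  have hnE : Real.exp n ≤ E := by
    rw [hE]; refine Real.exp_le_exp.2 ?_
    have : 0 ≤ (n : ℝ) * (12 / e) := by positivity
    linarith only [this]
  have hP2 : P ≤ P ^ 2 := le_self_pow₀ s2 two_ne_zero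
  have hEP1 : E ≤ E * P ^ 2 := le_mul_of_one_le_right (by linarith only [he0, he2, hE1]) (by linarith only [s2, hP2])
  have hEP2 : P ≤ E * P ^ 2 := hP2.trans (le_mul_of_one_le_left (by positivity) hE1)
  have main : e ^ 3 * h ≤ C1 * (E * P ^ 2) := by
    by_cases hh1 : 960 * κ ≤ e ^ 3 * h
    swap
    · have q1 : κ ≤ (2 + κ0) * (E * P ^ 2) :=
        hκ2.trans (mul_le_mul_of_nonneg_left (hnE.trans hEP1) (by positivity))
      have q2 : (2 + κ0) * (E * P ^ 2) ≤ (2 + κ0) * Real.exp (6 * κ0 / e + 1) * (E * P ^ 2) :=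
        mul_le_mul_of_nonneg_right hb2 (by positivity)
      rw [hC1, mul_assoc]; linarith only [hκp, hκ, hh1, q1, q2]
    by_cases hh2 : 180 * (2 * ∑ j, A j + 1) ≤ e ^ 3 * h
    swap
    · have q2 : 1 * (E * P ^ 2) ≤ (2 + κ0) * Real.exp (6 * κ0 / e + 1) * (E * P ^ 2) :=
        mul_le_mul_of_nonneg_right (by linarith only [hκp, hb2]) (by positivity)
      rw [hC1, mul_assoc]; linarith only [s1, hE1, hEP1, hEP2, hh2, q2]
    have hzK : algebraMap O K z ≠ 0 := by
      rw [Ne, IsFractionRing.to_map_eq_zero_iff]; exact hz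
    have hψ : -algebraMap O K y / algebraMap O K z - 1 = algebraMap O K x / algebraMap O K z := by
      have := congrArg (algebraMap O K) hs
      simp only [map_add, map_zero] at this
      field_simp
      linear_combination -this
    have h1e : 0 < 1 - e := by linarith only [he0, he2]
    have hy0 : 0 < (1 - e) * (e * h) ^ 2 / (3 * κ * h) := by positivity
    obtain ⟨g, hg⟩ : ∃ g : ℝ, g = 6 * κ / e + 1 := ⟨_, rfl⟩
    have hg0 : 0 ≤ 6 * κ / e := by positivity
    have hyg : e * h ≤ (1 - e) * (e * h) ^ 2 / (3 * κ * h) * g := by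
      have q1 : (1 - e) * (e * h) ^ 2 / (3 * κ * h) * (6 * κ / e) = 2 * (1 - e) * (e * h) := by
        field_simp; ring
      have q2 : e * h ≤ 2 * (1 - e) * (e * h) := le_mul_of_one_le_left (by linarith only [he0, he2, hU1]) (by linarith only [he2])
      rw [hg, mul_add, q1]; linarith only [hy0, q2]
    have fin := D.kill_arch K G x z hz hψ w (e * h) g _ e κ hw (hl2.trans hU1)
      (by rw [hg]; linarith only [hl2, hg0]) hyg he0 (by linarith only [he0, he2]) le_rfl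
      (mul_le_of_le_one_left hpos.le (by linarith only [he0, he2]))
      (by rw [← hκe, hκ]; exact mul_le_mul_of_nonneg_left (by linarith only []) (by positivity))
      hh1 hh2 le_rfl (by rw [hκ]; linarith only [hκp])
    rw [← hP] at fin
    have q3 : Real.exp n * Real.exp g = Real.exp (6 * κ0 / e + 1) * E := by
      rw [hE, ← Real.exp_add, ← Real.exp_add, hg, hκ]; congr 1; ring
    have q4 : κ * Real.exp g ≤ (2 + κ0) * Real.exp (6 * κ0 / e + 1) * E := by
      rw [mul_assoc, ← q3, ← mul_assoc]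
      exact mul_le_mul_of_nonneg_right hκ2 (Real.exp_pos _).le
    have q5 : (∑ j, A j + 2) * P ≤ 3 * P ^ 2 := by
      have := mul_le_mul_of_nonneg_right (show ∑ j, A j + 2 ≤ 3 * P by linarith only [s2, s1])
        (zero_le_one.trans s2)
      linarith only [this]
    have q6 : κ * Real.exp g * ((∑ j, A j + 2) * P) ≤
        (2 + κ0) * Real.exp (6 * κ0 / e + 1) * E * (3 * P ^ 2) :=
      mul_le_mul q4 q5 (by positivity) (by positivity)
    rw [hC1]
    calc e ^ 3 * h ≤ _ := fin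
      _ = 19200 * (κ * Real.exp g * ((∑ j, A j + 2) * P)) := by ring
      _ ≤ 19200 * ((2 + κ0) * Real.exp (6 * κ0 / e + 1) * E * (3 * P ^ 2)) := by linarith only [q6]
      _ = _ := by ring
  have f1 : e ^ 3 * h ≤ C1 * (C' ^ 2 * D.rad (x * y * z) ^ ε) :=
    main.trans (mul_le_mul_of_nonneg_left (hEP.trans hB) hC1p.le)
  have f2 : h ≤ C1 * C' ^ 2 / e ^ 3 * D.rad (x * y * z) ^ ε := by
    rw [div_mul_eq_mul_div, le_div_iff₀ (by positivity)]; linarith only [f1]
  exact f2.trans (mul_le_mul_of_nonneg_right (by linarith only [hA1]) (by linarith only [he0, he2, hR]))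

omit K in
theorem main_split {ι : Type*} [DecidableEq ι] (P : Finset ι) (l : ι → ℝ) (L : ℝ) (hL : 0 ≤ L)
    (h2 : ∀ p ∈ P, l p ≤ 2 * L) (h3 : ∑ p ∈ P, l p ≤ 3 * L) :
    ∃ S ⊆ P, ∑ p ∈ S, l p ≤ 2 * L ∧ ∑ p ∈ P \ S, l p ≤ 2 * L := by
  obtain ⟨S, hS, hmax⟩ := Finset.exists_max_image
    (P.powerset.filter fun S => ∑ p ∈ S, l p ≤ 2 * L) (fun S => ∑ p ∈ S, l p)
    ⟨∅, by simp only [mem_filter, mem_powerset, empty_subset, sum_empty, Nat.ofNat_pos, mul_nonneg_iff_of_pos_left, true_and]; linarith⟩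
  rw [Finset.mem_filter, Finset.mem_powerset] at hS
  refine ⟨S, hS.1, hS.2, ?_⟩
  by_contra hc
  have hc := not_le.1 hc
  have hs := Finset.sum_sdiff hS.1 (f := l)
  have h0 : ∑ p ∈ P \ S, l p ≤ 0 := by
    refine Finset.sum_nonpos fun p hp => ?_
    rw [Finset.mem_sdiff] at hp
    have h1 := hmax {p} (by
      rw [Finset.mem_filter, Finset.mem_powerset, Finset.sum_singleton]
      exact ⟨Finset.singleton_subset_iff.2 hp.1, h2 p hp.1⟩)
    rw [Finset.sum_singleton] at h1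
    have h4 := hmax (insert p S) (by
      rw [Finset.mem_filter, Finset.mem_powerset, Finset.sum_insert hp.2]
      exact ⟨Finset.insert_subset hp.1 hS.1, by linarith⟩)
    rw [Finset.sum_insert hp.2] at h4
    linarith
  linarith

omit K in
theorem Dat.main_logN {x : O} (hx : x ≠ 0) : Real.log (D.N x) =
    ∑ p ∈ primeFactors x, ((normalizedFactors x).count p : ℝ) * Real.log (D.N p) := by
  obtain ⟨u, hu⟩ := prod_normalizedFactors hx
  have h1 : D.N x = ∏ p ∈ primeFactors x, D.N p ^ (normalizedFactors x).count p := by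
    conv_lhs => rw [← hu]
    rw [D.N_mul, D.N_unit, mul_one, Finset.prod_multiset_count, D.N_prod]
    exact Finset.prod_congr (by ext q; rw [mem_primeFactors, Multiset.mem_toFinset])
      fun p _ => D.N_pow _ _
  rw [h1, Real.log_prod fun p hp => (pow_pos (D.N_pos (prime_of_mem hp).ne_zero) _).ne']
  exact Finset.sum_congr rfl fun p _ => by rw [Real.log_pow]

theorem Dat.main_x (ε : ℝ) (hε : 0 < ε) : ∃ C : ℝ, ∀ x y z : O, x + y + z = 0 → IsCoprime y z →
    x * y * z ≠ 0 → 3 * Real.log (D.rad x) ≤ Real.log (D.rad (x * y * z)) →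
    Real.log (D.ht x y z) ≤ C * D.rad (x * y * z) ^ (2 / 9 + ε) := by
  obtain ⟨δ, hδ, hδ4, C2, hC2, H2⟩ := D.big_prime K (ε / 2) (by linarith)
  obtain ⟨C1, hC1, H1⟩ := D.small_part K δ (ε / 2) hδ (by linarith only [hδ, hδ4]) (by linarith)
  obtain ⟨C3, hC3, H3⟩ := D.arch_case K δ (ε / 2) hδ (by linarith) (by linarith)
  refine ⟨C1 + C2 + C3, fun x y z hs hc h0 hr => ?_⟩
  have hx : x ≠ 0 := left_ne_zero_of_mul (left_ne_zero_of_mul h0)
  replace H1 := H1 x y z hs hc h0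
  replace H2 := H2 x y z hs hc h0
  replace H3 := H3 x y z hs hc h0
  have hR1 := D.one_le_rad (x * y * z)
  have hlogN := D.main_logN hx
  generalize D.rad (x * y * z) = R at *
  generalize Real.log (D.ht x y z) = h at *
  have hR0 : 0 < R := by linarith
  have hLR : 0 ≤ Real.log R := Real.log_nonneg hR1
  have hpos : 0 < R ^ (2 / 9 + ε) := Real.rpow_pos_of_pos hR0 _
  have hNp : ∀ p ∈ primeFactors x, 1 ≤ D.N p := fun p hp => D.one_le_N (prime_of_mem hp).ne_zero
  have hlog : ∀ S ⊆ primeFactors x, Real.log (∏ p ∈ S, D.N p) = ∑ p ∈ S, Real.log (D.N p) :=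
    fun S hS => Real.log_prod fun p hp => (lt_of_lt_of_le one_pos (hNp p (hS hp))).ne'
  have hrad : ∑ p ∈ primeFactors x, Real.log (D.N p) ≤ 3 * (Real.log R / 9) := by
    rw [← hlog _ (Finset.Subset.refl _)]
    have : Real.log (∏ p ∈ primeFactors x, D.N p) = Real.log (D.rad x) := rfl
    linarith only [hr, this]
  have fin : ∀ C e : ℝ, 0 ≤ C → C ≤ C1 + C2 + C3 → e ≤ 2 / 9 + ε → h ≤ C * R ^ e →
      h ≤ (C1 + C2 + C3) * R ^ (2 / 9 + ε) := fun C e hC0 hC he hh =>
    hh.trans (mul_le_mul hC (Real.rpow_le_rpow_of_exponent_le hR1 he)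
      (Real.rpow_nonneg hR0.le _) (by linarith only [hδ, hδ4, hC2, hC1, hC3]))
  have small : ∀ S ⊆ primeFactors x, ∑ p ∈ S, Real.log (D.N p) ≤ 2 * (Real.log R / 9) →
      δ * h ≤ ∑ p ∈ S, ((normalizedFactors x).count p : ℝ) * Real.log (D.N p) →
      h ≤ (C1 + C2 + C3) * R ^ (2 / 9 + ε) := by
    intro S hS h1 h2
    have h3 : ∏ p ∈ S, D.N p ≤ R ^ (2 / 9 : ℝ) := by
      rw [Real.le_rpow_iff_log_le
        (Finset.prod_pos fun p hp => lt_of_lt_of_le one_pos (hNp p (hS hp))) hR0, hlog S hS]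
      linarith only [h1]
    refine fin C1 (2 / 9 + ε / 2) (by linarith only [hδ, hδ4, hC1]) (by linarith only [hδ, hδ4, hC2, hC3]) (by linarith only [hε]) ((H1 S hS h2).trans ?_)
    rw [Real.rpow_add hR0, mul_assoc]
    exact mul_le_mul_of_nonneg_left
      (mul_le_mul_of_nonneg_right h3 (Real.rpow_nonneg hR0.le _)) (by linarith only [hδ, hδ4, hC1])
  by_cases hh : h ≤ 0
  · exact hh.trans (mul_nonneg (by linarith only [hδ, hδ4, hC2, hC1, hC3]) hpos.le)
  have hh := not_le.1 hh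
  by_cases hA : Real.log (D.N x) ≤ (1 - δ) * h
  · exact fin C3 (ε / 2) (by linarith only [hδ, hδ4, hC3]) (by linarith only [hδ, hδ4, hC2, hC1]) (by linarith only [hε]) (H3 hA)
  have hA := not_le.1 hA
  rw [hlogN] at hA
  by_cases hB : ∃ p ∈ primeFactors x, 2 * (Real.log R / 9) ≤ Real.log (D.N p)
  · obtain ⟨p, hp, hB⟩ := hB
    have hp0 : 0 < D.N p := lt_of_lt_of_le one_pos (hNp p hp)
    have e1 := Finset.add_sum_erase _ (fun q => Real.log (D.N q)) hp
    have e2 := Finset.add_sum_erase _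
      (fun q => ((normalizedFactors x).count q : ℝ) * Real.log (D.N q)) hp
    have e0 : 0 ≤ ∑ q ∈ (primeFactors x).erase p, Real.log (D.N q) :=
      Finset.sum_nonneg fun q hq => Real.log_nonneg (hNp q (Finset.mem_of_mem_erase hq))
    by_cases hS : δ * h ≤ ∑ q ∈ (primeFactors x).erase p,
        ((normalizedFactors x).count q : ℝ) * Real.log (D.N q)
    · exact small _ (Finset.erase_subset _ _) (by linarith only [hLR, hrad, hB, e1]) hS
    have hS := not_le.1 hS
    have h1 : R ^ (2 / 9 : ℝ) ≤ D.N p := by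
      rw [Real.rpow_le_iff_le_log hR0 hp0]
      linarith only [hB]
    have h2 : D.N p ≤ R ^ (1 / 3 : ℝ) := by
      rw [Real.le_rpow_iff_log_le hp0 hR0]
      linarith only [hrad, e1, e0]
    have h3 : D.N p ^ (2 / 3 + ε / 2) ≤ R ^ (1 / 3 * (2 / 3 + ε / 2)) := by
      rw [Real.rpow_mul hR0.le]
      exact Real.rpow_le_rpow hp0.le h2 (by linarith only [hε])
    refine fin C2 (1 / 3 * (2 / 3 + ε / 2) + ε / 2) (by linarith only [hδ, hδ4, hC2]) (by linarith only [hδ, hδ4, hC1, hC3]) (by linarith only [hε])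
      ((H2 p hp (by linarith) h1).trans ?_)
    rw [Real.rpow_add hR0 (1 / 3 * (2 / 3 + ε / 2)), mul_assoc]
    exact mul_le_mul_of_nonneg_left
      (mul_le_mul_of_nonneg_right h3 (Real.rpow_nonneg hR0.le _)) (by linarith only [hδ, hδ4, hC2])
  · obtain ⟨S, hS, h1, h2⟩ := main_split (primeFactors x) (fun p => Real.log (D.N p))
      (Real.log R / 9) (by linarith only [hLR])
      (fun p hp => (not_le.1 fun e => hB ⟨p, hp, e⟩).le) hrad
    have e := Finset.sum_sdiff hS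
      (f := fun q => ((normalizedFactors x).count q : ℝ) * Real.log (D.N q))
    by_cases hw : δ * h ≤ ∑ p ∈ S, ((normalizedFactors x).count p : ℝ) * Real.log (D.N p)
    · exact small S hS h1 hw
    · have hw := not_le.1 hw
      have h5 : δ * h ≤ 1 / 4 * h := mul_le_mul_of_nonneg_right hδ4 hh.le
      exact small _ Finset.sdiff_subset h2 (by linarith)

omit K in
theorem Dat.main_rot (a b c : O) : D.ht b c a = D.ht a b c :=
  Finset.prod_congr rfl fun w _ => by rw [max_comm, max_assoc]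

theorem Dat.main (ε : ℝ) (hε : 0 < ε) : ∃ C : ℝ, ∀ a b c : O, a + b + c = 0 → IsCoprime a b →
    a * b * c ≠ 0 → Real.log (D.ht a b c) ≤ C * D.rad (a * b * c) ^ (2 / 9 + ε) := by
  obtain ⟨C, H⟩ := D.main_x K ε hε
  refine ⟨C, fun a b c hs hab h0 => ?_⟩
  have hc : c = -(a + b) := by linear_combination hs
  have hac : IsCoprime a c := by
    rw [hc]
    obtain ⟨u, v, h⟩ := hab
    exact ⟨u - v, -v, by linear_combination h⟩
  have hbc : IsCoprime b c := by
    rw [hc]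
    obtain ⟨u, v, h⟩ := hab
    exact ⟨v - u, -u, by linear_combination h⟩
  have hp : ∀ t : O, D.rad t ≠ 0 := fun t => (lt_of_lt_of_le one_pos (D.one_le_rad t)).ne'
  have hR : Real.log (D.rad (a * b * c)) =
      Real.log (D.rad a) + Real.log (D.rad b) + Real.log (D.rad c) := by
    rw [D.rad_mul (IsCoprime.mul_left hac hbc), D.rad_mul hab,
      Real.log_mul (mul_ne_zero (hp a) (hp b)) (hp c), Real.log_mul (hp a) (hp b)]
  have e1 : b * c * a = a * b * c := by ring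
  have e2 : c * a * b = a * b * c := by ring
  by_cases h1 : 3 * Real.log (D.rad a) ≤ Real.log (D.rad (a * b * c))
  · exact H a b c hs hbc h0 h1
  by_cases h2 : 3 * Real.log (D.rad b) ≤ Real.log (D.rad (a * b * c))
  · have := H b c a (by linear_combination hs) hac.symm (e1 ▸ h0) (e1 ▸ h2)
    rwa [e1, D.main_rot] at this
  · have := H c a b (by linear_combination hs) hab (e2 ▸ h0) (by rw [e2]; linarith)
    rwa [e2, ← D.main_rot] at this

end Pool.Agent.MP_2a5a28_nt.H70
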